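import Pool.Agent.H.MP_1611f1_gt.LG.OneG

/-!
The one-dimensional data with prescribed germs at prescribed times.
-/

namespace Pool.Agent.H.MP_1611f1_gt.LG

open Topology Set Filter
open Pool.Agent.H.MP_1611f1_gt.LS

/-- exchange of `A` and `B` -/
theorem exists_swap {σ τ : ℝ} (h : τ = -σ) (H : Hol σ) (c : ℤ) (hc : Odd c) :
    ∃ H' : Hol τ, (∀ t, H'.A t = H.B (t + c) - c) ∧ ∀ t, H'.B t = H.A (t + c) - c := by
  obtain ⟨d, hd⟩ := hc
  have hc' : (c : ℝ) = 2 * d + 1 := by rw [hd]; push_cast; ring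
  have sy : ∀ (e : ℝ ≃o ℝ) t, (OneA_conj e (-c)).symm t = e.symm (t + c) - c := by
    intro e t
    rw [OrderIso.symm_apply_eq, OneA_conj_apply]
    rw [sub_neg_eq_add, sub_add_cancel, OrderIso.apply_symm_apply]
    ring
  have ap : ∀ (e : ℝ ≃o ℝ) t, OneA_conj e (-c) t = e (t + c) - c := by
    intro e t
    rw [OneA_conj_apply, sub_neg_eq_add]
    ring
  refine ⟨⟨OneA_conj H.B (-c), OneA_conj H.A (-c), fun t => H.th (t + c), ?_, ?_, ?_, ?_, ?_, ?_,
    ?_, ?_⟩, ap H.B, ap H.A⟩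
  · intro x y hxy
    exact H.mono (by linarith)
  · exact H.cont.comp (continuous_id.add continuous_const)
  · intro t
    rw [ap, ap, show t + 4 + (c : ℝ) = t + c + 4 by ring, H.B4]
    ring
  · intro t
    rw [ap, ap, show t + 4 + (c : ℝ) = t + c + 4 by ring, H.A4]
    ring
  · intro t
    show H.th (t + 4 + c) = H.th (t + c) + 4
    rw [show t + 4 + (c : ℝ) = t + c + 4 by ring, H.th4]
  · intro m
    have h1 := H.Bfix (m + d)
    push_cast at h1
    rw [ap, hc', show 2 * (m : ℝ) + (2 * d + 1) = 2 * (m + d) + 1 by ring, h1]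
    ring
  · intro m
    have h1 := H.Afix (m + d + 1)
    push_cast at h1
    rw [ap, hc', show 2 * (m : ℝ) + 1 + (2 * d + 1) = 2 * (m + d + 1) by ring, h1]
    ring
  · intro t
    show H.th ((OneA_conj H.A (-c)).symm ((OneA_conj H.B (-c)).symm
      (OneA_conj H.A (-c) (OneA_conj H.B (-c) t))) + c) = H.th (t + c) + 4 * τ
    rw [sy, sy, ap, ap, sub_add_cancel, sub_add_cancel, sub_add_cancel, sub_add_cancel]
    have h1 := H.rot (H.A.symm (H.B.symm (H.A (H.B (t + c)))))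
    rw [OrderIso.apply_symm_apply, OrderIso.apply_symm_apply, OrderIso.symm_apply_apply,
      OrderIso.symm_apply_apply] at h1
    rw [h1, h]
    ring

/-- **Fixed points of `B` near the odd integers**, with prescribed linear germs. -/
theorem germ_B {σ : ℝ} (H : Hol σ) (hA : ∀ m : ℤ, H.A (2 * m + 1) ≠ 2 * m + 1) :
    ∃ η₀ > 0, ∀ η, 0 < η → η < η₀ → ∀ l, 0 < l → ∃ H' : Hol σ, H'.A = H.A ∧
      ∀ m : ℤ, LinTwo H'.B (2 * m + 1 + η) l ∧ LinTwo H'.B (2 * m + 1 - η) l := by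
  obtain ⟨H1, a1, b1⟩ := exists_swap rfl H 1 (by decide)
  push_cast at a1 b1
  have hB : ∀ m : ℤ, H1.B (2 * m) ≠ 2 * m := by
    intro m h
    rw [b1] at h
    exact hA m (by linarith)
  obtain ⟨η₀, hη₀, h2⟩ := germ_A H1 hB
  refine ⟨η₀, hη₀, fun η h3 h4 l hl => ?_⟩
  obtain ⟨H2, hB2, hA2⟩ := h2 η h3 h4 l hl
  obtain ⟨H3, a3, b3⟩ := exists_swap (show σ = - -σ by ring) H2 (-1) (by decide)
  push_cast at a3 b3
  refine ⟨H3, ?_, fun m => ⟨?_, ?_⟩⟩
  · refine OrderIso.ext (funext fun t => ?_)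
    rw [a3, hB2, b1, show t + -1 + 1 = t by ring]
    ring
  · have h5 := Two_shift (B := H3.B) (fun t => by rw [b3]; ring_nf) (hA2 m).1
    rwa [show (2 * (m : ℝ) + 1 + η) = 2 * m + η + 1 by ring]
  · have h5 := Two_shift (B := H3.B) (fun t => by rw [b3]; ring_nf) (hA2 m).2
    rwa [show (2 * (m : ℝ) + 1 - η) = 2 * m - η + 1 by ring]

/-- the germs wanted -/
def Germs {σ : ℝ} (H : Hol σ) (a b l : ℝ) : Prop :=
  (∀ m : ℤ, LinTwo H.A (2 * m + a) l ∧ LinTwo H.A (2 * m - a) l) ∧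
    ∀ m : ℤ, LinTwo H.B (2 * m + 1 + b) l ∧ LinTwo H.B (2 * m + 1 - b) l

theorem germs_ne {σ : ℝ} (hσ : |σ| < 1) (h0 : σ ≠ 0) : ∃ a₀ > 0, ∀ a, 0 < a → a < a₀ → ∀ l, 0 < l →
    ∃ b₀ > 0, ∀ b, 0 < b → b < b₀ → ∃ H : Hol σ, Germs H a b l := by
  obtain ⟨H⟩ := exists_hol σ hσ
  obtain ⟨a₀, ha₀, h1⟩ := germ_A H (hol_B_ne h0 H)
  refine ⟨a₀, ha₀, fun a ha1 ha2 l hl => ?_⟩
  obtain ⟨H1, -, g1⟩ := h1 a ha1 ha2 l hl
  obtain ⟨b₀, hb₀, h2⟩ := germ_B H1 (hol_A_ne h0 H1)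
  refine ⟨b₀, hb₀, fun b hb1 hb2 => ?_⟩
  obtain ⟨H2, hA, g2⟩ := h2 b hb1 hb2 l hl
  exact ⟨H2, fun m => by rw [hA]; exact g1 m, g2⟩

/-- the block for the case `σ = 0` -/
theorem exists_zblock (a l : ℝ) (ha : 0 < a) (ha4 : a < 1 / 4) (hl : 0 < l) : ∃ A : ℝ ≃o ℝ,
    (∀ t, A (t + 2) = A t + 2) ∧ (∀ m : ℤ, A (2 * m) = 2 * m) ∧
    (∀ (m : ℤ) (t : ℝ), 2 * m + 1 / 2 ≤ t → t ≤ 2 * m + 3 / 2 → A t = t) ∧
    ∀ m : ℤ, LinTwo A (2 * m + a) l ∧ LinTwo A (2 * m - a) l := by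
  obtain ⟨ρ, hρ0, hρ, hρ1, hρ2⟩ := exists_rho a l ha hl
  obtain ⟨A, hA⟩ := exists_cblock (fun _ => ρ) (fun m => ⟨hρ 1 (by rw [abs_one]; linarith),
    hρ (-1) (by rw [abs_neg, abs_one]; linarith)⟩)
  have hlin : ∀ (m : ℤ) (c : ℝ), |c| < 1 / 2 → LinTwo ρ c l → LinTwo A (2 * m + c) l := by
    rintro m c hc ⟨-, ε, hε, h⟩
    rw [abs_lt] at hc
    refine ⟨hl, min ε (1 / 2), lt_min hε (by norm_num), fun t ht => ?_⟩
    have g1 := min_le_left ε (1 / 2)
    have g2 := min_le_right ε (1 / 2)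
    have e1 := hA m (t - 2 * m) (by
      rw [abs_le]
      constructor <;> linarith [ht.1, ht.2])
    rw [add_sub_cancel] at e1
    rw [e1, h _ ⟨by linarith [ht.1], by linarith [ht.2]⟩]
    ring
  refine ⟨A, fun t => ?_, fun m => ?_, fun m t h1 h2 => ?_, fun m => ⟨?_, ?_⟩⟩
  · obtain ⟨m, x, hx, rfl⟩ := exists_near t
    have e1 := hA (m + 1) x hx
    push_cast at e1
    rw [hA m x hx, show (2 * (m : ℝ) + x + 2) = 2 * (m + 1) + x by ring, e1]
    ring
  · have e1 := hA m 0 (by rw [abs_zero]; norm_num)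
    rw [hρ0] at e1
    simpa using e1
  · rcases le_total t (2 * m + 1) with h | h
    · have e1 := hA m (t - 2 * m) (by
        rw [abs_le]
        constructor <;> linarith)
      rw [hρ _ (by rw [abs_of_pos (by linarith)]; linarith)] at e1
      simpa using e1
    · have e1 := hA (m + 1) (t - 2 * (m + 1)) (by
        rw [abs_le]
        constructor <;> linarith)
      rw [hρ _ (by rw [abs_of_neg (by linarith)]; linarith)] at e1
      push_cast at e1
      rw [add_sub_cancel] at e1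
      exact e1
  · exact hlin m a (by rw [abs_of_pos ha]; linarith) hρ1
  · have := hlin m (-a) (by rw [abs_neg, abs_of_pos ha]; linarith) hρ2
    rwa [← sub_eq_add_neg] at this

theorem germs_zero (a b l : ℝ) (ha : 0 < a) (ha4 : a < 1 / 4) (hb : 0 < b) (hb4 : b < 1 / 4)
    (hl : 0 < l) : ∃ H : Hol 0, Germs H a b l := by
  obtain ⟨A, hA2, hAfix, hAid, hAl⟩ := exists_zblock a l ha ha4 hl
  obtain ⟨B0, hB2, hBfix, hBid, hBl⟩ := exists_zblock b l hb hb4 hl
  have hmem : ∀ (A : ℝ ≃o ℝ), (∀ (m : ℤ) (t : ℝ), 2 * m + 1 / 2 ≤ t → t ≤ 2 * m + 3 / 2 →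
      A t = t) → ∀ (k : ℤ) (t : ℝ), 2 * (k : ℝ) - 1 / 2 ≤ t → t ≤ 2 * k + 1 / 2 →
      2 * (k : ℝ) - 1 / 2 ≤ A t ∧ A t ≤ 2 * k + 1 / 2 := by
    intro A hid k t h1 h2
    constructor
    · have := A.monotone h1
      have h3 := hid (k - 1) (2 * (k : ℝ) - 1 / 2) (by push_cast; linarith) (by push_cast; linarith)
      rwa [h3] at this
    · have := A.monotone h2
      rwa [hid k _ le_rfl (by linarith)] at this
  let B : ℝ ≃o ℝ := OneA_conj B0 1
  have hB : ∀ t, B t = B0 (t - 1) + 1 := fun t => OneA_conj_apply _ _ _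
  have hcomm : ∀ t, B (A t) = A (B t) := by
    intro t
    obtain ⟨m, hm⟩ : ∃ m : ℤ, m = ⌊(t + 1 / 2) / 2⌋ := ⟨_, rfl⟩
    have k1 : (m : ℝ) ≤ (t + 1 / 2) / 2 := by rw [hm]; exact Int.floor_le _
    have k2 : (t + 1 / 2) / 2 < (m : ℝ) + 1 := by rw [hm]; exact Int.lt_floor_add_one _
    rw [hB, hB]
    rcases le_or_gt t (2 * m + 1 / 2) with h | h
    · obtain ⟨m1, m2⟩ := hmem A hAid m t (by linarith) h
      have e1 : B0 (t - 1) = t - 1 :=
        hBid (m - 1) _ (by push_cast; linarith) (by push_cast; linarith)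
      have e2 : B0 (A t - 1) = A t - 1 :=
        hBid (m - 1) _ (by push_cast; linarith) (by push_cast; linarith)
      rw [e1, e2, sub_add_cancel, sub_add_cancel]
    · obtain ⟨m1, m2⟩ := hmem B0 hBid m (t - 1) (by linarith) (by linarith)
      have e1 : A t = t := hAid m _ (by linarith) (by linarith)
      rw [e1, hAid m (B0 (t - 1) + 1) (by linarith) (by linarith)]
  have h4 : ∀ (A : ℝ ≃o ℝ), (∀ t, A (t + 2) = A t + 2) → ∀ t, A (t + 4) = A t + 4 := by
    intro A h t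
    rw [show t + 4 = t + 2 + 2 by ring, h, h]
    ring
  refine ⟨⟨A, B, fun t => t, strictMono_id, continuous_id, h4 A hA2, h4 B ?_, fun t => rfl,
    hAfix, ?_, ?_⟩, hAl, fun m => ⟨?_, ?_⟩⟩
  · intro t
    rw [hB, hB, show t + 2 - 1 = t - 1 + 2 by ring, hB2]
    ring
  · intro m
    rw [hB, add_sub_cancel_right, hBfix]
  · intro t
    show B.symm (A.symm (B (A t))) = t + 4 * 0
    rw [hcomm, OrderIso.symm_apply_apply, OrderIso.symm_apply_apply]
    ring
  · have h5 := Two_shift hB (hBl m).1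
    rwa [show (2 * (m : ℝ) + 1 + b) = 2 * m + b + 1 by ring]
  · have h5 := Two_shift hB (hBl m).2
    rwa [show (2 * (m : ℝ) + 1 - b) = 2 * m - b + 1 by ring]

theorem germs_all {σ : ℝ} (hσ : |σ| < 1) : ∃ a₀ > 0, ∀ a, 0 < a → a < a₀ → ∀ l, 0 < l →
    ∃ b₀ > 0, ∀ b, 0 < b → b < b₀ → ∃ H : Hol σ, Germs H a b l := by
  by_cases h0 : σ = 0
  · subst h0
    exact ⟨1 / 4, by norm_num, fun a ha1 ha2 l hl => ⟨1 / 4, by norm_num,
      fun b hb1 hb2 => germs_zero a b l ha1 ha2 hb1 hb2 hl⟩⟩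
  · exact germs_ne hσ h0

theorem exists_small {K : Type*} [Finite K] (a₀ : K → ℝ) (h : ∀ k, 0 < a₀ k) :
    ∃ a, 0 < a ∧ a < 1 / 4 ∧ ∀ k, a < a₀ k := by
  have h1 : ∀ᶠ a : ℝ in 𝓝[>] 0, ∀ k, a ∈ Ioo (0 : ℝ) (a₀ k) :=
    eventually_all.2 fun k => Ioo_mem_nhdsGT (h k)
  have h2 : ∀ᶠ a : ℝ in 𝓝[>] 0, a ∈ Ioo (0 : ℝ) (1 / 4) := Ioo_mem_nhdsGT (by norm_num)
  obtain ⟨a, h3, h4⟩ := (h1.and h2).exists
  exact ⟨a, h4.1, h4.2, fun k => (h3 k).2⟩

theorem exists_hols_germs {K : Type*} [Finite K] (σ l : K → ℝ) (hσ : ∀ k, |σ k| < 1)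
    (hl : ∀ k, 0 < l k) : ∃ a b, 0 < a ∧ a < 1 / 4 ∧ 0 < b ∧ b < 1 / 4 ∧
      ∃ H : ∀ k, Hol (σ k), ∀ k, Germs (H k) a b (l k) := by
  choose a₀ ha₀ h1 using fun k => germs_all (hσ k)
  obtain ⟨a, a1, a2, a3⟩ := exists_small a₀ ha₀
  choose b₀ hb₀ h2 using fun k => h1 k a a1 (a3 k) (l k) (hl k)
  obtain ⟨b, b1, b2, b3⟩ := exists_small b₀ hb₀
  choose H hH using fun k => h2 k b b1 (b3 k)
  exact ⟨a, b, a1, a2, b1, b2, H, hH⟩

/-! ### Change of time -/

theorem exists_conj {σ : ℝ} (H : Hol σ) (g : ℝ ≃o ℝ) (hg : ∀ t, g (t + 1) = g t + 1)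
    (hg0 : g 0 = 0) : ∃ H' : Hol σ, (∀ t, H'.A t = g (H.A (g.symm t))) ∧
      ∀ t, H'.B t = g (H.B (g.symm t)) := by
  have hgk : ∀ (k : ℤ), g k = k := by
    intro k
    have h := OneC_shift (fun x => g x) 1 1 hg k 0
    simpa [hg0] using h
  have hs : ∀ t, g.symm (t + 1) = g.symm t + 1 := by
    intro t
    rw [OrderIso.symm_apply_eq, hg, OrderIso.apply_symm_apply]
  have hs4 : ∀ t, g.symm (t + 4) = g.symm t + 4 := by
    intro t
    rw [show t + 4 = t + 1 + 1 + 1 + 1 by ring, hs, hs, hs, hs]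
    ring
  have hg4 : ∀ t, g (t + 4) = g t + 4 := by
    intro t
    rw [show t + 4 = t + 1 + 1 + 1 + 1 by ring, hg, hg, hg, hg]
    ring
  have hsk : ∀ (k : ℤ), g.symm k = k := by
    intro k
    rw [OrderIso.symm_apply_eq, hgk]
  refine ⟨⟨(g.symm.trans H.A).trans g, (g.symm.trans H.B).trans g, fun t => H.th (g.symm t),
    H.mono.comp g.symm.strictMono, H.cont.comp g.symm.continuous, ?_, ?_, ?_, ?_, ?_, ?_⟩,
    fun t => rfl, fun t => rfl⟩
  · intro t
    show g (H.A (g.symm (t + 4))) = g (H.A (g.symm t)) + 4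
    rw [hs4, H.A4, hg4]
  · intro t
    show g (H.B (g.symm (t + 4))) = g (H.B (g.symm t)) + 4
    rw [hs4, H.B4, hg4]
  · intro t
    rw [hs4, H.th4]
  · intro m
    show g (H.A (g.symm (2 * m))) = 2 * m
    have h1 := hsk (2 * m)
    have h2 := hgk (2 * m)
    push_cast at h1 h2
    rw [h1, H.Afix, h2]
  · intro m
    show g (H.B (g.symm (2 * m + 1))) = 2 * m + 1
    have h1 := hsk (2 * m + 1)
    have h2 := hgk (2 * m + 1)
    push_cast at h1 h2
    rw [h1, H.Bfix, h2]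
  · intro t
    have sA : ∀ y, ((g.symm.trans H.A).trans g).symm y = g (H.A.symm (g.symm y)) := fun y => rfl
    have sB : ∀ y, ((g.symm.trans H.B).trans g).symm y = g (H.B.symm (g.symm y)) := fun y => rfl
    have aA : ∀ y, ((g.symm.trans H.A).trans g) y = g (H.A (g.symm y)) := fun y => rfl
    have aB : ∀ y, ((g.symm.trans H.B).trans g) y = g (H.B (g.symm y)) := fun y => rfl
    rw [sA, sB, aA, aB]
    simp only [OrderIso.symm_apply_apply]
    exact H.rot _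

theorem lin_conj {A B g : ℝ ≃o ℝ} {c l s ε : ℝ} (h : LinTwo A c l) (hs : 0 < s) (hε : 0 < ε)
    (hg : ∀ t ∈ Icc (c - ε) (c + ε), g t = g c + s * (t - c))
    (hB : ∀ t, B t = g (A (g.symm t))) : LinTwo B (g c) l := by
  obtain ⟨hl, ε₁, hε₁, h1⟩ := h
  refine ⟨hl, s * min (min ε ε₁) (ε / l), by positivity, fun t ht => ?_⟩
  obtain ⟨m1, m2, m3, m0⟩ : min (min ε ε₁) (ε / l) ≤ ε ∧ min (min ε ε₁) (ε / l) ≤ ε₁ ∧
      l * min (min ε ε₁) (ε / l) ≤ ε ∧ 0 < min (min ε ε₁) (ε / l) := by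
    refine ⟨(min_le_left _ _).trans (min_le_left _ _), (min_le_left _ _).trans (min_le_right _ _),
      ?_, by positivity⟩
    have := min_le_right (min ε ε₁) (ε / l)
    rw [le_div_iff₀ hl] at this
    linarith
  set δ := min (min ε ε₁) (ε / l) with hδ
  obtain ⟨v, hv⟩ : ∃ v, v = (t - g c) / s := ⟨_, rfl⟩
  have hv' : t = g c + s * v := by
    rw [hv]
    field_simp
    ring
  have hv1 : v ≤ δ := by
    have : s * v ≤ s * δ := by linarith [ht.2]
    exact le_of_mul_le_mul_left this hs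
  have hv2 : -δ ≤ v := by
    have : s * (-δ) ≤ s * v := by linarith [ht.1]
    exact le_of_mul_le_mul_left this hs
  have e1 : g.symm t = c + v := by
    rw [OrderIso.symm_apply_eq, hg _ ⟨by linarith, by linarith⟩, hv']
    ring
  rw [hB, e1, h1 _ ⟨by linarith, by linarith⟩]
  have k1 : l * v ≤ l * δ := mul_le_mul_of_nonneg_left hv1 hl.le
  have k2 : l * (-δ) ≤ l * v := mul_le_mul_of_nonneg_left hv2 hl.le
  rw [add_sub_cancel_left, hg _ ⟨by linarith, by linarith⟩, hv']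
  ring

/-- the change of time: all times in `[m + η, m + 1]` are moved to `[m + 7/8, m + 1]` -/
theorem exists_g (η : ℝ) (h0 : 0 < η) (h1 : η < 1) : ∃ (g : ℝ ≃o ℝ) (s : ℝ), 0 < s ∧
    (∀ t, g (t + 1) = g t + 1) ∧ g 0 = 0 ∧ s * (1 - η) = 1 / 8 ∧
    ∀ (m : ℤ) (t : ℝ), m + η ≤ t → t ≤ m + 1 → g t = m + 7 / 8 + s * (t - m - η) := by
  obtain ⟨a1, ha1⟩ := exists_affine 0 0 (7 / 8 / η) (by positivity)
  obtain ⟨a2, ha2⟩ := exists_affine (2 * η) (7 / 4) (1 / 8 / (1 - η))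
    (div_pos (by norm_num) (by linarith))
  have hη : 1 - η ≠ 0 := by linarith
  obtain ⟨e, he1, he2⟩ := exists_glue a1 a2 (2 * η) (by
    rw [ha1, ha2]
    field_simp
    ring)
  have e0 : e 0 = 0 := by
    rw [he1 0 (by linarith), ha1]
    ring
  have e2 : e 2 = 2 := by
    rw [he2 2 (by linarith), ha2]
    field_simp
    ring
  obtain ⟨A, hA⟩ := exists_blockIso (fun m : ℤ => OneA_conj e (2 * m))
    (fun m => by rw [OneA_conj_apply, sub_self, e0, zero_add])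
    (fun m => by rw [OneA_conj_apply, add_sub_cancel_left, e2, add_comm])
  let dbl : ℝ ≃o ℝ := OrderIso.mulRight₀ 2 (by norm_num)
  have hd : ∀ t, dbl t = t * 2 := fun t => rfl
  have hds : ∀ t, dbl.symm t = t / 2 := by
    intro t
    rw [OrderIso.symm_apply_eq, hd]
    ring
  have hg : ∀ (m : ℤ) (t : ℝ), m ≤ t → t ≤ m + 1 →
      ((dbl.trans A).trans dbl.symm) t = m + e (2 * (t - m)) / 2 := by
    intro m t h2 h3
    show dbl.symm (A (dbl t)) = _
    rw [hds, hd, hA m _ ⟨by linarith, by linarith⟩, OneA_conj_apply,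
      show t * 2 - 2 * (m : ℝ) = 2 * (t - m) by ring]
    ring
  refine ⟨(dbl.trans A).trans dbl.symm, 1 / 8 / (1 - η), div_pos (by norm_num) (by linarith),
    fun t => ?_, ?_, ?_, fun m t h2 h3 => ?_⟩
  · have f1 := Int.floor_le t
    have f2 := Int.lt_floor_add_one t
    have g1 := hg ⌊t⌋ t f1 f2.le
    have g2 := hg (⌊t⌋ + 1) (t + 1) (by push_cast; linarith) (by push_cast; linarith)
    rw [g1, g2]
    push_cast
    rw [show t + 1 - ((⌊t⌋ : ℝ) + 1) = t - ⌊t⌋ by ring]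
    ring
  · have g1 := hg 0 0 (by simp) (by simp)
    simpa [e0] using g1
  · field_simp
  · rw [hg m t (by linarith) h3, he2 _ (by linarith), ha2]
    ring

/-- **the data**: for every type (`false` for `a`, `true` for `b`) and every integer `i` there is
a time `c i t` in `(i + 3/4, i + 1)` which is fixed by all isomorphisms of the type, with linear
germs of prescribed slopes -/
theorem exists_data {K : Type*} [Finite K] (σ l : K → ℝ) (hσ : ∀ k, |σ k| < 1)
    (hl : ∀ k, 0 < l k) : ∃ (H : ∀ k, Hol (σ k)) (c : ℤ → Bool → ℝ),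
      (∀ i t, i + 3 / 4 < c i t ∧ c i t < i + 1) ∧
      ∀ i t k, LinTwo (iso H (t, k)) (c i t) (l k) := by
  obtain ⟨a, b, a1, a2, b1, b2, H, hH⟩ := exists_hols_germs σ l hσ hl
  obtain ⟨η, hη, hηa, hηb⟩ : ∃ η > 0, η < a ∧ η < b := by
    refine ⟨min a b / 2, by positivity, ?_, ?_⟩
    · have := min_le_left a b
      linarith [lt_min a1 b1]
    · have := min_le_right a b
      linarith [lt_min a1 b1]
  obtain ⟨g, s, hs, g1, g0, hs1, hg⟩ := exists_g η hη (by linarith)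
  choose H' hA' hB' using fun k => exists_conj (H k) g g1 g0
  let γ : ℤ → Bool → ℝ := fun i t =>
    if t = false then (if Even i then a else 1 - a) else (if Even i then 1 - b else b)
  have hγ : ∀ i t, η < γ i t ∧ γ i t < 1 := by
    intro i t
    simp only [γ]
    split_ifs <;> constructor <;> linarith
  have hgc : ∀ i t, g (i + γ i t) = i + 7 / 8 + s * (γ i t - η) := by
    intro i t
    rw [hg i _ (by linarith [(hγ i t).1]) (by linarith [(hγ i t).2])]
    ring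
  have hlin : ∀ i t k, LinTwo (iso H (t, k)) (i + γ i t) (l k) := by
    intro i t k
    obtain ⟨h1, h2⟩ := hH k
    simp only [γ]
    rcases Int.even_or_odd' i with ⟨m, hm | hm⟩
    · have hev : Even i := ⟨m, by omega⟩
      have e : (i : ℝ) = 2 * m := by rw [hm]; push_cast; ring
      cases t
      · rw [if_pos rfl, if_pos hev, e]
        exact (h1 m).1
      · rw [if_neg (by simp), if_pos hev, e, show 2 * (m : ℝ) + (1 - b) = 2 * m + 1 - b by ring]
        exact (h2 m).2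
    · have hev : ¬ Even i := by rw [Int.not_even_iff_odd]; exact ⟨m, hm⟩
      have e : (i : ℝ) = 2 * m + 1 := by rw [hm]; push_cast; ring
      cases t
      · rw [if_pos rfl, if_neg hev, e]
        have h3 := (h1 (m + 1)).2
        push_cast at h3
        rwa [show 2 * (m : ℝ) + 1 + (1 - a) = 2 * (m + 1) - a by ring]
      · rw [if_neg (by simp), if_neg hev, e]
        exact (h2 m).1
  refine ⟨H', fun i t => g (i + γ i t), fun i t => ?_, fun i t k => ?_⟩
  · have h1 := (hγ i t).1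
    have h2 := (hγ i t).2
    show (i : ℝ) + 3 / 4 < g (i + γ i t) ∧ g (i + γ i t) < i + 1
    rw [hgc]
    constructor
    · have : 0 < s * (γ i t - η) := mul_pos hs (by linarith)
      linarith
    · have : s * (γ i t - η) < s * (1 - η) := mul_lt_mul_of_pos_left (by linarith) hs
      linarith
  · have h1 := (hγ i t).1
    have h2 := (hγ i t).2
    refine lin_conj (g := g) (s := s) (ε := min (γ i t - η) (1 - γ i t)) (hlin i t k) hs
      (lt_min (by linarith) (by linarith)) (fun x hx => ?_) (fun x => ?_)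
    · have m1 := min_le_left (γ i t - η) (1 - γ i t)
      have m2 := min_le_right (γ i t - η) (1 - γ i t)
      rw [hgc, hg i x (by linarith [hx.1]) (by linarith [hx.2])]
      ring
    · cases t
      · exact hA' k x
      · exact hB' k x

end Pool.Agent.H.MP_1611f1_gt.LG
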