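import Pool.Agent.H.MP_1611f1_gt.LG.Lev
import Pool.Agent.H.MP_1611f1_gt.LG.OneH

/-!
Level curves between two integer times, crossing only strips of one type, in the mapping tori of
this folder, and their holonomy.
-/

namespace Pool.Agent.H.MP_1611f1_gt.LG

open Topology Set Filter
open Pool.Agent.H.MP_1611f1_gt.G Pool.Agent.H.MP_1611f1_gt.LS

variable {S : Type*} [TopologicalSpace S] {J K : Type*} {E : Surf S J} {col : J → K} {L : J → ℕ}
  {phi : S ≃ₜ S} {n : ℕ}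

/-- a level curve `ν` between the times `i` and `i + 1`, crossing only strips of the type `t` -/
structure LCw (A : Arcs E col L) (C : Chain A n phi) where
  i : ℤ
  t : Bool
  ν : AddCircle (1 : ℝ) × ℝ → S
  emb : IsOpenEmbedding ν
  out : ∀ z j w, ν z ≠ E.collar j w
  other : ∀ k z, kap A (!t, k) (C.ψ i (ν z)) = 0
  f : K → ℝ → ℝ
  f_cont : ∀ k, Continuous (f k)
  deg : K → ℤ
  f_add : ∀ k θ, f k (θ + 1) = f k θ + deg k
  cross : ∀ k (θ u : ℝ), kap A (t, k) (C.ψ i (ν ((θ : AddCircle (1 : ℝ)), u))) =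
    ((f k θ : ℝ) : AddCircle (1 : ℝ))

variable {Y : Type*} [TopologicalSpace Y] {A : Arcs E col L} {C : Chain A n phi}

/-- the position function: `1 + x` for `x ≤ - 1/4`, and `c` at `x = 0` -/
theorem exists_pos (c : ℝ) (h1 : 3 / 4 < c) (h2 : c < 1) : ∃ P : ℝ ≃o ℝ,
    (∀ x ≤ -(1 / 4), P x = 1 + x) ∧ P 0 = c ∧ P (1 / 8) = 1 := by
  obtain ⟨a1, b1⟩ := exists_affine 0 1 1 one_pos
  obtain ⟨a2, b2⟩ := exists_affine 0 c (4 * (c - 3 / 4)) (by linarith)
  obtain ⟨a3, b3⟩ := exists_affine 0 c (8 * (1 - c)) (by linarith)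
  obtain ⟨e1, c1, d1⟩ := exists_glue a1 a2 (-(1 / 4)) (by rw [b1, b2]; ring)
  obtain ⟨e2, c2, d2⟩ := exists_glue e1 a3 0 (by rw [d1 _ (by norm_num), b2, b3]; ring)
  refine ⟨e2, fun x hx => ?_, ?_, ?_⟩
  · rw [c2 x (by linarith), c1 x hx, b1]
    ring
  · rw [d2 0 le_rfl, b3]
    ring
  · rw [d2 _ (by norm_num), b3]
    ring

/-- the neighbourhood of the level curve, with the leaf at the time `i + P 0` -/
noncomputable def LCw.nbh (lc : LCw A C) (Fl : B.MTB E phi Y) (P : ℝ ≃o ℝ) (z : Cyl) : Y :=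
  B.PP Fl n (lc.ν (z.1, z.2.1), lc.i + P (tim z.2.2))

theorem lcw_tim {P : ℝ ≃o ℝ} (hP : ∀ x ≤ -(1 / 4), P x = 1 + x) (hP1 : P (1 / 8) = 1) (s : ℝ) :
    P (tim s) ∈ Ioo (0 : ℝ) 1 := by
  have h := tim_mem s
  constructor
  · have h1 := P.strictMono h.1
    rw [hP _ (by norm_num)] at h1
    linarith
  · have h1 := P.strictMono h.2
    rwa [hP1] at h1

theorem lcw_emb (hn : 0 < n) (lc : LCw A C) (Fl : B.MTB E phi Y) {P : ℝ ≃o ℝ}
    (hP : ∀ x ≤ -(1 / 4), P x = 1 + x) (hP1 : P (1 / 8) = 1) :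
    IsOpenEmbedding (lc.nbh Fl P) := by
  have ht : ∀ s : ℝ, (lc.i : ℝ) + P (tim s) ∈ Ioo ((lc.i : ℝ) - 1) (lc.i + 1) := by
    intro s
    have := lcw_tim hP hP1 s
    constructor <;> linarith [this.1, this.2]
  let G : Cyl → S × ℝ := (Prod.map lc.ν (fun s : ℝ => (lc.i : ℝ) + P (tim s))) ∘
    (Homeomorph.prodAssoc (AddCircle (1 : ℝ)) ℝ ℝ).symm
  have hG : lc.nbh Fl P = B.PP Fl n ∘ G := rfl
  have hGo : IsOpenMap G := by
    have h1 : IsOpenMap (fun s : ℝ => (lc.i : ℝ) + P (tim s)) :=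
      (Homeomorph.addLeft (lc.i : ℝ)).isOpenMap.comp (P.toHomeomorph.isOpenMap.comp tim_open)
    exact (lc.emb.isOpenMap.prodMap h1).comp (Homeomorph.isOpenMap _)
  have hGc : Continuous G := by
    have h1 : Continuous (fun s : ℝ => (lc.i : ℝ) + P (tim s)) :=
      continuous_const.add (P.continuous.comp tim_cont)
    exact (lc.emb.continuous.prodMap h1).comp (Homeomorph.continuous _)
  apply IsOpenEmbedding.of_continuous_injective_isOpenMap
  · rw [hG]
    exact (B.PP_cont Fl hn).comp hGc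
  · intro z w h
    have hinj := B.PP_inj Fl hn (univ : Set S) (c := (lc.i : ℝ) - 1) (d := lc.i + 1) (by linarith)
    have h2 : ((lc.ν (z.1, z.2.1), lc.i + P (tim z.2.2)) : S × ℝ) =
      (lc.ν (w.1, w.2.1), lc.i + P (tim w.2.2)) :=
      hinj ⟨mem_univ _, ht _⟩ ⟨mem_univ _, ht _⟩ h
    rw [Prod.mk.injEq] at h2
    have h3 := lc.emb.injective h2.1
    rw [Prod.mk.injEq] at h3
    have h4 : z.2.2 = w.2.2 := tim_mono.injective (P.injective (add_left_cancel h2.2))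
    exact Prod.ext h3.1 (Prod.ext h3.2 h4)
  · rw [hG]
    exact (B.PP_open Fl hn).comp hGo

theorem lcw_disj (hn : 0 < n) (Fl : B.MTB E phi Y) {Λ : Type*}
    (lc : Λ → LCw A C) (hi : ∀ k, 0 ≤ (lc k).i ∧ (lc k).i < 4 * n)
    (P : Λ → (ℝ ≃o ℝ)) (hP : ∀ k, ∀ x ≤ -(1 / 4), P k x = 1 + x) (hP1 : ∀ k, P k (1 / 8) = 1)
    (hd : ∀ k l z w, (lc k).i = (lc l).i → (lc k).ν z = (lc l).ν w → k = l) :
    ∀ k l z w, (lc k).nbh Fl (P k) z = (lc l).nbh Fl (P l) w → k = l := by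
  intro k l z w h
  obtain ⟨m, h1, h2⟩ := (B.PP_eq Fl hn _ _ _ _).1 h
  have a1 := lcw_tim (hP k) (hP1 k) z.2.2
  have a2 := lcw_tim (hP l) (hP1 l) w.2.2
  rw [mem_Ioo] at a1 a2
  have b1 : (0 : ℝ) ≤ (lc k).i := by exact_mod_cast (hi k).1
  have b2 : (0 : ℝ) ≤ (lc l).i := by exact_mod_cast (hi l).1
  have c1 : ((lc k).i : ℝ) + 1 ≤ 4 * n := by exact_mod_cast (hi k).2
  have c2 : ((lc l).i : ℝ) + 1 ≤ 4 * n := by exact_mod_cast (hi l).2
  have hn1 : (1 : ℝ) ≤ n := by exact_mod_cast hn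
  have hm : m = 0 := by
    rcases lt_trichotomy m 0 with h3 | h3 | h3
    · have h4 : (m : ℝ) ≤ -1 := by exact_mod_cast (by omega : m ≤ -1)
      have h5 : 4 * (n : ℝ) * m ≤ 4 * n * (-1) := mul_le_mul_of_nonneg_left h4 (by positivity)
      linarith [a1.1, a1.2, a2.1, a2.2]
    · exact h3
    · have h4 : (1 : ℝ) ≤ m := by exact_mod_cast h3
      have h5 : 4 * (n : ℝ) * 1 ≤ 4 * n * m := mul_le_mul_of_nonneg_left h4 (by positivity)
      linarith [a1.1, a1.2, a2.1, a2.2]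
  subst hm
  rw [Int.cast_zero, mul_zero, add_zero] at h1
  have h3 : (lc k).i = (lc l).i := by
    have d1 : ((lc l).i : ℝ) < (lc k).i + 1 := by linarith [a1.1, a1.2, a2.1, a2.2]
    have d2 : ((lc k).i : ℝ) < (lc l).i + 1 := by linarith [a1.1, a1.2, a2.1, a2.2]
    have e1 : (lc l).i < (lc k).i + 1 := by exact_mod_cast d1
    have e2 : (lc k).i < (lc l).i + 1 := by exact_mod_cast d2
    omega
  exact hd k l _ _ h3 h2

variable {σ : K → ℝ} (H : ∀ k, Hol (σ k))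

theorem lcw_cont (lc : LCw A C) :
    Continuous (fun w : Cov => lc.ν ((w.1 : AddCircle (1 : ℝ)), w.2.1)) :=
  lc.emb.continuous.comp
    (((AddCircle.continuous_mk' (1 : ℝ)).comp continuous_fst).prodMk
      (continuous_fst.comp continuous_snd))

/-- the charts of type I near the annulus -/
theorem lcw_chart [Finite J] [Finite K] (hn : 0 < n) (lc : LCw A C)
    (Fl : B.MTB E phi Y) {F : Foliation Y} (hF : F.charts = B.AllCharts Fl A H C)
    {P : ℝ ≃o ℝ} (hP : ∀ x ≤ -(1 / 4), P x = 1 + x) (hP1 : P (1 / 8) = 1)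
    (z : Cov) : ∃ c ∈ F.charts, rc (lc.nbh Fl P) z ∈ c.source ∧
      ∃ a b, Adm lc.i a b ∧ (b = none ∨ ∃ k, b = some (lc.t, k)) ∧
        C.ψ lc.i (lc.ν ((z.1 : AddCircle (1 : ℝ)), z.2.1)) ∈ VV A b ∧
        ∀ᶠ w : Cov in 𝓝 z, lc.ν ((w.1 : AddCircle (1 : ℝ)), w.2.1) ∈ DD A C lc.i a b ∧
          (c (rc (lc.nbh Fl P) w)).2 =
            Fs A H C lc.i a b (lc.ν ((w.1 : AddCircle (1 : ℝ)), w.2.1))
              (lc.i + P (tim w.2.2)) := by
  have hout : lc.ν ((z.1 : AddCircle (1 : ℝ)), z.2.1) ∈ B.Out E := fun j w hw =>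
    absurd hw (lc.out _ j w)
  obtain ⟨a, b, hab, hD⟩ := DD_cover A C lc.i (lc.ν ((z.1 : AddCircle (1 : ℝ)), z.2.1))
  have hb : b = none ∨ ∃ k, b = some (lc.t, k) := by
    rcases b with _ | ⟨t', k⟩
    · exact Or.inl rfl
    · right
      by_cases ht : t' = lc.t
      · exact ⟨k, by rw [ht]⟩
      · have h1 : kap A (t', k) (C.ψ lc.i (lc.ν ((z.1 : AddCircle (1 : ℝ)), z.2.1))) ≠ 0 := hD.2
        have ht' : t' = !lc.t := by
          cases t' <;> cases h : lc.t <;> simp_all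
        rw [ht'] at h1
        exact absurd (lc.other k _) h1
  obtain ⟨ξ, hξ⟩ := E.flat (lc.ν ((z.1 : AddCircle (1 : ℝ)), z.2.1))
  obtain ⟨c, hc1, hc2, hc3⟩ := B.exI Fl A H C hn lc.i a b hab ξ
  have htim : ∀ s : ℝ, (lc.i : ℝ) + P (tim s) ∈ Ioo ((lc.i : ℝ) - 1) (lc.i + 1) := by
    intro s
    have h := lcw_tim hP hP1 s
    exact ⟨by linarith [h.1], by linarith [h.2]⟩
  have hU : IsOpen (ξ.source ∩ B.Out E ∩ DD A C lc.i a b) :=
    (ξ.open_source.inter B.Out_open).inter (DD_open A C lc.i a b)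
  refine ⟨c, ?_, ?_, a, b, hab, hb, hD.2, ?_⟩
  · rw [hF]
    exact Or.inl hc1
  · rw [hc2]
    exact ⟨(lc.ν ((z.1 : AddCircle (1 : ℝ)), z.2.1), lc.i + P (tim z.2.2)),
      ⟨⟨⟨hξ, hout⟩, hD⟩, htim _⟩, rfl⟩
  · have hev := (lcw_cont lc).continuousAt.eventually
      (hU.mem_nhds (show lc.ν ((z.1 : AddCircle (1 : ℝ)), z.2.1) ∈
        ξ.source ∩ B.Out E ∩ DD A C lc.i a b from ⟨⟨hξ, hout⟩, hD⟩))
    filter_upwards [hev] with w hw
    exact ⟨hw.2, hc3 (lc.ν ((w.1 : AddCircle (1 : ℝ)), w.2.1), lc.i + P (tim w.2.2))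
      ⟨hw, htim _⟩⟩

/-- the transverse function, in terms of `wnd` -/
theorem lcw_side [Fintype K] {t : Bool} {c ε : ℝ} {l : K → ℝ} (hl : ∀ k, 0 < l k)
    (hlin : ∀ k, ∀ s ∈ Icc (c - ε) (c + ε), (iso H (t, k)).symm s = c + (s - c) / l k)
    {f : K → ℝ → ℝ} (hf : ∀ k, Continuous (f k)) {g : Cov → S}
    (hg : ∀ k w, kap A (t, k) (g w) = ((f k w.1 : ℝ) : AddCircle (1 : ℝ)))
    {b : Option (Bool × K)} (hb : b = none ∨ ∃ k, b = some (t, k)) {z : Cov}
    (hz : g z ∈ VV A b) :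
    ∃ m : ℝ, ∀ᶠ w : Cov in 𝓝 z, ∀ s ∈ Icc (c - ε) (c + ε),
      Fa A H b (g w) s = c + (s - c) * Real.exp (-(∑ k, wnd (l k) (f k w.1) - m)) := by
  classical
  have hf' : ∀ k, Continuous (fun w : Cov => f k w.1) := fun k => (hf k).comp continuous_fst
  have hnear : ∀ k, ‖kap A (t, k) (g z)‖ < 1 / 4 → ∀ᶠ w : Cov in 𝓝 z,
      wnd (l k) (f k w.1) = round (f k z.1) * Real.log (l k) := by
    intro k h1
    rw [hg, UnitAddCircle.norm_eq] at h1
    have h2 : ∀ᶠ w : Cov in 𝓝 z, |f k w.1 - round (f k z.1)| < 1 / 4 := by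
      have hc : Continuous (fun w : Cov => |f k w.1 - round (f k z.1)|) :=
        ((hf' k).sub continuous_const).abs
      exact hc.continuousAt.eventually (isOpen_Iio.mem_nhds h1)
    filter_upwards [h2] with w hw2
    exact wnd_near (hl k) (round (f k z.1)) hw2
  rcases hb with rfl | ⟨k₀, rfl⟩
  · refine ⟨∑ k, round (f k z.1) * Real.log (l k), ?_⟩
    have h2 : ∀ᶠ w : Cov in 𝓝 z, ∀ k,
        wnd (l k) (f k w.1) = round (f k z.1) * Real.log (l k) :=
      eventually_all.2 fun k => hnear k (hz (t, k))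
    filter_upwards [h2] with w hw2
    intro s hs
    rw [Finset.sum_congr rfl fun k _ => hw2 k, sub_self, neg_zero, Real.exp_zero, mul_one]
    show s = _
    ring
  · have h1 : kap A (t, k₀) (g z) ≠ 0 := hz
    have h1' : ∀ k, k ≠ k₀ → ‖kap A (t, k) (g z)‖ < 1 / 4 := by
      intro k hk
      rcases kap_disj A (show (t, k) ≠ (t, k₀) from fun he => hk (by
        simpa using he)) (g z) with h2 | h2
      · rw [h2, norm_zero]
        norm_num
      · exact absurd h2 h1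
    rw [hg] at h1
    have h2 : Int.fract (f k₀ z.1) ≠ 0 := by
      intro h0
      apply h1
      have h3 := coe_lft ((f k₀ z.1 : ℝ) : AddCircle (1 : ℝ))
      rw [LvD_lft, h0] at h3
      rw [← h3]
      rfl
    have h3 : 0 < Int.fract (f k₀ z.1) := lt_of_le_of_ne (Int.fract_nonneg _) (Ne.symm h2)
    refine ⟨∑ k, (if k = k₀ then (⌊f k₀ z.1⌋ : ℝ) else round (f k z.1)) * Real.log (l k), ?_⟩
    have h4 : ∀ᶠ w : Cov in 𝓝 z, f k₀ w.1 ∈ Ioo (⌊f k₀ z.1⌋ : ℝ) (⌊f k₀ z.1⌋ + 1) := by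
      refine (hf' k₀).continuousAt.eventually (isOpen_Ioo.mem_nhds ⟨?_, Int.lt_floor_add_one _⟩)
      have h5 := Int.floor_add_fract (f k₀ z.1)
      linarith
    have h5 : ∀ᶠ w : Cov in 𝓝 z, ∀ k, k ≠ k₀ →
        wnd (l k) (f k w.1) = round (f k z.1) * Real.log (l k) := by
      refine eventually_all.2 fun k => ?_
      by_cases hk : k = k₀
      · exact Eventually.of_forall fun w h => absurd hk h
      · exact (hnear k (h1' k hk)).mono fun w hw _ => hw
    filter_upwards [h4, h5] with w hw4 hw5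
    intro s hs
    have hfl : ⌊f k₀ w.1⌋ = ⌊f k₀ z.1⌋ := Int.floor_eq_iff.2 ⟨hw4.1.le, hw4.2⟩
    have hpos : 0 < (1 - chi (Int.fract (f k₀ w.1))) + chi (Int.fract (f k₀ w.1)) / l k₀ := by
      have c0 := chi_nonneg (Int.fract (f k₀ w.1))
      have c1 := chi_le_one (Int.fract (f k₀ w.1))
      rcases c1.lt_or_eq with hc | hc
      · have : 0 ≤ chi (Int.fract (f k₀ w.1)) / l k₀ := div_nonneg c0 (hl k₀).le
        linarith
      · rw [hc]
        have : 0 < 1 / l k₀ := one_div_pos.2 (hl k₀)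
        linarith
    have hsum : ∑ k, wnd (l k) (f k w.1) -
        ∑ k, (if k = k₀ then (⌊f k₀ z.1⌋ : ℝ) else round (f k z.1)) * Real.log (l k) =
        wnd (l k₀) (f k₀ w.1) - ⌊f k₀ z.1⌋ * Real.log (l k₀) := by
      rw [← Finset.sum_sub_distrib, Finset.sum_eq_single k₀]
      · rw [if_pos rfl]
      · intro k _ hk
        rw [if_neg hk, hw5 k hk, sub_self]
      · intro h
        exact absurd (Finset.mem_univ _) h
    rw [hsum]
    show Fe (iso H (t, k₀)) (lft (kap A (t, k₀) (g w))) s = _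
    rw [hg, LvD_lft]
    unfold Fe wnd
    rw [hlin k₀ _ hs, hfl]
    have he : -((⌊f k₀ z.1⌋ : ℝ) * Real.log (l k₀) - Real.log ((1 - chi (Int.fract (f k₀ w.1))) +
        chi (Int.fract (f k₀ w.1)) / l k₀) - ⌊f k₀ z.1⌋ * Real.log (l k₀)) =
        Real.log ((1 - chi (Int.fract (f k₀ w.1))) + chi (Int.fract (f k₀ w.1)) / l k₀) := by
      ring
    rw [he, Real.exp_log hpos]
    ring

/-- a common size of the linear germs -/
theorem lcw_germs [Finite K] {t : Bool} {c : ℝ} {l : K → ℝ}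
    (hl : ∀ k, LinTwo (iso H (t, k)) c (l k)) : ∃ ε > 0, ∀ k, ∀ s ∈ Icc (c - ε) (c + ε),
      (iso H (t, k)).symm s = c + (s - c) / l k := by
  choose hli ε hε hlin using fun k => Two_symm (hl k)
  obtain ⟨e, e1, -, e3⟩ := exists_small ε hε
  refine ⟨e, e1, fun k s hs => ?_⟩
  rw [hlin k s ⟨by linarith [hs.1, e3 k], by linarith [hs.2, e3 k]⟩]
  ring

/-- **Level curves have linear holonomy.** So every non-zero real number is possible at the new
end, with both signs. -/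
theorem lcw_hol [Finite J] [Fintype K] (hn : 0 < n) (lc : LCw A C)
    (Fl : B.MTB E phi Y) {F : Foliation Y} (hF : F.charts = B.AllCharts Fl A H C)
    {P : ℝ ≃o ℝ} (hP : ∀ x ≤ -(1 / 4), P x = 1 + x) (hP1 : P (1 / 8) = 1) (hP0 : 0 < P 0)
    {l : K → ℝ} (hl : ∀ k, LinTwo (iso H (lc.t, k)) (lc.i + P 0) (l k))
    (hdeg : ∑ k, lc.deg k * Real.log (l k) ≠ 0) {x : ℝ} (hx : x ≠ 0) :
    HolSgn F (lc.nbh Fl P) x := by
  obtain ⟨ε, hε, hlin⟩ := lcw_germs H hl
  have hl0 : ∀ k, 0 < l k := fun k => (hl k).1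
  have hemb : IsOpenEmbedding (lc.nbh Fl P) := lcw_emb hn lc Fl hP hP1
  have htim0 : tim 0 = 0 := by
    rw [tim_mid (by norm_num) le_rfl, zero_div]
  obtain ⟨δ, hδ, hδP⟩ : ∃ δ > 0, ∀ s, |s| < δ →
      |P (tim s) - P 0| < min ε (P 0) := by
    have hc : Continuous fun s => P (tim s) := P.continuous.comp tim_cont
    have hc0 : ContinuousAt (fun s => P (tim s)) 0 := hc.continuousAt
    obtain ⟨δ, hδ, h⟩ := Metric.continuousAt_iff.1 hc0 (min ε (P 0)) (lt_min hε hP0)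
    refine ⟨δ, hδ, fun s hs => ?_⟩
    have h1 := h (show dist s 0 < δ by rw [Real.dist_eq, sub_zero]; exact hs)
    rwa [Real.dist_eq, htim0] at h1
  set W : ℝ → ℝ := fun y => ∑ k, wnd (l k) (lc.f k y) with hW
  have hWc : Continuous W := by
    rw [hW]
    exact continuous_finsetSum _ fun k _ => (wnd_cont (hl0 k)).comp (lc.f_cont k)
  have hWadd : ∀ y, W (y + 1) = W y + ∑ k, lc.deg k * Real.log (l k) := by
    intro y
    simp only [hW]
    rw [← Finset.sum_add_distrib]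
    refine Finset.sum_congr rfl fun k _ => ?_
    rw [lc.f_add, wnd_add]
  set D : ℝ := ∑ k, lc.deg k * Real.log (l k) with hD
  set cc : ℝ := Real.exp (-D) with hcc
  have hcc0 : 0 < cc := Real.exp_pos _
  have hcc1 : cc ≠ 1 := by
    intro h
    rw [hcc, Real.exp_eq_one_iff, neg_eq_zero] at h
    exact hdeg h
  refine ⟨hemb, δ, fun p => (P (tim p.2) - P 0) * Real.exp (-W p.1),
    OrderIso.mulRight₀ cc hcc0, ⟨hδ, ?_, ?_, ?_, ?_, ?_⟩, ?_⟩
  · refine Continuous.continuousOn ?_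
    refine Continuous.mul ?_ (Real.continuous_exp.comp (hWc.comp continuous_fst).neg)
    exact (P.continuous.comp (tim_cont.comp continuous_snd)).sub continuous_const
  · intro θ a ha b hb hab
    exact mul_lt_mul_of_pos_right (sub_lt_sub_right (P.strictMono (tim_mono hab)) _)
      (Real.exp_pos _)
  · intro θ
    show (P (tim 0) - P 0) * _ = 0
    rw [htim0, sub_self, zero_mul]
  · intro θ s _
    show (P (tim s) - P 0) * Real.exp (-W (θ + 1)) = (P (tim s) - P 0) * Real.exp (-W θ) * cc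
    rw [hWadd, hcc, mul_assoc, ← Real.exp_add]
    congr 2
    ring
  · intro z hz c₁ hc₁ hs₁
    obtain ⟨c, hc, hs, a, b, hab, hb, hDz, hev⟩ := lcw_chart H hn lc Fl hF hP hP1 z
    have hz3 : |P (tim z.2.2) - P 0| < min ε (P 0) := hδP _ (abs_lt.2 hz)
    obtain ⟨m, hm⟩ := lcw_side H hl0 hlin lc.f_cont
      (g := fun w => C.ψ lc.i (lc.ν ((w.1 : AddCircle (1 : ℝ)), w.2.1)))
      (fun k w => lc.cross k _ _) hb (z := z) hDz
    have h1 : OrdEq (rc (lc.nbh Fl P) z) (fun y => (c₁ y).2) (fun y => (c y).2) :=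
      F.compat c₁ hc₁ c hc _ hs₁ hs
    have h2 : OrdEq z (fun w => (c₁ (rc (lc.nbh Fl P) w)).2)
        (fun w => (c (rc (lc.nbh Fl P) w)).2) :=
      OrdEq.comp_cont (R := rc (lc.nbh Fl P)) (rc_cont hemb).continuousAt h1
    refine h2.trans ?_
    have hφ : StrictMono fun x : ℝ => (lc.i : ℝ) + P 0 + x * Real.exp m := by
      intro x y hxy
      have p1 := Real.exp_pos m
      show (lc.i : ℝ) + P 0 + x * Real.exp m < (lc.i : ℝ) + P 0 + y * Real.exp m
      nlinarith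
    refine (OrdEq.of_comp (fun x : ℝ => (lc.i : ℝ) + P 0 + x * Real.exp m)
        (fun x y hxy => hφ hxy) ?_).symm
    have hab' : ∀ᶠ w : Cov in 𝓝 z, |P (tim w.2.2) - P 0| < min ε (P 0) := by
      have hcw : Continuous (fun w : Cov => |P (tim w.2.2) - P 0|) :=
        ((P.continuous.comp (tim_cont.comp (continuous_snd.comp continuous_snd))).sub
          continuous_const).abs
      exact hcw.continuousAt.eventually (isOpen_Iio.mem_nhds hz3)
    filter_upwards [hev, hm, hab'] with w hw1 hwm hw3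
    have hw4 := hw3.trans_le (min_le_left _ _)
    have hw5 := hw3.trans_le (min_le_right _ _)
    rw [abs_lt] at hw4 hw5
    rw [hw1.2, Fs_ge A H C hab hw1.1 (by linarith [hw5.1]),
      hwm _ ⟨by linarith [hw4.1], by linarith [hw4.2]⟩]
    show _ = (lc.i : ℝ) + P 0 + (P (tim w.2.2) - P 0) * Real.exp (-W w.1) * Real.exp m
    rw [mul_assoc, ← Real.exp_add]
    congr 2
    · ring
    · congr 1
      ring
  · intro ε' hε'
    have hx1 : x * (cc - 1) ≠ 0 := mul_ne_zero hx (sub_ne_zero.2 hcc1)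
    rcases lt_or_gt_of_ne hx1 with h | h
    · refine ⟨-(ε' / 2), ?_, ?_⟩
      · rw [abs_neg, abs_of_pos (by linarith)]
        linarith
      · show 0 < x * (-(ε' / 2) * cc - -(ε' / 2))
        have e1 : x * (-(ε' / 2) * cc - -(ε' / 2)) = -(x * (cc - 1)) * (ε' / 2) := by ring
        rw [e1]
        exact mul_pos (by linarith) (by linarith)
    · refine ⟨ε' / 2, ?_, ?_⟩
      · rw [abs_of_pos (by linarith)]
        linarith
      · show 0 < x * (ε' / 2 * cc - ε' / 2)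
        have e1 : x * (ε' / 2 * cc - ε' / 2) = x * (cc - 1) * (ε' / 2) := by ring
        rw [e1]
        exact mul_pos h (by linarith)

/-! ### The slopes -/

/-- slopes such that finitely many curves have non-trivial holonomy -/
theorem exists_slopes {Λ K : Type*} [Finite Λ] [Fintype K] (d : Λ → K → ℤ)
    (hd : ∀ a, ∃ k, d a k ≠ 0) :
    ∃ l : K → ℝ, (∀ k, 0 < l k) ∧ ∀ a, ∑ k, d a k * Real.log (l k) ≠ 0 := by
  classical
  let φ : Λ → ((K → ℝ) →ₗ[ℝ] ℝ) := fun a => ∑ k, (d a k : ℝ) • LinearMap.proj k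
  have hφ : ∀ a v, φ a v = ∑ k, d a k * v k := by
    intro a v
    simp only [φ]
    rw [LinearMap.sum_apply]
    rfl
  have hne : ∀ a, LinearMap.ker (φ a) ≠ ⊤ := by
    intro a h
    obtain ⟨k, hk⟩ := hd a
    have h1 : φ a (Pi.single k 1) = 0 := by
      have : (Pi.single k 1 : K → ℝ) ∈ LinearMap.ker (φ a) := by rw [h]; trivial
      exact this
    rw [hφ, Finset.sum_eq_single k] at h1
    · rw [Pi.single_eq_same, mul_one] at h1
      exact hk (by exact_mod_cast h1)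
    · intro k' _ hk'
      rw [Pi.single_eq_of_ne hk', mul_zero]
    · intro h
      exact absurd (Finset.mem_univ _) h
  have := Fintype.ofFinite Λ
  have hcov := Subspace.biUnion_ne_univ_of_top_notMem
    (s := Finset.univ.image fun a => LinearMap.ker (φ a)) (by
      intro h
      obtain ⟨a, -, ha⟩ := Finset.mem_image.1 h
      exact hne a ha)
  obtain ⟨v, hv⟩ := (ne_univ_iff_exists_notMem _).1 hcov
  refine ⟨fun k => Real.exp (v k), fun k => Real.exp_pos _, fun a h => hv ?_⟩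
  rw [mem_iUnion₂]
  refine ⟨LinearMap.ker (φ a), Finset.mem_image.2 ⟨a, Finset.mem_univ _, rfl⟩, ?_⟩
  show φ a v = 0
  rw [hφ, ← h]
  exact Finset.sum_congr rfl fun k _ => by rw [Real.log_exp]

end Pool.Agent.H.MP_1611f1_gt.LG
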