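import Pool.Agent.H.MP_1611f1_gt.LG.Defs
import Pool.Agent.H.MP_1611f1_gt.LG.LevB
import Pool.Agent.H.MP_1611f1_gt.G.Glue

/-!
Pieces with level curves and leaf curves.
-/

namespace Pool.Agent.H.MP_1611f1_gt.LG

open Topology Set Filter
open Pool.Agent.H.MP_1611f1_gt.G Pool.Agent.H.MP_1611f1_gt.LS

/-! ### Old and new ends -/

section

variable {M : Type*} [TopologicalSpace M] {J : Type*}

/-- the ends, separated into old and new ends -/
def reT (old : J → Prop) (T : Ended M J) : Ended M ({j // old j} ⊕ {j // ¬ old j}) where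
  tor := Sum.elim (fun j => T.tor j.1) (fun j => T.tor j.1)
  emb := by
    rintro (j | j)
    · exact T.emb j.1
    · exact T.emb j.1
  disj := by
    rintro (i | i) (j | j) z w h
    · exact congrArg Sum.inl (Subtype.ext (T.disj _ _ _ _ h))
    · exact absurd (T.disj _ _ _ _ h ▸ i.2) j.2
    · exact absurd ((T.disj _ _ _ _ h).symm ▸ j.2) i.2
    · exact congrArg Sum.inr (Subtype.ext (T.disj _ _ _ _ h))

theorem reT_linear {old : J → Prop} {T : Ended M J} {F : Foliation M} {x y : J → ℝ}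
    (h : Linear (reT old T) F (Sum.elim (fun j => x j.1) (fun j => x j.1))
      (Sum.elim (fun j => y j.1) (fun j => y j.1))) : Linear T F x y := by
  intro j z hz c hc hs
  by_cases hj : old j
  · exact h (Sum.inl ⟨j, hj⟩) z hz c hc hs
  · exact h (Sum.inr ⟨j, hj⟩) z hz c hc hs

theorem torus_bds {z : Cylinder} (hz : z ∈ solidTorus) : -6 ≤ z.2.2 ∧ z.2.2 ≤ -2 := by
  have h : z.2.1 ^ 2 + (z.2.2 + 4) ^ 2 ≤ 1 := hz
  constructor
  · nlinarith [sq_nonneg z.2.1, sq_nonneg (z.2.2 + 6)]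
  · nlinarith [sq_nonneg z.2.1, sq_nonneg (z.2.2 + 2)]

variable {M₀ : Type*} [TopologicalSpace M₀]

/-- change of the neighbourhoods outside of the region of the solid tori -/
def toDrill {old : J → Prop} {T₀ : Ended M₀ {j // old j}} {N : {j // ¬ old j} → Cylinder → M₀}
    {T : Ended M J} (D : Drilled T₀ N T) (N' : {j // ¬ old j} → Cyl → M₀)
    (hN : ∀ k z, -6 ≤ z.2.2 → z.2.2 ≤ -2 → N' k z = N k z) : Drill T₀ N' (reT old T) where
  p := D.p
  emb := D.emb
  range_iff x := by
    rw [D.range_iff]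
    have h1 : ∀ k, N' k '' KK = N k '' solidTorus := by
      intro k
      have h2 : (KK : Set Cyl) = solidTorus := rfl
      rw [h2]
      exact image_congr fun z hz => hN k z (torus_bds hz).1 (torus_bds hz).2
    constructor
    · intro h k
      rw [h1]
      exact h k
    · intro h k
      rw [← h1]
      exact h k
  old j w := D.old_tor j w
  new k θ r t := by
    have h1 := D.new_tor k θ r t
    refine h1.trans (hN k _ ?_ ?_).symm
    · show -6 ≤ -4 + (r : ℝ) * Real.sin (2 * Real.pi * t)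
      have h2 := Real.neg_one_le_sin (2 * Real.pi * t)
      have h3 := r.2.1
      have h4 := r.2.2
      nlinarith
    · show -4 + (r : ℝ) * Real.sin (2 * Real.pi * t) ≤ -2
      have h2 := Real.sin_le_one (2 * Real.pi * t)
      have h3 := r.2.1
      have h4 := r.2.2
      nlinarith

end

/-! ### Leaf pieces -/

theorem leaf_detected {M : Type*} [TopologicalSpace M] {J : Type*} {T : Ended M J} {x y : J → ℝ}
    {M₀ : Type*} [TopologicalSpace M₀] [T2Space M₀] {F : Foliation M₀} (hF : F.Taut)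
    {old : J → Prop} [Finite {j // ¬ old j}] {T₀ : Ended M₀ {j // old j}}
    (hlin : Linear T₀ F (fun j => x j) (fun j => y j))
    {N : {j // ¬ old j} → Cylinder → M₀} (hN : ∀ j, LeafCurve F (N j) (x j))
    (disj : ∀ j k z w, N j z = N k w → j = k) (away : ∀ j z k w, N j z ≠ T₀.tor k w)
    (D : Drilled T₀ N T) : Detected T x y := by
  have h : ∀ j, HolSgn F (N j) (x j) := by
    intro j
    obtain ⟨emb, δ, Γ, h, h1, h2, h3, h4, h5, h6, h7⟩ := hN j
    exact ⟨emb, δ, Γ, h, ⟨h1, h2, h3, h4, h5,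
      fun z hz c hc hs => h6 z.1 z.2.1 z.2.2 hz c hc hs⟩, h7⟩
  obtain ⟨F', hF', hl⟩ := drill_sgn hF hlin (N := N) (x' := fun j => x j.1)
    (y' := fun j => y j.1) h disj away (toDrill D N fun k z _ _ => rfl)
  exact ⟨F', hF', reT_linear hl⟩

/-! ### Bundle pieces -/

section

variable {S : Type*} [TopologicalSpace S] {J K : Type*} (P : Bundle S J K)

/-- the chain of homeomorphisms -/
def Bundle.chain : Chain P.A P.n P.phi where
  ψ := P.ψ
  per := P.per
  col i j z := P.fix i j.1 z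
  step_a := P.step_a
  step_b := P.step_b

theorem Bundle.phi_fix (j : J) (z) : P.phi (P.E.collar j z) = P.E.collar j z := by
  have h1 : P.ψ (0 + 4 * P.n) (P.E.collar j z) = P.ψ 0 (P.phi (P.E.collar j z)) := by
    rw [P.per]
    rfl
  rw [P.fix] at h1
  have h2 := P.fix 0 j z
  exact (P.ψ 0).injective (h1.symm.trans h2.symm)

theorem Bundle.zpow_fix (k : ℤ) (j : J) (z) :
    (P.phi ^ k) (P.E.collar j z) = P.E.collar j z := by
  induction k using Int.induction_on with
  | zero => simp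
  | succ k ih => rw [zpow_add_one, Homeomorph.mul_apply, P.phi_fix, ih]
  | pred k ih =>
    rw [zpow_sub_one, Homeomorph.mul_apply]
    have h : (P.phi⁻¹) (P.E.collar j z) = P.E.collar j z := by
      have h1 := P.phi.symm_apply_apply (P.E.collar j z)
      rw [P.phi_fix] at h1
      exact h1
    rw [h, ih]

variable {P}

theorem Bundle.sys_kap (t : Bool) (k : K) (x : S) : P.sys t k x = kap P.A (t, k) x := by
  cases t <;> rfl

/-- the level curve, in the notation of the slices -/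
def LevelCurve.lcw (c : LevelCurve P) : LCw P.A P.chain where
  i := c.i
  t := c.t
  ν := c.ν
  emb := c.emb
  out z j w := c.out z j.1 w
  other k z := by
    rw [← P.sys_kap]
    exact c.other k z
  f := c.f
  f_cont := c.f_cont
  deg := c.deg
  f_add := c.f_add
  cross k θ u := by
    rw [← P.sys_kap]
    exact c.cross k θ u

/-- the foliation of the bundle -/
theorem bundle_fol [ConnectedSpace S] [Finite J] [Nonempty J] [Finite K]
    {M : Type*} [TopologicalSpace M] {T : Ended M J} (Mt : MTorus P.E P.phi T)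
    {σ : K → ℝ} (H : ∀ k, Hol (-σ k)) :
    ∃ F : Foliation M,
      F.charts = B.AllCharts (bun_MTB Mt fun j => 0 < P.L j) P.A H P.chain ∧ F.Taut ∧
      ∀ x y : J → ℝ, (∀ j, 0 < y j) →
        (∀ j (h : 0 < P.L j), P.n * x j = σ (P.col ⟨j, h⟩) * P.L j * y j) →
        (∀ j, P.L j = 0 → x j = 0) → Linear T F x y := by
  classical
  have hn := P.n_pos
  have hn' : (0 : ℝ) < P.n := by exact_mod_cast hn
  have hL : ∀ j : {j // 0 < P.L j}, 0 < P.L j.1 := fun j => j.2
  let C := P.chain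
  have hfree : ∀ j w, P.L j = 0 → (∀ i, C.ψ i (P.E.collar j w) = P.E.collar j w) ∧
      ∀ e, kap P.A e (P.E.collar j w) = 0 := by
    intro j w hj
    refine ⟨fun i => P.fix i j w, fun e => ?_⟩
    obtain ⟨h1, h2⟩ := P.free j hj e.2 w
    unfold kap
    split_ifs
    · exact h2
    · exact h1
  have hne : Nonempty {j // 0 < P.L j} := by
    obtain ⟨j⟩ := ‹Nonempty J›
    by_cases hj : 0 < P.L j
    · exact ⟨⟨j, hj⟩⟩
    · have hj0 : P.L j = 0 := by omega
      have w : AddCircle (1 : ℝ) × Ioo (1 : ℝ) 2 := (0, ⟨3 / 2, by norm_num, by norm_num⟩)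
      have h0 : P.E.collar j w ∈ VV P.A none := by
        intro e
        rw [(hfree j w hj0).2, norm_zero]
        norm_num
      obtain ⟨j', -⟩ := B.none_reach P.A h0
      exact ⟨j'⟩
  let Fl := bun_MTB Mt fun j => 0 < P.L j
  obtain ⟨F, hF⟩ := B.exists_foliation Fl P.A H C hn hL
  have hT : F.Taut := B.taut Fl P.A H C F hn hL hF
  have hlin : Linear T F (fun j => if h : 0 < P.L j then 4 * P.L j * σ (P.col ⟨j, h⟩) else 0)
      (fun _ => 4 * P.n) := by
    intro j z hz c hc hs
    rw [hF] at hc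
    have hcov : ∀ w, T.cov j w = B.PP Fl P.n
      (P.E.collar j ((w.1 : AddCircle (1 : ℝ)), w.2.1), 4 * P.n * w.2.2) :=
      fun w => bun_cov Mt (fun j => 0 < P.L j) hn j w
    by_cases hj : 0 < P.L j
    · have hL' : (0 : ℝ) < P.L j := by exact_mod_cast hj
      let R : ℝ × Ioo (1 : ℝ) 2 × ℝ → ℝ × Ioo (1 : ℝ) 2 × ℝ := fun w =>
        (4 * P.L j * w.1, w.2.1, 4 * P.n * w.2.2)
      have hR : Continuous R := by
        show Continuous fun w : ℝ × Ioo (1 : ℝ) 2 × ℝ =>
          (4 * (P.L j : ℝ) * w.1, w.2.1, 4 * (P.n : ℝ) * w.2.2)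
        fun_prop
      have hQ : ∀ w, T.cov j w = B.QQ Fl (fun j => P.L j.1) P.n ⟨j, hj⟩ (R w) := by
        intro w
        rw [hcov]
        show _ = B.PP Fl P.n (P.E.collar j
          (((4 * (P.L j : ℝ) * w.1 / (4 * P.L j) : ℝ) : AddCircle (1 : ℝ)), w.2.1),
            4 * P.n * w.2.2)
        have h1 : 4 * (P.L j : ℝ) * w.1 / (4 * P.L j) = w.1 := by field_simp
        rw [h1]
      rw [hQ] at hs
      have h2 := B.collar_all Fl P.A H C hn hL hc ⟨j, hj⟩ hs
      have h3 := OrdEq.comp_cont (R := R) (z₀ := z) hR.continuousAt h2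
      have hev : ∀ᶠ w : ℝ × Ioo (1 : ℝ) 2 × ℝ in 𝓝 z, (w.2.1 : ℝ) < 4 / 3 := by
        have h4 : Continuous fun w : ℝ × Ioo (1 : ℝ) 2 × ℝ => (w.2.1 : ℝ) := by fun_prop
        exact h4.continuousAt.eventually_lt_const hz
      refine h3.congr (Eventually.of_forall fun w => ?_) (hev.mono fun w hw => ?_)
      · show (c (T.cov j w)).2 = (c (B.QQ Fl (fun j => P.L j.1) P.n ⟨j, hj⟩ (R w))).2
        rw [hQ]
      · show (if h : 0 < P.L j then 4 * P.L j * σ (P.col ⟨j, h⟩) else 0) * w.1 +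
          4 * P.n * w.2.2 = MR (H (P.col ⟨j, hj⟩)) (4 * P.L j * w.1) w.2.1 (4 * P.n * w.2.2)
        rw [MR_inner _ _ _ hw.le, dif_pos hj]
        ring
    · have hj0 : P.L j = 0 := by omega
      obtain ⟨u, r, t⟩ := z
      have hx' : ∀ j' w', P.E.collar j ((u : AddCircle (1 : ℝ)), r) ≠
          (P.E.sub fun j => 0 < P.L j).collar j' w' := by
        intro j' w' h
        have h1 : j = j'.1 := P.E.disj _ _ _ _ h
        have h2 := j'.2
        rw [← h1] at h2
        exact hj h2
      rw [hcov] at hs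
      obtain ⟨h1, h2⟩ := hfree j ((u : AddCircle (1 : ℝ)), r) hj0
      have h3 := B.free_all Fl P.A H C hn hc hx' h1 h2 hs
      let R : ℝ × Ioo (1 : ℝ) 2 × ℝ → S × ℝ := fun w =>
        (P.E.collar j ((w.1 : AddCircle (1 : ℝ)), w.2.1), 4 * P.n * w.2.2)
      have hR : Continuous R := by
        refine Continuous.prodMk ((P.E.emb j).continuous.comp (Continuous.prodMk ?_ ?_)) ?_
        · exact (AddCircle.continuous_mk' (1 : ℝ)).comp continuous_fst
        · fun_prop
        · fun_prop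
      have h4 := OrdEq.comp_cont (R := R) (z₀ := (u, r, t)) hR.continuousAt h3
      refine h4.congr (Eventually.of_forall fun w => ?_) (Eventually.of_forall fun w => ?_)
      · show (c (T.cov j w)).2 = (c (B.PP Fl P.n (R w))).2
        rw [hcov]
      · show (if h : 0 < P.L j then 4 * P.L j * σ (P.col ⟨j, h⟩) else 0) * w.1 +
          4 * P.n * w.2.2 = 4 * P.n * w.2.2
        rw [dif_neg hj]
        ring
  refine ⟨F, hF, hT, fun x y hy hx hx0 => ?_⟩
  refine linear_scale hlin (κ := fun j => y j / (4 * P.n)) (fun j => ?_) (fun j => ?_)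
    (fun j => ?_)
  · exact div_pos (hy j) (by positivity)
  · by_cases hj : 0 < P.L j
    · simp only [dif_pos hj]
      have h1 := hx j hj
      field_simp
      linarith
    · simp only [dif_neg hj, mul_zero]
      exact hx0 j (by omega)
  · field_simp

end

/-- bundle pieces, positive at the old ends -/
theorem bundle_detected_pos {M : Type*} [TopologicalSpace M] {J : Type*} {T : Ended M J}
    {x y : J → ℝ} {S : Type*} [TopologicalSpace S] [ConnectedSpace S] {K : Type*} [Finite K]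
    [Finite J] {old : J → Prop} [Nonempty {j // old j}] {P : Bundle S {j // old j} K}
    {M₀ : Type*} [TopologicalSpace M₀] [T2Space M₀] {T₀ : Ended M₀ {j // old j}}
    (Mt : MTorus P.E P.phi T₀) (C : {j // ¬ old j} → LevelCurve P)
    (disj : ∀ j k z w, (C j).i = (C k).i → (C j).ν z = (C k).ν w → j = k)
    (D : Drilled T₀ (fun j => (C j).nbh Mt) T)
    {σ : K → ℝ} (hσ : ∀ k, |σ k| < 1)
    (hy : ∀ j, old j → 0 < y j)
    (hx : ∀ (j : {j // old j}) (h : 0 < P.L j), P.n * x j = σ (P.col ⟨j, h⟩) * P.L j * y j)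
    (hx0 : ∀ j : {j // old j}, P.L j = 0 → x j = 0)
    (hnew : ∀ j, ¬ old j → x j ≠ 0) : Detected T x y := by
  have hn := P.n_pos
  have := Fintype.ofFinite K
  obtain ⟨l, hl0, hl1⟩ := exists_slopes (fun j => (C j).deg) (fun j => (C j).deg_ne)
  obtain ⟨H, c, hc, hH⟩ := exists_data (fun k => -σ k) l (fun k => by rw [abs_neg]; exact hσ k)
    hl0
  obtain ⟨F, hF, hFt, hlin⟩ := bundle_fol Mt H
  have hlin' := hlin (fun j => x j) (fun j => y j) (fun j => hy j.1 j.2) hx hx0
  let Fl := bun_MTB Mt fun j => 0 < P.L j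
  choose Q hQ hQ0 hQ1 using fun j => exists_pos (c (C j).i (C j).t - (C j).i)
    (by linarith [(hc (C j).i (C j).t).1]) (by linarith [(hc (C j).i (C j).t).2])
  have hnb : ∀ (j : {j // ¬ old j}) (z : Cyl), -6 ≤ z.2.2 → z.2.2 ≤ -2 →
      (C j).lcw.nbh Fl (Q j) z = (C j).nbh Mt z := by
    intro j z h1 h2
    show Mt.p ((C j).ν (z.1, z.2.1), ((C j).i + Q j (tim z.2.2)) / (4 * P.n)) =
      Mt.p ((C j).ν (z.1, z.2.1), ((C j).i + 1 + z.2.2 / 8) / (4 * P.n))
    rw [tim_mid h1 (by linarith), hQ j _ (by linarith)]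
    congr 3
    ring
  have haway : ∀ j z k w, (C j).lcw.nbh Fl (Q j) z ≠ T₀.tor k w := by
    rintro j z k ⟨θ, r, t⟩ h
    obtain ⟨t, rfl⟩ := QuotientAddGroup.mk_surjective t
    have h1 : T₀.tor k (θ, r, (t : AddCircle (1 : ℝ))) = Mt.p (P.E.collar k (θ, r), t) :=
      Mt.tor k θ r t
    have h2 : Mt.p ((C j).ν (z.1, z.2.1), ((C j).i + Q j (tim z.2.2)) / (4 * P.n)) =
        Mt.p (P.E.collar k (θ, r), t) := h.trans h1
    obtain ⟨m, -, h3⟩ := (Mt.p_eq _ _ _ _).1 h2
    rw [P.zpow_fix] at h3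
    exact (C j).out _ _ _ h3
  obtain ⟨F', hF', hl'⟩ := drill_sgn hFt hlin' (N := fun j => (C j).lcw.nbh Fl (Q j))
    (x' := fun j => x j.1) (y' := fun j => y j.1)
    (fun j => lcw_hol H hn (C j).lcw Fl hF (hQ j) (hQ1 j)
      (by rw [hQ0]; linarith [(hc (C j).i (C j).t).1])
      (l := l) (fun k => by
        rw [hQ0]
        show LinTwo (iso H ((C j).t, k)) ((C j).i + (c (C j).i (C j).t - (C j).i)) (l k)
        rw [add_sub_cancel]
        exact hH _ _ k) (hl1 j) (hnew j.1 j.2))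
    (lcw_disj hn Fl (fun j => (C j).lcw) (fun j => ⟨(C j).i_nonneg, (C j).i_lt⟩) Q hQ hQ1 disj)
    haway (toDrill D _ hnb)
  exact ⟨F', hF', reT_linear hl'⟩

end Pool.Agent.H.MP_1611f1_gt.LG
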