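import Pool.Agent.H.MP_1611f1_gt.G.MT
import Pool.Agent.H.MP_1611f1_gt.TR.Defs

/-!
Gluing taut foliations: the pieces are surface bundles minus level curves, products `S × S¹` minus
a forest of level curves, surface bundles with invariant circle valued functions, and foliated
manifolds minus leaf curves.
-/

namespace Pool.Agent.H.MP_1611f1_gt.LG

open Topology Set Filter
open Pool.Agent.H.MP_1611f1_gt.G (Ended Linear MTorus)

/-- the manifold `S¹ × ℝ × ℝ`, with the coordinates `(θ, (u, s))` -/
abbrev Cylinder := AddCircle (1 : ℝ) × (ℝ × ℝ)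

/-- The solid torus of radius `1` around the curve `(u, s) = (0, -4)` of the cylinder. It lies beside
the curve `u = s = 0`, and is isotopic to a neighbourhood of this curve. -/
def solidTorus : Set Cylinder := {z | z.2.1 ^ 2 + (z.2.2 + 4) ^ 2 ≤ 1}

/-- `M`, with the toral ends `T`, is obtained from `M₀`, with the toral ends `T₀`, by removing the
solid tori `N k '' solidTorus` around the curves with the coordinates `N k`. The ends `j` of `M` with `old j` are the ends of `M₀`, the others
are new. The point `(θ, r, t)` over the collar of the new end `k` is `N k (θ, (u, s))`, where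
`(u, s) = (r cos 2πt, -4 + r sin 2πt)`; so the circles `t = const` are parallel to the removed
curve. -/
structure Drilled {M₀ M : Type*} [TopologicalSpace M₀] [TopologicalSpace M] {J : Type*}
    {old : J → Prop} (T₀ : Ended M₀ {j // old j}) (N : {j // ¬ old j} → Cylinder → M₀)
    (T : Ended M J) where
  p : M → M₀
  emb : IsOpenEmbedding p
  range_iff : ∀ x, x ∈ range p ↔ ∀ k, x ∉ N k '' solidTorus
  old_tor : ∀ (j : {j // old j}) w, p (T.tor j w) = T₀.tor j w
  new_tor : ∀ (k : {j // ¬ old j}) (θ : AddCircle (1 : ℝ)) (r : Ioo (1 : ℝ) 2) (t : ℝ),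
    p (T.tor k (θ, r, (t : AddCircle (1 : ℝ)))) =
      N k (θ, ((r : ℝ) * Real.cos (2 * Real.pi * t), -4 + (r : ℝ) * Real.sin (2 * Real.pi * t)))

/-- A simple closed curve in a leaf of the foliation `F`, given by a neighbourhood `N`: an open
embedding of `S¹ × ℝ × ℝ` with coordinates `(θ, (u, s))`; the curve is `u = s = 0`.
Near the annulus `s = 0`, which is contained in a leaf, more precisely for `|s| < δ`, the leaves
of `F` are (locally) the level sets of a function `Γ (θ, s)` on the universal cover (`θ` real),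
strictly increasing in `s`, `Γ (θ, 0) = 0`, and `Γ (θ + 1, s) = h (Γ (θ, s))` for a homeomorphism
`h` of `ℝ`: the germ of `h` at `0` is the holonomy of `F` along the curve in the direction of
decreasing `θ`. There are points `z` arbitrarily near `0` with `x * (h z - z) > 0`: if `x > 0`
they are moved up by this holonomy (against `θ`), if `x < 0` they are moved down. -/
structure LeafCurve {M : Type*} [TopologicalSpace M] (F : Foliation M) (N : Cylinder → M)
    (x : ℝ) : Prop where
  emb : IsOpenEmbedding N
  hol : ∃ (δ : ℝ) (Γ : ℝ × ℝ → ℝ) (h : ℝ ≃o ℝ),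
    0 < δ ∧ ContinuousOn Γ (univ ×ˢ Ioo (-δ) δ) ∧
    (∀ θ, StrictMonoOn (fun s => Γ (θ, s)) (Ioo (-δ) δ)) ∧ (∀ θ, Γ (θ, 0) = 0) ∧
    (∀ θ, ∀ s ∈ Ioo (-δ) δ, Γ (θ + 1, s) = h (Γ (θ, s))) ∧
    (∀ θ u s : ℝ, s ∈ Ioo (-δ) δ → ∀ c ∈ F.charts, N ((θ : AddCircle (1 : ℝ)), (u, s)) ∈ c.source →
      ∃ W ∈ 𝓝 (θ, (u, s)), ∀ w ∈ W, ∀ w' ∈ W,
        ((c (N ((w.1 : AddCircle (1 : ℝ)), w.2))).2 <
            (c (N ((w'.1 : AddCircle (1 : ℝ)), w'.2))).2 ↔
          Γ (w.1, w.2.2) < Γ (w'.1, w'.2.2))) ∧
    ∀ ε > 0, ∃ z, |z| < ε ∧ 0 < x * (h z - z)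

/-- The data of a surface bundle: a surface `S` with ends `j ∈ J`, numbers `L j ≥ 0`, coloured arc
systems `A` at the ends with `L j > 0` (see `Arcs`), whose strips do not meet the collars of the
ends with `L j = 0`, and homeomorphisms `ψ i` (`i ∈ ℤ`), which are the identity on all collars,
such that `ψ (i + 4 n) = ψ i * phi`, and `ψ i * (ψ (i - 1))⁻¹` preserves the arc systems `a` for
odd `i`, and the arc systems `b` for even `i`. The bundle is the mapping torus of `phi`. -/
structure Bundle (S : Type*) [TopologicalSpace S] (J K : Type*) where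
  E : Surf S J
  L : J → ℕ
  col : {j // 0 < L j} → K
  A : Arcs (E.sub fun j => 0 < L j) col (fun j => L j.1)
  free : ∀ j, L j = 0 → ∀ k z, A.a k (E.collar j z) = 0 ∧ A.b k (E.collar j z) = 0
  n : ℕ
  n_pos : 0 < n
  phi : S ≃ₜ S
  ψ : ℤ → (S ≃ₜ S)
  per : ∀ i, ψ (i + 4 * n) = ψ i * phi
  fix : ∀ i j z, ψ i (E.collar j z) = E.collar j z
  step_a : ∀ i, Odd i → ∀ k x, A.a k (ψ i x) = A.a k (ψ (i - 1) x)
  step_b : ∀ i, Even i → ∀ k x, A.b k (ψ i x) = A.b k (ψ (i - 1) x)

section

variable {S : Type*} [TopologicalSpace S] {J K : Type*} (P : Bundle S J K)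

/-- the two systems of arcs: `false` for `a`, `true` for `b` -/
def Bundle.sys (t : Bool) (k : K) : C(S, AddCircle (1 : ℝ)) := if t = true then P.A.b k else P.A.a k

/-- A level curve: an integer `i` (the curve lies in a fibre between the times `i` and `i + 1`, in
units of `1 / (4 n)`, where the arc systems are in the position `ψ i`), and an annulus `ν` in the
surface (coordinates `θ` along the curve, `u` across), outside of the collars. In the position
`ψ i` it crosses only strips of the type `t`: all strips of the system `a` (`t = false`) or `b`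
(`t = true`) may be crossed, those of the other system are not. `f k` is the lift to `ℝ` of the
collapse map of the colour `k` along the curve; its degree `deg k`, the algebraic number of
crossings, is not zero for at least one colour. -/
structure LevelCurve where
  i : ℤ
  i_nonneg : 0 ≤ i
  i_lt : i < 4 * P.n
  t : Bool
  ν : AddCircle (1 : ℝ) × ℝ → S
  emb : IsOpenEmbedding ν
  out : ∀ z j w, ν z ≠ P.E.collar j w
  other : ∀ k z, P.sys (!t) k (P.ψ i (ν z)) = 0
  f : K → ℝ → ℝ
  f_cont : ∀ k, Continuous (f k)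
  deg : K → ℤ
  deg_ne : ∃ k, deg k ≠ 0
  f_add : ∀ k θ, f k (θ + 1) = f k θ + deg k
  cross : ∀ k (θ u : ℝ), P.sys t k (P.ψ i (ν ((θ : AddCircle (1 : ℝ)), u))) =
    ((f k θ : ℝ) : AddCircle (1 : ℝ))

/-- The coordinates of the mapping torus near the level curve: `(θ, (u, s))` is the point
`ν (θ, u)` of the surface at the time `(i + 1 + s / 8) / (4 n)`; so the solid torus, for which
`-5 ≤ s ≤ -3`, lies at the times around `(i + 1 / 2) / (4 n)`. -/
noncomputable def LevelCurve.nbh {P : Bundle S J K} (c : LevelCurve P) {M : Type*}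
    [TopologicalSpace M] {T : Ended M J} (Mt : MTorus P.E P.phi T) (z : Cylinder) : M :=
  Mt.p (c.ν (z.1, z.2.1), (c.i + 1 + z.2.2 / 8) / (4 * P.n))

end

/-- The pieces of the main theorem, with the admissible covectors `(x j, y j)` at their ends `j`.
* `bundle`: a surface bundle `M₀` (`S` connected, at least one end) minus disjoint level curves;
  for a sign `ε` and numbers `|σ k| < 1` (one for every colour) the covectors at the ends of `M₀`
  satisfy `0 < ε y j`, `n x j = σ (col j) (L j) (y j)` if `L j > 0`, and `x j = 0` if `L j = 0`; the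
  covectors at the new ends satisfy `x j ≠ 0`.
* `tree`: the product `M₀ = S × S¹` minus curves in fibres, where `S` is a connected surface with one end and
  `N ≥ 2` arcs, given with a forest of annuli `P.ν k`, one for every arc `k` (see `TR.Forest`). The curve `k` is
  the core of `P.ν k` at an arbitrary time `t k`; the removed solid torus is in the times between
  `t k - ε` and `t k + ε`, and curves over annuli which meet are at times whose distance is larger than `4 ε`.
  The covector at the end of `M₀` satisfies `|x j| < (N - 1) |y j|`, those at the new ends `x j ≠ 0`.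
* `form`: the mapping torus of a homeomorphism `phi` of a connected surface `S` with invariant
  circle valued functions `f i` of degree `m i j` at the end `j`; for a sign `ε` and real numbers
  `c i` the covectors satisfy `0 < ε y j` and `x j = y j * ∑ c i * m i j`.
* `leaf`: a manifold `M₀` with a taut foliation, which is given by `x j * θ + y j * t = const` near
  the (possibly no) ends of `M₀`, minus disjoint simple closed curves in leaves, whose holonomy
  against `θ` moves points arbitrarily near the curve up if `x j > 0`, and down if `x j < 0`. -/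
inductive Good {M : Type} [TopologicalSpace M] {J : Type} (T : Ended M J) (x y : J → ℝ) : Prop
  | bundle {S : Type} [TopologicalSpace S] [ConnectedSpace S] {K : Type} [Finite K] [Finite J]
      (old : J → Prop) [Nonempty {j // old j}] (P : Bundle S {j // old j} K)
      {M₀ : Type} [TopologicalSpace M₀] [T2Space M₀] (T₀ : Ended M₀ {j // old j})
      (Mt : MTorus P.E P.phi T₀) (C : {j // ¬ old j} → LevelCurve P)
      (disj : ∀ j k z w, (C j).i = (C k).i → (C j).ν z = (C k).ν w → j = k)
      (D : Drilled T₀ (fun j => (C j).nbh Mt) T)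
      (σ : K → ℝ) (hσ : ∀ k, |σ k| < 1) (ε : ℝ) (hε : ε = 1 ∨ ε = -1)
      (hy : ∀ j, old j → 0 < ε * y j)
      (hx : ∀ (j : {j // old j}) (h : 0 < P.L j), P.n * x j = σ (P.col ⟨j, h⟩) * P.L j * y j)
      (hx0 : ∀ j : {j // old j}, P.L j = 0 → x j = 0)
      (hnew : ∀ j, ¬ old j → x j ≠ 0) : Good T x y
  | tree {S : Type} [TopologicalSpace S] [ConnectedSpace S] (old : J → Prop)
      [Unique {j // old j}] (hN : 2 ≤ Nat.card {j // ¬ old j})
      (P : TR.Forest S {j // old j} {j // ¬ old j})
      {M₀ : Type} [TopologicalSpace M₀] [T2Space M₀] (T₀ : Ended M₀ {j // old j})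
      (Mt : MTorus P.E (Homeomorph.refl S) T₀) (t : {j // ¬ old j} → ℝ) (ε : ℝ) (hε : 0 < ε)
      (hε1 : 4 * ε < 1)
      (sep : ∀ e f, e ≠ f → (∃ z w, P.ν e z = P.ν f w) → ∀ m : ℤ, 4 * ε < |t e - t f + m|)
      (D : Drilled T₀ (fun k z => Mt.p (P.ν k (z.1, z.2.1), t k + ε * (z.2.2 + 4))) T)
      (hold : ∀ j, old j → |x j| < (Nat.card {j // ¬ old j} - 1) * |y j|)
      (hnew : ∀ j, ¬ old j → x j ≠ 0) : Good T x y
  | form {S : Type} [TopologicalSpace S] [ConnectedSpace S] [Finite J] [Nonempty J]
      (E : Surf S J) (phi : S ≃ₜ S) (hphi : ∀ j z, phi (E.collar j z) = E.collar j z)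
      (Mt : MTorus E phi T) {I : Type} [Fintype I] (f : I → C(S, AddCircle (1 : ℝ)))
      (hf : ∀ i x, f i (phi x) = f i x) (m : I → J → ℤ) (b : I → J → AddCircle (1 : ℝ))
      (hm : ∀ i j θ r, f i (E.collar j (θ, r)) = m i j • θ + b i j) (c : I → ℝ) (ε : ℝ)
      (hε : ε = 1 ∨ ε = -1) (hy : ∀ j, 0 < ε * y j) (hx : ∀ j, x j = y j * ∑ i, c i * m i j) :
      Good T x y
  | leaf {M₀ : Type} [TopologicalSpace M₀] [T2Space M₀] (F : Foliation M₀) (hF : F.Taut)
      (old : J → Prop) [Finite {j // ¬ old j}] (T₀ : Ended M₀ {j // old j})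
      (hlin : Linear T₀ F (fun j => x j) (fun j => y j))
      (N : {j // ¬ old j} → Cylinder → M₀) (hN : ∀ j, LeafCurve F (N j) (x j))
      (disj : ∀ j k z w, N j z = N k w → j = k) (away : ∀ j z k w, N j z ≠ T₀.tor k w)
      (D : Drilled T₀ N T) : Good T x y

end Pool.Agent.H.MP_1611f1_gt.LG
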