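import Pool.Agent.H.MP_1611f1_gt.TR.Main
import Pool.Agent.H.MP_1611f1_gt.G.Main

/-!
The main theorem.
-/

namespace Pool.Agent.H.MP_1611f1_gt.LG

open Topology Set Filter
open Pool.Agent.H.MP_1611f1_gt.G (Ended Pattern Union Detected glue_taut)

theorem Good.detected {M : Type} [TopologicalSpace M] {J : Type} {T : Ended M J} {x y : J → ℝ}
    (h : Good T x y) : Detected T x y := by
  cases h with
  | bundle old P T₀ Mt C disj D σ hσ ε hε hy hx hx0 hnew =>
    rcases hε with rfl | rfl
    · exact bundle_detected_pos Mt C disj D hσ (fun j hj => by linarith [hy j hj]) hx hx0 hnew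
    · have h1 := bundle_detected_pos (x := fun j => -x j) (y := fun j => -y j) Mt C disj D hσ
        (fun j hj => by linarith [hy j hj]) (fun j hj => by linarith [hx j hj])
        (fun j hj => by rw [hx0 j hj, neg_zero]) (fun j hj => neg_ne_zero.2 (hnew j hj))
      have h2 := h1.neg
      simp only [neg_neg] at h2
      exact h2
  | tree old hN P T₀ Mt t ε hε hε1 sep D hold hnew =>
    exact TR.tree_detected hN P Mt t hε hε1 sep D hold hnew
  | form E phi hphi Mt f hf m b hm c ε hε hy hx =>
    exact G.detected_form E phi hphi Mt f hf m b hm c ε hε x y hy hx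
  | leaf F hF old T₀ hlin N hN disj away D => exact leaf_detected hF hlin hN disj away D

/-- **Main theorem.** -/
theorem main {V : Type} {M : V → Type} [∀ v, TopologicalSpace (M v)] {J : V → Type}
    (T : ∀ v, Ended (M v) (J v)) (G : Pattern (Σ v, J v)) {Y : Type} [TopologicalSpace Y]
    (U : Union T G Y) (x y : (Σ v, J v) → ℝ)
    (hgood : ∀ v, Good (T v) (fun j => x ⟨v, j⟩) (fun j => y ⟨v, j⟩))
    (hglue : ∀ e, G.τ e ≠ e → x e = G.al e * x (G.τ e) + G.ga e * y (G.τ e) ∧
      y e = G.be e * x (G.τ e) + G.de e * y (G.τ e))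
    (hfill : ∀ e, G.τ e = e → ∃ c : ℝ, c ≠ 0 ∧ x e = c * G.ga e ∧ y e = c * G.de e) :
    ∃ F : Foliation Y, F.Taut :=
  glue_taut T G U x y (fun v => (hgood v).detected) hglue hfill

end Pool.Agent.H.MP_1611f1_gt.LG
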