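import Pool.Agent.H.MP_1611f1_gt.LS.HK

/-!
Leaf curves: the sign of the new ends is determined by the holonomy.
-/

namespace Pool.Agent.H.MP_1611f1_gt.LS

open Topology Set Filter

/-- a fixed point `d` such that all points just below `d` are moved up -/
theorem exists_fix_up {h : ℝ ≃o ℝ} (h0 : h 0 = 0) {b x : ℝ} (hx1 : b < x) (hx2 : x < 0)
    (hx : x < h x) :
    ∃ d y₀ : ℝ, b < y₀ ∧ y₀ < d ∧ d ≤ 0 ∧ h d = d ∧ ∀ y ∈ Ico y₀ d, y < h y := by
  let S : Set ℝ := {y | x ≤ y ∧ y ≤ 0 ∧ h y = y}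
  have hcont : Continuous fun y => h y := h.continuous
  have hScl : IsClosed S := by
    have e : S = {y | x ≤ y} ∩ ({y | y ≤ 0} ∩ {y | h y = y}) := by
      ext y
      exact Iff.rfl
    rw [e]
    exact (isClosed_le continuous_const continuous_id).inter
      ((isClosed_le continuous_id continuous_const).inter (isClosed_eq hcont continuous_id))
  have hSne : S.Nonempty := ⟨0, hx2.le, le_rfl, h0⟩
  have hSb : BddBelow S := ⟨x, fun y hy => hy.1⟩
  have hd : sInf S ∈ S := hScl.csInf_mem hSne hSb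
  have hmin : ∀ y ∈ S, sInf S ≤ y := fun y hy => csInf_le hSb hy
  generalize sInf S = d at hd hmin
  obtain ⟨hd1, hd2, hd3⟩ := hd
  have hxd : x < d := lt_of_le_of_ne hd1 fun h1 => hx.ne' (by rw [h1]; exact hd3)
  refine ⟨d, x, hx1, hxd, hd2, hd3, ?_⟩
  have hcg : Continuous fun y => h y - y := hcont.sub continuous_id
  intro y hy
  by_contra hcon
  push Not at hcon
  obtain ⟨t, ht, hgt⟩ := intermediate_value_Icc' hy.1 hcg.continuousOn
    (show (0 : ℝ) ∈ Icc (h y - y) (h x - x) from ⟨by linarith, by linarith⟩)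
  have h2 : d ≤ t := hmin t ⟨ht.1, by linarith [ht.2, hy.2], by linarith⟩
  linarith [ht.2, hy.2]

/-- a fixed point `d` such that all points just below `d` are moved down -/
theorem exists_fix_down {h : ℝ ≃o ℝ} (h0 : h 0 = 0) {b x : ℝ} (hx1 : b < x) (hx2 : x < 0)
    (hx : h x < x) :
    ∃ d y₀ : ℝ, b < y₀ ∧ y₀ < d ∧ d ≤ 0 ∧ h d = d ∧ ∀ y ∈ Ico y₀ d, h y < y := by
  let S : Set ℝ := {y | x ≤ y ∧ y ≤ 0 ∧ h y = y}
  have hcont : Continuous fun y => h y := h.continuous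
  have hScl : IsClosed S := by
    have e : S = {y | x ≤ y} ∩ ({y | y ≤ 0} ∩ {y | h y = y}) := by
      ext y
      exact Iff.rfl
    rw [e]
    exact (isClosed_le continuous_const continuous_id).inter
      ((isClosed_le continuous_id continuous_const).inter (isClosed_eq hcont continuous_id))
  have hSne : S.Nonempty := ⟨0, hx2.le, le_rfl, h0⟩
  have hSb : BddBelow S := ⟨x, fun y hy => hy.1⟩
  have hd : sInf S ∈ S := hScl.csInf_mem hSne hSb
  have hmin : ∀ y ∈ S, sInf S ≤ y := fun y hy => csInf_le hSb hy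
  generalize sInf S = d at hd hmin
  obtain ⟨hd1, hd2, hd3⟩ := hd
  have hxd : x < d := lt_of_le_of_ne hd1 fun h1 => hx.ne (by rw [h1]; exact hd3)
  refine ⟨d, x, hx1, hxd, hd2, hd3, ?_⟩
  have hcg : Continuous fun y => h y - y := hcont.sub continuous_id
  intro y hy
  by_contra hcon
  push Not at hcon
  obtain ⟨t, ht, hgt⟩ := intermediate_value_Icc hy.1 hcg.continuousOn
    (show (0 : ℝ) ∈ Icc (h x - x) (h y - y) from ⟨by linarith, by linarith⟩)
  have h2 : d ≤ t := hmin t ⟨ht.1, by linarith [ht.2, hy.2], by linarith⟩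
  linarith [ht.2, hy.2]

/-- the two cases together: the sign of `P` is the sign of the displacement -/
theorem exists_tau_sgn {h : ℝ ≃o ℝ} (h0 : h 0 = 0) {b z x : ℝ} (hz1 : b < z) (hz2 : z < 0)
    (hx : 0 < x * (h z - z)) :
    ∃ (d y₀ : ℝ) (τ : ℝ → ℝ) (P y₁ : ℝ), b < y₀ ∧ y₀ < d ∧ d ≤ 0 ∧ h d = d ∧ 0 < P * x ∧
      (P = 1 ∨ P = -1) ∧ y₁ ∈ Ico y₀ d ∧
      ContinuousOn τ (Ico y₀ d) ∧ StrictMonoOn τ (Ico y₀ d) ∧ Tendsto τ (𝓝[<] d) atTop ∧
      ∀ y ∈ Ico y₁ d, h y ∈ Ico y₀ d ∧ τ (h y) = τ y + P := by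
  rcases lt_trichotomy z (h z) with h1 | h1 | h1
  · have hx0 : 0 < x := by
      by_contra hcon
      have h2 := mul_nonneg_of_nonpos_of_nonpos (not_lt.1 hcon) (by linarith : -(h z - z) ≤ 0)
      linarith
    obtain ⟨d, y₀, e1, e2, e3, e4, hh⟩ := exists_fix_up h0 hz1 hz2 h1
    obtain ⟨τ, t1, t2, t3, t4⟩ := exists_tau e2 e4 hh
    refine ⟨d, y₀, τ, 1, y₀, e1, e2, e3, e4, by linarith, Or.inl rfl, ⟨le_refl _, e2⟩, t1, t2, t4,
      fun y hy => ⟨⟨?_, ?_⟩, t3 y hy⟩⟩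
    · exact hy.1.trans (hh y hy).le
    · calc h y < h d := h.strictMono hy.2
        _ = d := e4
  · rw [← h1] at hx
    simp at hx
  · have hx0 : x < 0 := by
      by_contra hcon
      have h2 := mul_nonneg (not_lt.1 hcon) (by linarith : 0 ≤ -(h z - z))
      linarith
    obtain ⟨d, y₀, e1, e2, e3, e4, hh⟩ := exists_fix_down h0 hz1 hz2 h1
    have hd' : h.symm d = d := by
      rw [OrderIso.symm_apply_eq]; exact e4.symm
    have hh' : ∀ y ∈ Ico y₀ d, y < h.symm y := by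
      intro y hy
      have h1 := h.symm.strictMono (hh y hy)
      rwa [h.symm_apply_apply] at h1
    obtain ⟨τ, t1, t2, t3, t4⟩ := exists_tau e2 hd' hh'
    have hy0 : y₀ ∈ Ico y₀ d := ⟨le_refl _, e2⟩
    refine ⟨d, y₀, τ, -1, h.symm y₀, e1, e2, e3, e4, by linarith, Or.inr rfl,
      ⟨(hh' y₀ hy0).le, ?_⟩, t1, t2, t4, fun y hy => ?_⟩
    · calc h.symm y₀ < h.symm d := h.symm.strictMono e2
        _ = d := hd'
    · have a1 : y₀ ≤ h y := by
        have h5 := h.monotone hy.1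
        rwa [h.apply_symm_apply] at h5
      have a0 : y ∈ Ico y₀ d := ⟨(hh' y₀ hy0).le.trans hy.1, hy.2⟩
      have a2 : h y < d := (hh y a0).trans hy.2
      refine ⟨⟨a1, a2⟩, ?_⟩
      have h6 := t3 (h y) ⟨a1, a2⟩
      rw [h.symm_apply_apply] at h6
      linarith

variable {M : Type*} [TopologicalSpace M] {F : Foliation M} {N : Cyl → M}

/-- a leaf curve whose holonomy moves points arbitrarily near the leaf in the direction of `x` -/
structure HolSgn (F : Foliation M) (N : Cyl → M) (x : ℝ) : Prop where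
  emb : IsOpenEmbedding N
  hol : ∃ (δ : ℝ) (Γ : ℝ × ℝ → ℝ) (h : ℝ ≃o ℝ), HolDat F N δ Γ h ∧
    ∀ ε > 0, ∃ z, |z| < ε ∧ 0 < x * (h z - z)

/-- the same on the lower side -/
structure LowSgn (F : Foliation M) (N : Cyl → M) (x : ℝ) : Prop where
  emb : IsOpenEmbedding N
  hol : ∃ (δ : ℝ) (Γ : ℝ × ℝ → ℝ) (h : ℝ ≃o ℝ), HolDat F N δ Γ h ∧
    ∀ ε > 0, ∃ z ∈ Ioo (-ε) 0, 0 < x * (h z - z)

/-- the nearby leaf curve, in the coordinates `N (θ, (u, s₀ θ + s))` -/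
theorem low_leafCurve_sgn {x : ℝ} (hL : LowSgn F N x) :
    ∃ (s₀ : AddCircle (1 : ℝ) → ℝ) (P : ℝ), Continuous s₀ ∧ 0 < P * x ∧ (P = 1 ∨ P = -1) ∧
      LeafCurve F (mvN N (fun z => s₀ z.1 + z.2)) P := by
  obtain ⟨δ, Γ, h, hD, hn⟩ := hL.hol
  have h0 : h 0 = 0 := by
    have h1 := hD.per 0 0 ⟨by linarith [hD.pos], hD.pos⟩
    rw [hD.zero, hD.zero] at h1
    exact h1.symm
  obtain ⟨b, hb, hsd⟩ := exists_sd hD
  obtain ⟨z₀, ⟨hz1, hz2⟩, hz3⟩ := hn (-b) (by linarith)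
  rw [neg_neg] at hz1
  obtain ⟨d, y₀, τ, P, y₁, hby, hyd, hd0, hhd, hPx, hP, hy, hτc, hτm, hτl, hτ⟩ :=
    exists_tau_sgn h0 hz1 hz2 hz3
  obtain ⟨s₀, hs, hs1, hs2⟩ := hsd d (hby.trans hyd) hd0 hhd
  obtain ⟨δ', Γ', hδ', hlow, hΓc, hΓm, hΓl, hΓp, hΓo⟩ :=
    exists_Gam' hD.pos hD.cont hD.mono hD.per hhd hy hτc hτm hτl hτ hs hs1 hs2
  have hper : Function.Periodic s₀ 1 := hs2
  have hSc : Continuous (hper.lift : AddCircle (1 : ℝ) → ℝ) := by
    exact ((QuotientAddGroup.isQuotientMap_mk (AddSubgroup.zmultiples (1 : ℝ))).continuous_iff).mpr hs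
  have hSe : ∀ θ : ℝ, (hper.lift : AddCircle (1 : ℝ) → ℝ) (θ : AddCircle (1 : ℝ)) = s₀ θ :=
    fun θ => hper.lift_coe θ
  have hRc : Continuous (fun z : Cov => ((z.1, (z.2.1, s₀ z.1 + z.2.2)) : Cov)) := by fun_prop
  have hrc : ∀ z : Cov, rc (mvN N (fun z => (hper.lift : AddCircle (1 : ℝ) → ℝ) z.1 + z.2)) z =
      rc N (z.1, (z.2.1, s₀ z.1 + z.2.2)) := by
    intro z
    unfold rc mvN
    simp only
    rw [hSe]
  have hz0 : ∀ z : Cov, z.2.2 = 0 → s₀ z.1 + z.2.2 ∈ Ioo (-δ) δ := by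
    intro z hz
    rw [hz, add_zero]
    exact ⟨(hs1 z.1).1, lt_of_le_of_lt (hs1 z.1).2.1 hD.pos⟩
  refine ⟨(hper.lift : AddCircle (1 : ℝ) → ℝ), P, hSc, hPx, hP, ?_, ?_, ?_, ?_⟩
  · have h1 := cyl_emb (σ := fun z : AddCircle (1 : ℝ) × ℝ =>
      (hper.lift : AddCircle (1 : ℝ) → ℝ) z.1 + z.2) (by fun_prop)
      (fun θ s t hst => by simpa using hst)
    exact hL.emb.comp h1
  · refine ⟨δ', Γ', hδ', hΓc, hΓm, hΓl, hΓp, ?_⟩
    intro z hz c hc hzc
    have hz1 : s₀ z.1 + z.2.2 ∈ Ioo (-δ) δ :=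
      ⟨by linarith [hlow z.1, hz.1], by linarith [(hs1 z.1).2.1, hz.2, hD.pos]⟩
    rw [hrc] at hzc
    have h1 := hD.ord (z.1, (z.2.1, s₀ z.1 + z.2.2)) hz1 c hc hzc
    have h2 := OrdEq.comp_cont (R := fun z : Cov => ((z.1, (z.2.1, s₀ z.1 + z.2.2)) : Cov))
      (z₀ := z) hRc.continuousAt h1
    have h3 := hΓo (z.1, z.2.2) hz
    have h4 := OrdEq.comp_cont (R := fun z : Cov => ((z.1, z.2.2) : ℝ × ℝ))
      (z₀ := z) (by fun_prop) h3
    refine OrdEq.congr (h2.trans h4) ?_ ?_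
    · refine Filter.Eventually.of_forall fun w => ?_
      simp only [Function.comp]
      rw [hrc]
    · exact Filter.Eventually.of_forall fun w => rfl
  · intro z hz c hc hzc
    rw [hrc] at hzc
    have h1 := hD.ord (z.1, (z.2.1, s₀ z.1 + z.2.2)) (hz0 z hz) c hc hzc
    obtain ⟨V, hV, h2⟩ := OrdEq.comp_cont
      (R := fun z : Cov => ((z.1, (z.2.1, s₀ z.1 + z.2.2)) : Cov)) (z₀ := z) hRc.continuousAt h1
    filter_upwards [hV] with w hw hw0
    rw [hrc, hrc]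
    have hzV := mem_of_mem_nhds hV
    have h3 := h2 w hw z hzV
    have h4 := h2 z hzV w hw
    simp only [Function.comp] at h3 h4
    rw [hw0, hz, add_zero, add_zero, (hs1 _).2.2, (hs1 _).2.2] at h3 h4
    rw [hw0, hz, add_zero, add_zero]
    exact le_antisymm (not_lt.mp fun h => lt_irrefl _ (h4.mp h))
      (not_lt.mp fun h => lt_irrefl _ (h3.mp h))
  · intro z hz c hc hzc
    rw [hrc] at hzc
    have h1 := hD.ord (z.1, (z.2.1, s₀ z.1 + z.2.2)) (hz0 z hz) c hc hzc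
    obtain ⟨V, hV, h2⟩ := OrdEq.comp_cont
      (R := fun z : Cov => ((z.1, (z.2.1, s₀ z.1 + z.2.2)) : Cov)) (z₀ := z) hRc.continuousAt h1
    have hW : {w : Cov | s₀ w.1 + w.2.2 ∈ Ioo (-δ) δ} ∈ 𝓝 z := by
      have h3 : Continuous fun w : Cov => s₀ w.1 + w.2.2 := by fun_prop
      exact (isOpen_Ioo.preimage h3).mem_nhds (hz0 z hz)
    refine ⟨V ∩ {w : Cov | s₀ w.1 + w.2.2 ∈ Ioo (-δ) δ}, inter_mem hV hW, ?_⟩
    rintro w ⟨hw, hwW⟩ w' ⟨hw', hwW'⟩ e1 _ hlt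
    rw [hrc, hrc]
    have h3 := h2 w hw w' hw'
    simp only [Function.comp] at h3
    rw [h3]
    have h4 : s₀ w.1 + w'.2.2 ∈ Ioo (-δ) δ := by
      rw [e1]
      exact hwW'
    rw [← e1]
    exact hD.mono w.1 hwW h4 (by linarith)

/-- the normal form -/
theorem low_tube_sgn {x : ℝ} (hL : LowSgn F N x) : ∃ P : ℝ, 0 < P * x ∧ TubeL F N P := by
  obtain ⟨s₀, P, hs, hPx, hP, hLC⟩ := low_leafCurve_sgn hL
  obtain ⟨σ, g, hc, hm, -, ht⟩ := exists_tube hLC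
  refine ⟨P, hPx, hL.emb, ?_, fun z => s₀ z.1 + σ z, g, ?_, ?_, ht⟩
  · rcases hP with rfl | rfl
    · exact one_ne_zero
    · exact neg_ne_zero.2 one_ne_zero
  · exact (hs.comp continuous_fst).add hc
  · intro θ s s' hss
    exact add_lt_add_right (hm θ hss) _

/-- the two sides -/
theorem HolSgn.sides {x : ℝ} (h : HolSgn F N x) :
    LowSgn F N x ∨ LowSgn (G.revF F) (flipN N) (-x) := by
  obtain ⟨emb, δ, Γ, f, hD, hx⟩ := h
  have h0 : f 0 = 0 := by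
    have h1 := hD.per 0 0 ⟨by linarith [hD.pos], hD.pos⟩
    rw [hD.zero, hD.zero] at h1
    exact h1.symm
  by_cases hlow : ∀ ε > 0, ∃ z ∈ Ioo (-ε) 0, 0 < x * (f z - z)
  · exact Or.inl ⟨emb, δ, Γ, f, hD, hlow⟩
  · right
    push Not at hlow
    obtain ⟨ε₀, hε₀, hlow⟩ := hlow
    obtain ⟨f', hf', hD'⟩ := hD.flip
    refine ⟨flip_emb emb, δ, _, f', hD', fun ε hε => ?_⟩
    obtain ⟨z, hz1, hz2⟩ := hx (min ε ε₀) (lt_min hε hε₀)
    have hx3 := abs_lt.1 (hz1.trans_le (min_le_left ε ε₀))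
    have hx4 := abs_lt.1 (hz1.trans_le (min_le_right ε ε₀))
    have hpos : 0 < z := by
      rcases lt_trichotomy z 0 with h1 | h1 | h1
      · have h2 := hlow z ⟨hx4.1, h1⟩
        linarith
      · rw [h1, h0, sub_zero, mul_zero] at hz2
        exact absurd hz2 (lt_irrefl _)
      · exact h1
    refine ⟨-z, ⟨by linarith [hx3.2], by linarith⟩, ?_⟩
    rw [hf', neg_neg]
    have e : -x * (-f z - -z) = x * (f z - z) := by ring
    rw [e]
    exact hz2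

theorem hol_tube_sgn {x : ℝ} (h : HolSgn F N x) :
    ∃ P : ℝ, (0 < P * x ∧ TubeL F N P) ∨ (P * x < 0 ∧ TubeL (G.revF F) (flipN N) P) := by
  rcases h.sides with h1 | h1
  · obtain ⟨P, hP⟩ := low_tube_sgn h1
    exact ⟨P, Or.inl hP⟩
  · obtain ⟨P, hP1, hP2⟩ := low_tube_sgn h1
    exact ⟨P, Or.inr ⟨by linarith, hP2⟩⟩

/-- **The drilling theorem, with signs.** -/
theorem drill_sgn {M M' : Type*} [TopologicalSpace M] [T2Space M] [TopologicalSpace M']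
    {J Λ : Type*} [Finite Λ] {T : G.Ended M J} {T' : G.Ended M' (J ⊕ Λ)} {F : Foliation M}
    (hF : F.Taut) {x y : J → ℝ} (hlin : G.Linear T F x y) {N : Λ → Cyl → M} {x' y' : Λ → ℝ}
    (hN : ∀ k, HolSgn F (N k) (x' k)) (hd : ∀ k l z w, N k z = N l w → k = l)
    (hend : ∀ k z j w, N k z ≠ T.tor j w) (D : Drill T N T') :
    ∃ F' : Foliation M', F'.Taut ∧ G.Linear T' F' (Sum.elim x x') (Sum.elim y y') := by
  classical
  choose P hP using fun k => hol_tube_sgn (hN k)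
  let q : Λ → Prop := fun k => 0 < P k * x' k ∧ TubeL F (N k) (P k)
  obtain ⟨T₁, D₁, N₂, T₂, D₂, hD₁, hN₂, hv, hp, hend₂, t1, t2, t3⟩ :=
    drill_split (fun k => (hN k).emb) hd hend D q
  obtain ⟨F₁, hF₁, hlin₁, hag₁⟩ := drill_low hF hlin
    (N := fun k : {k // q k} => N k.1) (P := fun k => P k.1) (fun k => k.2.2)
    (fun k l z w h => Subtype.ext (hd _ _ _ _ h)) (fun k z j w => hend k.1 z j w) D₁
    (fun k => x' k.1) (fun k => y' k.1) (fun k => k.2.1)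
  have hpv : ∀ y, D₁.p y = y.1 := fun y => by rw [hD₁]
  have hpN : ∀ k, (fun z => D₁.p (N₂ k z)) = N k.1 := fun k => by
    funext z
    rw [hpv, hv]
  have hag : ∀ (k : {k // ¬q k}) (z : Cyl), AgreeAt D₁.p F₁ F (N₂ k z) := by
    intro k z
    refine hag₁ _ fun l w h => ?_
    rw [hpv, hv] at h
    have h1 : k.1 = l.1 := hd _ _ _ _ h
    exact k.2 (h1 ▸ l.2)
  obtain ⟨F', hF', hlin', -⟩ := drill_up hF₁ hlin₁ (N := N₂) hN₂ (P := fun k => P k.1)
    (fun k => TubeL.pull_flip D₁.emb (hN₂ k) (hag k) (by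
      rw [hpN k]
      exact ((hP k.1).resolve_left k.2).2))
    (fun k l z w h => Subtype.ext (hd k.1 l.1 z w (by rw [← hv, ← hv, h]))) hend₂ D₂
    (fun k => x' k.1) (fun k => y' k.1) (fun k => ((hP k.1).resolve_left k.2).1)
  refine ⟨F', hF', ?_⟩
  rintro (j | k) z hz c hc hs
  · exact HK_lin hlin' (e := Sum.inl (Sum.inl j)) (t1 j) z hz c hc hs
  · by_cases hk : q k
    · exact HK_lin hlin' (e := Sum.inl (Sum.inr ⟨k, hk⟩)) (t2 ⟨k, hk⟩) z hz c hc hs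
    · exact HK_lin hlin' (e := Sum.inr ⟨k, hk⟩) (t3 ⟨k, hk⟩) z hz c hc hs

end Pool.Agent.H.MP_1611f1_gt.LS
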