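import Pool.Agent.H.MP_1611f1_gt.LG.Two
import Pool.Agent.H.MP_1611f1_gt.LG.SgnA
import Pool.Agent.H.MP_1611f1_gt.LS.LvD
import Pool.Agent.H.MP_1611f1_gt.G.Bun

/-!
Level curves in surface bundles (mapping tori with open ends), with the same crossings above and
below the level: the holonomy is linear.
-/

namespace Pool.Agent.H.MP_1611f1_gt.LG

open Topology Set Filter
open Pool.Agent.H.MP_1611f1_gt.G Pool.Agent.H.MP_1611f1_gt.LS

variable {S : Type*} [TopologicalSpace S] {J K : Type*} {E : Surf S J} {col : J → K} {L : J → ℕ}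
  {phi : S ≃ₜ S} {n : ℕ}

/-- a level curve `ν` at the integer level `i`, crossing only the system `e`, which does not move
at the level `i`; the crossings are the same before and after the level -/
structure LCv (A : Arcs E col L) (C : Chain A n phi) where
  i : ℤ
  e : Bool × K
  ina : ina i e
  ν : AddCircle (1 : ℝ) × ℝ → S
  emb : IsOpenEmbedding ν
  out : ∀ z j w, ν z ≠ E.collar j w
  lo : ∀ e', e' ≠ e → ∀ z, kap A e' (C.ψ (i - 1) (ν z)) = 0
  up : ∀ e', e' ≠ e → ∀ z, kap A e' (C.ψ i (ν z)) = 0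
  f : ℝ → ℝ
  f_cont : Continuous f
  deg : ℤ
  deg_ne : deg ≠ 0
  f_add : ∀ θ, f (θ + 1) = f θ + deg
  cross_lo : ∀ (θ u : ℝ), kap A e (C.ψ (i - 1) (ν ((θ : AddCircle (1 : ℝ)), u))) =
    ((f θ : ℝ) : AddCircle (1 : ℝ))
  cross_up : ∀ (θ u : ℝ), kap A e (C.ψ i (ν ((θ : AddCircle (1 : ℝ)), u))) =
    ((f θ : ℝ) : AddCircle (1 : ℝ))

variable {Y : Type*} [TopologicalSpace Y] {A : Arcs E col L} {C : Chain A n phi}

/-- the neighbourhood of the level curve -/
noncomputable def LCv.nbh (lc : LCv A C) (Fl : B.MTB E phi Y) (z : Cyl) : Y :=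
  B.PP Fl n (lc.ν (z.1, z.2.1), lc.i + tim z.2.2)

theorem lcv_emb (hn : 0 < n) (lc : LCv A C) (Fl : B.MTB E phi Y) :
    IsOpenEmbedding (lc.nbh Fl) := by
  have ht : ∀ s : ℝ, (lc.i : ℝ) + tim s ∈ Ioo ((lc.i : ℝ) - 1) (lc.i + 1) := by
    intro s
    have := tim_mem s
    rw [mem_Ioo] at this ⊢
    constructor <;> linarith [this.1, this.2]
  let G : Cyl → S × ℝ := (Prod.map lc.ν (fun s : ℝ => (lc.i : ℝ) + tim s)) ∘
    (Homeomorph.prodAssoc (AddCircle (1 : ℝ)) ℝ ℝ).symm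
  have hG : lc.nbh Fl = B.PP Fl n ∘ G := rfl
  have hGo : IsOpenMap G := by
    have h1 : IsOpenMap (fun s : ℝ => (lc.i : ℝ) + tim s) :=
      (Homeomorph.addLeft (lc.i : ℝ)).isOpenMap.comp tim_open
    exact (lc.emb.isOpenMap.prodMap h1).comp (Homeomorph.isOpenMap _)
  have hGc : Continuous G := by
    have h1 : Continuous (fun s : ℝ => (lc.i : ℝ) + tim s) := continuous_const.add tim_cont
    exact (lc.emb.continuous.prodMap h1).comp (Homeomorph.continuous _)
  apply IsOpenEmbedding.of_continuous_injective_isOpenMap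
  · rw [hG]
    exact (B.PP_cont Fl hn).comp hGc
  · intro z w h
    have hinj := B.PP_inj Fl hn (univ : Set S) (c := (lc.i : ℝ) - 1) (d := lc.i + 1) (by linarith)
    have h2 : ((lc.ν (z.1, z.2.1), lc.i + tim z.2.2) : S × ℝ) =
      (lc.ν (w.1, w.2.1), lc.i + tim w.2.2) :=
      hinj ⟨mem_univ _, ht _⟩ ⟨mem_univ _, ht _⟩ h
    rw [Prod.mk.injEq] at h2
    have h3 := lc.emb.injective h2.1
    rw [Prod.mk.injEq] at h3
    have h4 : z.2.2 = w.2.2 := tim_mono.injective (add_left_cancel h2.2)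
    exact Prod.ext h3.1 (Prod.ext h3.2 h4)
  · rw [hG]
    exact (B.PP_open Fl hn).comp hGo

theorem lcv_disj (hn : 0 < n) (Fl : B.MTB E phi Y) {Λ : Type*}
    (lc : Λ → LCv A C) (hi : ∀ k, 0 ≤ (lc k).i ∧ (lc k).i < 4 * n)
    (hd : ∀ k l z w, (lc k).i = (lc l).i → (lc k).ν z = (lc l).ν w → k = l) :
    ∀ k l z w, (lc k).nbh Fl z = (lc l).nbh Fl w → k = l := by
  intro k l z w h
  obtain ⟨m, h1, h2⟩ := (B.PP_eq Fl hn _ _ _ _).1 h
  have a1 := tim_mem z.2.2
  have a2 := tim_mem w.2.2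
  rw [mem_Ioo] at a1 a2
  have b1 : (0 : ℝ) ≤ (lc k).i := by exact_mod_cast (hi k).1
  have b2 : (0 : ℝ) ≤ (lc l).i := by exact_mod_cast (hi l).1
  have c1 : ((lc k).i : ℝ) + 1 ≤ 4 * n := by exact_mod_cast (hi k).2
  have c2 : ((lc l).i : ℝ) + 1 ≤ 4 * n := by exact_mod_cast (hi l).2
  have hn1 : (1 : ℝ) ≤ n := by exact_mod_cast hn
  have hm : m = 0 := by
    rcases lt_trichotomy m 0 with h3 | h3 | h3
    · have h4 : (m : ℝ) ≤ -1 := by exact_mod_cast (by omega : m ≤ -1)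
      have h5 : 4 * (n : ℝ) * m ≤ 4 * n * (-1) := mul_le_mul_of_nonneg_left h4 (by positivity)
      linarith [a1.1, a1.2, a2.1, a2.2]
    · exact h3
    · have h4 : (1 : ℝ) ≤ m := by exact_mod_cast h3
      have h5 : 4 * (n : ℝ) * 1 ≤ 4 * n * m := mul_le_mul_of_nonneg_left h4 (by positivity)
      linarith [a1.1, a1.2, a2.1, a2.2]
  subst hm
  rw [Int.cast_zero, mul_zero, add_zero] at h1
  have h3 : (lc k).i = (lc l).i := by
    have d1 : ((lc l).i : ℝ) < (lc k).i + 1 := by linarith [a1.1, a1.2, a2.1, a2.2]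
    have d2 : ((lc k).i : ℝ) < (lc l).i + 1 := by linarith [a1.1, a1.2, a2.1, a2.2]
    have e1 : (lc l).i < (lc k).i + 1 := by exact_mod_cast d1
    have e2 : (lc k).i < (lc l).i + 1 := by exact_mod_cast d2
    omega
  exact hd k l _ _ h3 h2

variable {σ : K → ℝ} (H : ∀ k, Hol (σ k))

theorem lcv_cont (lc : LCv A C) :
    Continuous (fun w : Cov => lc.ν ((w.1 : AddCircle (1 : ℝ)), w.2.1)) :=
  lc.emb.continuous.comp
    (((AddCircle.continuous_mk' (1 : ℝ)).comp continuous_fst).prodMk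
      (continuous_fst.comp continuous_snd))

/-- the charts of type I near the annulus -/
theorem lcv_chart [Finite J] [Finite K] (hn : 0 < n) (lc : LCv A C)
    (Fl : B.MTB E phi Y) {F : Foliation Y} (hF : F.charts = B.AllCharts Fl A H C)
    (z : Cov) : ∃ c ∈ F.charts, rc (lc.nbh Fl) z ∈ c.source ∧
      ∃ a b, Adm lc.i a b ∧ (a = none ∨ a = some lc.e) ∧ (b = none ∨ b = some lc.e) ∧
        lc.ν ((z.1 : AddCircle (1 : ℝ)), z.2.1) ∈ DD A C lc.i a b ∧
        ∀ᶠ w : Cov in 𝓝 z, lc.ν ((w.1 : AddCircle (1 : ℝ)), w.2.1) ∈ DD A C lc.i a b ∧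
          (c (rc (lc.nbh Fl) w)).2 =
            Fs A H C lc.i a b (lc.ν ((w.1 : AddCircle (1 : ℝ)), w.2.1)) (lc.i + tim w.2.2) := by
  have hout : lc.ν ((z.1 : AddCircle (1 : ℝ)), z.2.1) ∈ B.Out E := fun j w hw =>
    absurd hw (lc.out _ j w)
  obtain ⟨a, b, hab, hD⟩ := DD_cover A C lc.i (lc.ν ((z.1 : AddCircle (1 : ℝ)), z.2.1))
  have ha : a = none ∨ a = some lc.e := by
    rcases a with _ | e1
    · exact Or.inl rfl
    · right
      by_contra hne
      have h1 : kap A e1 (C.ψ (lc.i - 1) (lc.ν ((z.1 : AddCircle (1 : ℝ)), z.2.1))) ≠ 0 := hD.1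
      exact h1 (lc.lo e1 (fun he => hne (by rw [he])) _)
  have hb : b = none ∨ b = some lc.e := by
    rcases b with _ | e1
    · exact Or.inl rfl
    · right
      by_contra hne
      have h1 : kap A e1 (C.ψ lc.i (lc.ν ((z.1 : AddCircle (1 : ℝ)), z.2.1))) ≠ 0 := hD.2
      exact h1 (lc.up e1 (fun he => hne (by rw [he])) _)
  obtain ⟨ξ, hξ⟩ := E.flat (lc.ν ((z.1 : AddCircle (1 : ℝ)), z.2.1))
  obtain ⟨c, hc1, hc2, hc3⟩ := B.exI Fl A H C hn lc.i a b hab ξ
  have htim : ∀ s : ℝ, (lc.i : ℝ) + tim s ∈ Ioo ((lc.i : ℝ) - 1) (lc.i + 1) := by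
    intro s
    have h := tim_mem s
    exact ⟨by linarith [h.1], by linarith [h.2]⟩
  have hU : IsOpen (ξ.source ∩ B.Out E ∩ DD A C lc.i a b) :=
    (ξ.open_source.inter B.Out_open).inter (DD_open A C lc.i a b)
  refine ⟨c, ?_, ?_, a, b, hab, ha, hb, hD, ?_⟩
  · rw [hF]
    exact Or.inl hc1
  · rw [hc2]
    exact ⟨(lc.ν ((z.1 : AddCircle (1 : ℝ)), z.2.1), lc.i + tim z.2.2),
      ⟨⟨⟨hξ, hout⟩, hD⟩, htim _⟩, rfl⟩
  · have hev := (lcv_cont lc).continuousAt.eventually
      (hU.mem_nhds (show lc.ν ((z.1 : AddCircle (1 : ℝ)), z.2.1) ∈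
        ξ.source ∩ B.Out E ∩ DD A C lc.i a b from ⟨⟨hξ, hout⟩, hD⟩))
    filter_upwards [hev] with w hw
    exact ⟨hw.2, hc3 (lc.ν ((w.1 : AddCircle (1 : ℝ)), w.2.1), lc.i + tim w.2.2) ⟨hw, htim _⟩⟩

/-- the transverse function of one side, in terms of `wnd` -/
theorem lcv_side {i : ℤ} {e : Bool × K} {l ε : ℝ} (hl : 0 < l)
    (hlin : ∀ t ∈ Icc ((i : ℝ) - ε) (i + ε), (iso H e).symm t = i + (t - i) / l)
    {f : ℝ → ℝ} (hf : Continuous f) {g : Cov → S}
    (hg : ∀ w, kap A e (g w) = ((f w.1 : ℝ) : AddCircle (1 : ℝ)))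
    {a : Option (Bool × K)} (ha : a = none ∨ a = some e) {z : Cov} (hz : g z ∈ VV A a) :
    ∃ k : ℤ, ∀ᶠ w : Cov in 𝓝 z, ∀ t ∈ Icc ((i : ℝ) - ε) (i + ε),
      Fa A H a (g w) t = i + (t - i) * Real.exp (-(wnd l (f w.1) - k * Real.log l)) := by
  have hf' : Continuous (fun w : Cov => f w.1) := hf.comp continuous_fst
  rcases ha with rfl | rfl
  · have h1 : ‖kap A e (g z)‖ < 1 / 4 := hz e
    rw [hg, UnitAddCircle.norm_eq] at h1
    refine ⟨round (f z.1), ?_⟩
    have h2 : ∀ᶠ w : Cov in 𝓝 z, |f w.1 - round (f z.1)| < 1 / 4 := by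
      have hc : Continuous (fun w : Cov => |f w.1 - round (f z.1)|) :=
        (hf'.sub continuous_const).abs
      exact hc.continuousAt.eventually (isOpen_Iio.mem_nhds h1)
    filter_upwards [h2] with w hw2
    intro t ht
    rw [wnd_near hl (round (f z.1)) hw2, sub_self, neg_zero, Real.exp_zero, mul_one]
    show t = _
    ring
  · have h1 : kap A e (g z) ≠ 0 := hz
    rw [hg] at h1
    have h2 : Int.fract (f z.1) ≠ 0 := by
      intro h0
      apply h1
      have h3 := coe_lft ((f z.1 : ℝ) : AddCircle (1 : ℝ))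
      rw [LvD_lft, h0] at h3
      rw [← h3]
      rfl
    have h3 : 0 < Int.fract (f z.1) := lt_of_le_of_ne (Int.fract_nonneg _) (Ne.symm h2)
    refine ⟨⌊f z.1⌋, ?_⟩
    have h4 : ∀ᶠ w : Cov in 𝓝 z, f w.1 ∈ Ioo (⌊f z.1⌋ : ℝ) (⌊f z.1⌋ + 1) := by
      refine hf'.continuousAt.eventually (isOpen_Ioo.mem_nhds ⟨?_, Int.lt_floor_add_one _⟩)
      have h5 := Int.floor_add_fract (f z.1)
      linarith
    filter_upwards [h4] with w hw4
    intro t ht
    have hfl : ⌊f w.1⌋ = ⌊f z.1⌋ := Int.floor_eq_iff.2 ⟨hw4.1.le, hw4.2⟩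
    have hpos : 0 < (1 - chi (Int.fract (f w.1))) + chi (Int.fract (f w.1)) / l := by
      have c0 := chi_nonneg (Int.fract (f w.1))
      have c1 := chi_le_one (Int.fract (f w.1))
      rcases c1.lt_or_eq with hc | hc
      · have : 0 ≤ chi (Int.fract (f w.1)) / l := div_nonneg c0 hl.le
        linarith
      · rw [hc]
        have : 0 < 1 / l := one_div_pos.2 hl
        linarith
    show Fe (iso H e) (lft (kap A e (g w))) t = _
    rw [hg, LvD_lft]
    unfold Fe wnd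
    rw [hlin _ ht, hfl]
    have he : -((⌊f z.1⌋ : ℝ) * Real.log l - Real.log ((1 - chi (Int.fract (f w.1))) +
        chi (Int.fract (f w.1)) / l) - ⌊f z.1⌋ * Real.log l) =
        Real.log ((1 - chi (Int.fract (f w.1))) + chi (Int.fract (f w.1)) / l) := by ring
    rw [he, Real.exp_log hpos]
    ring

theorem lcv_tim_abs {s ε : ℝ} (h1 : -6 ≤ s) (h2 : |s| < 8 * ε) : |tim s| < ε := by
  rw [abs_lt] at h2 ⊢
  rcases le_total s 0 with h | h
  · rw [tim_mid h1 h]
    constructor <;> linarith [h2.1, h2.2]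
  · rw [LvB_pos h]
    have h3 : 0 ≤ s / (1 + s) := by positivity
    have h4 : s / (1 + s) ≤ s := by
      rw [div_le_iff₀ (by linarith)]
      nlinarith
    constructor <;> linarith [h2.1, h2.2]

/-- **Level curves have linear holonomy.** So every non-zero real number is possible at the new
end, with both signs. -/
theorem lcv_hol [Finite J] [Finite K] (hn : 0 < n) (lc : LCv A C)
    (Fl : B.MTB E phi Y) {F : Foliation Y} (hF : F.charts = B.AllCharts Fl A H C)
    {l : ℝ} (hl1 : l ≠ 1) (hl : LinTwo (iso H lc.e) lc.i l) {x : ℝ} (hx : x ≠ 0) :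
    HolSgn F (lc.nbh Fl) x := by
  obtain ⟨hli, ε, hε, hlin⟩ := Two_symm hl
  have hl0 : 0 < l := hl.1
  have hlin' : ∀ t ∈ Icc ((lc.i : ℝ) - ε) (lc.i + ε),
      (iso H lc.e).symm t = lc.i + (t - lc.i) / l := by
    intro t ht
    rw [hlin t ht]
    ring
  have hemb : IsOpenEmbedding (lc.nbh Fl) := lcv_emb hn lc Fl
  have htim0 : tim 0 = 0 := by
    rw [tim_mid (by norm_num) le_rfl, zero_div]
  have hlog : Real.log l ≠ 0 := Real.log_ne_zero_of_pos_of_ne_one hl0 hl1
  set cc : ℝ := Real.exp (-(lc.deg * Real.log l)) with hcc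
  have hcc0 : 0 < cc := Real.exp_pos _
  have hcc1 : cc ≠ 1 := by
    intro h
    rw [hcc, Real.exp_eq_one_iff, neg_eq_zero] at h
    rcases mul_eq_zero.1 h with h1 | h1
    · exact lc.deg_ne (by exact_mod_cast h1)
    · exact hlog h1
  refine ⟨hemb, min 6 (8 * ε), fun p => tim p.2 * Real.exp (-wnd l (lc.f p.1)),
    OrderIso.mulRight₀ cc hcc0, ⟨?_, ?_, ?_, ?_, ?_, ?_⟩, ?_⟩
  · exact lt_min (by norm_num) (by linarith)
  · refine Continuous.continuousOn ?_
    refine (tim_cont.comp continuous_snd).mul (Real.continuous_exp.comp ?_)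
    exact ((wnd_cont hl0).comp (lc.f_cont.comp continuous_fst)).neg
  · intro θ a ha b hb hab
    exact mul_lt_mul_of_pos_right (tim_mono hab) (Real.exp_pos _)
  · intro θ
    show tim 0 * _ = 0
    rw [htim0, zero_mul]
  · intro θ s _
    show tim s * Real.exp (-wnd l (lc.f (θ + 1))) = tim s * Real.exp (-wnd l (lc.f θ)) * cc
    rw [lc.f_add, wnd_add, hcc, mul_assoc, ← Real.exp_add]
    congr 2
    ring
  · intro z hz c₁ hc₁ hs₁
    obtain ⟨c, hc, hs, a, b, hab, ha, hb, hD, hev⟩ := lcv_chart H hn lc Fl hF z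
    have hz1 : -6 ≤ z.2.2 := by
      have := min_le_left (6 : ℝ) (8 * ε)
      linarith [hz.1]
    have hz2 : |z.2.2| < 8 * ε := by
      have h8 := min_le_right (6 : ℝ) (8 * ε)
      rw [abs_lt]
      constructor <;> linarith [hz.1, hz.2]
    have hz3 : |tim z.2.2| < ε := lcv_tim_abs hz1 hz2
    obtain ⟨ka, hka⟩ := lcv_side H hl0 hlin' lc.f_cont
      (g := fun w => C.ψ (lc.i - 1) (lc.ν ((w.1 : AddCircle (1 : ℝ)), w.2.1)))
      (fun w => lc.cross_lo _ _) ha (z := z) hD.1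
    obtain ⟨kb, hkb⟩ := lcv_side H hl0 hlin' lc.f_cont
      (g := fun w => C.ψ lc.i (lc.ν ((w.1 : AddCircle (1 : ℝ)), w.2.1)))
      (fun w => lc.cross_up _ _) hb (z := z) hD.2
    have h1 : OrdEq (rc (lc.nbh Fl) z) (fun y => (c₁ y).2) (fun y => (c y).2) :=
      F.compat c₁ hc₁ c hc _ hs₁ hs
    have h2 : OrdEq z (fun w => (c₁ (rc (lc.nbh Fl) w)).2) (fun w => (c (rc (lc.nbh Fl) w)).2) :=
      OrdEq.comp_cont (R := rc (lc.nbh Fl)) (rc_cont hemb).continuousAt h1
    refine h2.trans ?_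
    have hφ : StrictMono fun x : ℝ => (lc.i : ℝ) +
        if x ≤ 0 then x * Real.exp (ka * Real.log l) else x * Real.exp (kb * Real.log l) := by
      intro x y hxy
      have p1 := Real.exp_pos (ka * Real.log l)
      have p2 := Real.exp_pos (kb * Real.log l)
      show (lc.i : ℝ) + _ < (lc.i : ℝ) + _
      by_cases hx0 : x ≤ 0
      · by_cases hy0 : y ≤ 0
        · rw [if_pos hx0, if_pos hy0]
          nlinarith
        · rw [if_pos hx0, if_neg hy0]
          have q1 : x * Real.exp (ka * Real.log l) ≤ 0 := mul_nonpos_of_nonpos_of_nonneg hx0 p1.le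
          have q2 : 0 < y * Real.exp (kb * Real.log l) := mul_pos (not_le.1 hy0) p2
          linarith
      · have hy0 : ¬ y ≤ 0 := fun h => hx0 (hxy.le.trans h)
        rw [if_neg hx0, if_neg hy0]
        nlinarith
    refine (OrdEq.of_comp (fun x : ℝ => (lc.i : ℝ) +
        if x ≤ 0 then x * Real.exp (ka * Real.log l) else x * Real.exp (kb * Real.log l))
        (fun x y hxy => hφ hxy) ?_).symm
    have hab' : ∀ᶠ w : Cov in 𝓝 z, |tim w.2.2| < ε := by
      have hcw : Continuous (fun w : Cov => |tim w.2.2|) :=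
        (tim_cont.comp (continuous_snd.comp continuous_snd)).abs
      exact hcw.continuousAt.eventually (isOpen_Iio.mem_nhds hz3)
    filter_upwards [hev, hka, hkb, hab'] with w hw1 hwa hwb hw3
    rw [abs_lt] at hw3
    have hmem : (lc.i : ℝ) + tim w.2.2 ∈ Icc ((lc.i : ℝ) - ε) (lc.i + ε) :=
      ⟨by linarith [hw3.1], by linarith [hw3.2]⟩
    rw [hw1.2]
    show _ = (lc.i : ℝ) + if tim w.2.2 * Real.exp (-wnd l (lc.f w.1)) ≤ 0 then
      tim w.2.2 * Real.exp (-wnd l (lc.f w.1)) * Real.exp (ka * Real.log l) else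
      tim w.2.2 * Real.exp (-wnd l (lc.f w.1)) * Real.exp (kb * Real.log l)
    have hE := Real.exp_pos (-wnd l (lc.f w.1))
    by_cases ht : tim w.2.2 ≤ 0
    · rw [if_pos (mul_nonpos_of_nonpos_of_nonneg ht hE.le), Fs_le A H C (by linarith),
        hwa _ hmem, mul_assoc, ← Real.exp_add]
      congr 2
      · ring
      · congr 1
        ring
    · have ht' := not_le.1 ht
      rw [if_neg (not_le.2 (mul_pos ht' hE)), Fs_ge A H C hab hw1.1 (by linarith),
        hwb _ hmem, mul_assoc, ← Real.exp_add]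
      congr 2
      · ring
      · congr 1
        ring
  · intro ε' hε'
    have hx1 : x * (cc - 1) ≠ 0 := mul_ne_zero hx (sub_ne_zero.2 hcc1)
    rcases lt_or_gt_of_ne hx1 with h | h
    · refine ⟨-(ε' / 2), ?_, ?_⟩
      · rw [abs_neg, abs_of_pos (by linarith)]
        linarith
      · show 0 < x * (-(ε' / 2) * cc - -(ε' / 2))
        have e1 : x * (-(ε' / 2) * cc - -(ε' / 2)) = -(x * (cc - 1)) * (ε' / 2) := by ring
        rw [e1]
        exact mul_pos (by linarith) (by linarith)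
    · refine ⟨ε' / 2, ?_, ?_⟩
      · rw [abs_of_pos (by linarith)]
        linarith
      · show 0 < x * (ε' / 2 * cc - ε' / 2)
        have e1 : x * (ε' / 2 * cc - ε' / 2) = x * (cc - 1) * (ε' / 2) := by ring
        rw [e1]
        exact mul_pos h (by linarith)

end Pool.Agent.H.MP_1611f1_gt.LG
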