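import Pool.Agent.H.MP_1611f1_gt.LG.Two

/-!
Increasing homeomorphisms of the line with prescribed germs.
-/

namespace Pool.Agent.H.MP_1611f1_gt.LG

open Topology Set Filter
open Pool.Agent.H.MP_1611f1_gt.LS

/-- two increasing homeomorphisms which agree at `c` can be glued -/
theorem exists_glue (f g : ℝ ≃o ℝ) (c : ℝ) (h : f c = g c) :
    ∃ e : ℝ ≃o ℝ, (∀ x ≤ c, e x = f x) ∧ ∀ x, c ≤ x → e x = g x := by
  classical
  let φ : ℝ → ℝ := fun x => if x ≤ c then f x else g x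
  have h1 : ∀ x ≤ c, φ x = f x := fun x hx => if_pos hx
  have h2 : ∀ x, c ≤ x → φ x = g x := by
    intro x hx
    rcases hx.eq_or_lt with rfl | hx
    · rw [h1 _ le_rfl, h]
    · exact if_neg (not_le.2 hx)
  have hm : StrictMono φ := by
    intro x y hxy
    rcases le_total y c with hy | hy
    · rw [h1 x (hxy.le.trans hy), h1 y hy]
      exact f.strictMono hxy
    · rcases le_total x c with hx | hx
      · rw [h1 x hx, h2 y hy]
        rcases hx.eq_or_lt with rfl | hx'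
        · rw [h]
          exact g.strictMono hxy
        · calc f x < f c := f.strictMono hx'
            _ = g c := h
            _ ≤ g y := g.monotone hy
      · rw [h2 x hx, h2 y hy]
        exact g.strictMono hxy
  have hs : Function.Surjective φ := by
    intro y
    rcases le_total y (f c) with hy | hy
    · refine ⟨f.symm y, ?_⟩
      rw [h1 _ (by rw [OrderIso.symm_apply_le]; exact hy), OrderIso.apply_symm_apply]
    · refine ⟨g.symm y, ?_⟩
      rw [h2 _ (by rw [OrderIso.le_symm_apply, ← h]; exact hy), OrderIso.apply_symm_apply]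
  exact ⟨StrictMono.orderIsoOfSurjective φ hm hs, h1, h2⟩

/-- the affine map of slope `s > 0` with the value `q` at `p` -/
theorem exists_affine (p q s : ℝ) (hs : 0 < s) : ∃ e : ℝ ≃o ℝ, ∀ x, e x = q + s * (x - p) := by
  refine ⟨((OrderIso.addRight (-p)).trans (OrderIso.mulRight₀ s hs)).trans (OrderIso.addRight q),
    fun x => ?_⟩
  show (x + -p) * s + q = _
  ring

/-- every germ at `0` can be cut off -/
theorem exists_cut (φ : ℝ ≃o ℝ) (h0 : φ 0 = 0) (R : ℝ) (hR : 0 < R) :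
    ∃ δ > 0, δ < R ∧ ∃ ψ : ℝ ≃o ℝ, (∀ x, |x| ≤ δ → ψ x = φ x) ∧ ∀ x, R ≤ |x| → ψ x = x := by
  have hc : ContinuousAt (fun x => φ x) 0 := φ.continuous.continuousAt
  obtain ⟨δ₀, hδ₀, h1⟩ := Metric.continuousAt_iff.1 hc R hR
  simp only [h0, Real.dist_eq, sub_zero] at h1
  obtain ⟨δ, hδ, hδ1, hδ2⟩ : ∃ δ > 0, δ < R ∧ δ < δ₀ :=
    ⟨min R δ₀ / 2, by positivity, by
      have := min_le_left R δ₀
      linarith [lt_min hR hδ₀], by
      have := min_le_right R δ₀
      linarith [lt_min hR hδ₀]⟩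
  have hp : |φ δ| < R := h1 (by rw [abs_of_pos hδ]; exact hδ2)
  have hm : |φ (-δ)| < R := h1 (by rw [abs_neg, abs_of_pos hδ]; exact hδ2)
  rw [abs_lt] at hp hm
  obtain ⟨a1, ha1⟩ := exists_affine δ (φ δ) ((R - φ δ) / (R - δ))
    (div_pos (by linarith) (by linarith))
  obtain ⟨a2, ha2⟩ := exists_affine (-δ) (φ (-δ)) ((R + φ (-δ)) / (R - δ))
    (div_pos (by linarith) (by linarith))
  have hRδ : R - δ ≠ 0 := by linarith
  obtain ⟨e1, b1, c1⟩ := exists_glue (OrderIso.refl ℝ) a2 (-R) (by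
    rw [ha2]
    show -R = _
    field_simp
    ring)
  obtain ⟨e2, b2, c2⟩ := exists_glue e1 φ (-δ) (by
    rw [c1 _ (by linarith), ha2]
    ring)
  obtain ⟨e3, b3, c3⟩ := exists_glue e2 a1 δ (by
    rw [c2 _ (by linarith), ha1]
    ring)
  obtain ⟨e4, b4, c4⟩ := exists_glue e3 (OrderIso.refl ℝ) R (by
    rw [c3 _ (by linarith), ha1]
    show _ = R
    field_simp
    ring)
  refine ⟨δ, hδ, hδ1, e4, fun x hx => ?_, fun x hx => ?_⟩
  · rw [abs_le] at hx
    rw [b4 x (by linarith [hx.2]), b3 x hx.2, c2 x hx.1]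
  · rcases le_abs.1 hx with h | h
    · rw [c4 x h]
      rfl
    · rw [b4 x (by linarith), b3 x (by linarith), b2 x (by linarith), b1 x (by linarith)]
      rfl

theorem iso_interval {ψ : ℝ ≃o ℝ} {R : ℝ} (h1 : ψ R = R) (h2 : ψ (-R) = -R) {x : ℝ}
    (hx : |x| ≤ R) : |ψ x| ≤ R := by
  rw [abs_le] at hx ⊢
  constructor
  · rw [← h2]
    exact ψ.monotone hx.1
  · rw [← h1]
    exact ψ.monotone hx.2

/-- a homeomorphism with the linear germs of slope `l` at `± η`, the identity near `0` and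
for `|x| ≥ 2 η` -/
theorem exists_rho (η l : ℝ) (hη : 0 < η) (hl : 0 < l) :
    ∃ ρ : ℝ ≃o ℝ, ρ 0 = 0 ∧ (∀ x, 2 * η ≤ |x| → ρ x = x) ∧ LinTwo ρ η l ∧ LinTwo ρ (-η) l := by
  obtain ⟨δ, hδ, hδη, ψ, h1, h2⟩ := exists_cut (OrderIso.mulRight₀ l hl)
    (by show (0 : ℝ) * l = 0; ring) (η / 2) (by linarith)
  have hψ : ∀ x, |x| ≤ δ → ψ x = l * x := by
    intro x hx
    rw [h1 x hx]
    show x * l = l * x
    ring
  let u : ℝ ≃o ℝ := OneA_conj ψ η
  let v : ℝ ≃o ℝ := OneA_conj ψ (-η)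
  have hu : ∀ x, u x = ψ (x - η) + η := fun x => OneA_conj_apply _ _ _
  have hv : ∀ x, v x = ψ (x - -η) + -η := fun x => OneA_conj_apply _ _ _
  have hid : ∀ x, η / 2 ≤ |x| → ψ x = x := h2
  have hup : ∀ x, η / 2 ≤ |x - η| → u x = x := by
    intro x hx
    rw [hu, hid _ hx]
    ring
  have hvp : ∀ x, η / 2 ≤ |x + η| → v x = x := by
    intro x hx
    rw [hv, hid _ (by rw [sub_neg_eq_add]; exact hx)]
    ring
  refine ⟨v.trans u, ?_, fun x hx => ?_, ?_, ?_⟩
  · rw [OrderIso.trans_apply, hvp 0 (by rw [zero_add, abs_of_pos hη]; linarith),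
      hup 0 (by rw [zero_sub, abs_neg, abs_of_pos hη]; linarith)]
  · have ha : η / 2 ≤ |x + η| := by
      have := abs_sub_abs_le_abs_sub x (-η)
      rw [sub_neg_eq_add, abs_neg, abs_of_pos hη] at this
      linarith
    have hb : η / 2 ≤ |x - η| := by
      have := abs_sub_abs_le_abs_sub x η
      rw [abs_of_pos hη] at this
      linarith
    rw [OrderIso.trans_apply, hvp x ha, hup x hb]
  · refine ⟨hl, δ, hδ, fun t ht => ?_⟩
    have ht' : |t - η| ≤ δ := abs_le.2 ⟨by linarith [ht.1], by linarith [ht.2]⟩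
    rw [OrderIso.trans_apply, hvp t (by
      rw [abs_of_pos (by linarith [ht.1])]
      linarith [ht.1]), hu, hψ _ ht']
    ring
  · refine ⟨hl, δ, hδ, fun t ht => ?_⟩
    have ht' : |t + η| ≤ δ := abs_le.2 ⟨by linarith [ht.1], by linarith [ht.2]⟩
    have e1 : v t = -η + l * (t - -η) := by
      rw [hv, hψ _ (by rw [sub_neg_eq_add]; exact ht')]
      ring
    have e2 : |ψ (t - -η)| ≤ η / 2 := by
      refine iso_interval (h2 _ (le_abs_self _)) (h2 _ ?_) ?_
      · rw [abs_neg]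
        exact le_abs_self _
      · rw [sub_neg_eq_add]
        linarith
    rw [OrderIso.trans_apply, hup, e1]
    rw [hv]
    rw [abs_le] at e2
    rw [abs_of_neg (by linarith [e2.2])]
    linarith [e2.2]

/-- gluing of homeomorphisms supported near the even integers -/
theorem exists_cblock (g : ℤ → (ℝ ≃o ℝ)) (hg : ∀ m, g m 1 = 1 ∧ g m (-1) = -1) :
    ∃ a : ℝ ≃o ℝ, ∀ (m : ℤ) (x : ℝ), |x| ≤ 1 → a (2 * m + x) = 2 * m + g m x := by
  let F : ℤ → (ℝ ≃o ℝ) := fun m => OneA_conj (g m) (2 * m + 1)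
  have hF : ∀ m t, F m t = g m (t - (2 * m + 1)) + (2 * m + 1) := fun m t =>
    OneA_conj_apply _ _ _
  obtain ⟨A, hA⟩ := exists_blockIso F
    (fun m => by
      rw [hF, show (2 * (m : ℝ) - (2 * m + 1)) = -1 by ring, (hg m).2]
      ring)
    (fun m => by
      rw [hF, show (2 * (m : ℝ) + 2 - (2 * m + 1)) = 1 by ring, (hg m).1]
      ring)
  refine ⟨OneA_conj A (-1), fun m x hx => ?_⟩
  rw [abs_le] at hx
  rw [OneA_conj_apply, hA m _ ⟨by linarith [hx.1], by linarith [hx.2]⟩, hF]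
  have e1 : 2 * (m : ℝ) + x - -1 - (2 * m + 1) = x := by ring
  rw [e1]
  ring

/-- every real number is `2 m + x` with `|x| ≤ 1` -/
theorem exists_near (t : ℝ) : ∃ (m : ℤ) (x : ℝ), |x| ≤ 1 ∧ t = 2 * m + x := by
  refine ⟨round (t / 2), t - 2 * round (t / 2), ?_, by ring⟩
  have h := abs_sub_round (t / 2)
  rw [abs_le] at h ⊢
  constructor <;> linarith [h.1, h.2]

end Pool.Agent.H.MP_1611f1_gt.LG
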