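import Pool.Agent.H.MP_1611f1_gt.LG.OneE

/-!
Homeomorphisms commuting with a given one, with prescribed germs.
-/

namespace Pool.Agent.H.MP_1611f1_gt.LG

open Topology Set Filter
open Pool.Agent.H.MP_1611f1_gt.LS

/-- the powers of an increasing homeomorphism -/
def zp (B : ℝ ≃o ℝ) (k : ℤ) : ℝ ≃ ℝ := (B.toEquiv : Equiv.Perm ℝ) ^ k

theorem zp_zero (B : ℝ ≃o ℝ) (t : ℝ) : zp B 0 t = t := rfl

theorem zp_add (B : ℝ ≃o ℝ) (j k : ℤ) (t : ℝ) : zp B (j + k) t = zp B j (zp B k t) := by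
  unfold zp
  rw [zpow_add]
  rfl

theorem zp_one (B : ℝ ≃o ℝ) (t : ℝ) : zp B 1 t = B t := by
  unfold zp
  rw [zpow_one]
  rfl

theorem zp_neg_one (B : ℝ ≃o ℝ) (t : ℝ) : zp B (-1) t = B.symm t := by
  have h := zp_add B 1 (-1) t
  rw [add_neg_cancel, zp_zero, zp_one] at h
  rw [eq_comm, OrderIso.symm_apply_eq]
  exact h

theorem zp_neg (B : ℝ ≃o ℝ) (k : ℤ) (t : ℝ) : zp B (-k) (zp B k t) = t := by
  rw [← zp_add, neg_add_cancel, zp_zero]

theorem zp_neg' (B : ℝ ≃o ℝ) (k : ℤ) (t : ℝ) : zp B k (zp B (-k) t) = t := by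
  rw [← zp_add, add_neg_cancel, zp_zero]

theorem zp_induct (B : ℝ ≃o ℝ) {p : (ℝ → ℝ) → Prop} (h0 : p id)
    (h1 : ∀ f : ℝ → ℝ, p f → p fun t => B (f t)) (h2 : ∀ f : ℝ → ℝ, p f → p fun t => B.symm (f t))
    (k : ℤ) : p fun t => zp B k t := by
  induction k using Int.induction_on with
  | zero => exact h0
  | succ k ih =>
    have := h1 _ ih
    have e : (fun t => zp B (k + 1) t) = fun t => B (zp B k t) := by
      funext t
      rw [add_comm, zp_add, zp_one]
    rwa [e]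
  | pred k ih =>
    have := h2 _ ih
    have e : (fun t => zp B (-k - 1) t) = fun t => B.symm (zp B (-k) t) := by
      funext t
      rw [sub_eq_add_neg, add_comm, zp_add, zp_neg_one]
    rwa [e]

theorem zp_mono (B : ℝ ≃o ℝ) (k : ℤ) : StrictMono fun t => zp B k t :=
  zp_induct B (p := fun f => StrictMono f) strictMono_id
    (fun _ hf => B.strictMono.comp hf) (fun _ hf => B.symm.strictMono.comp hf) k

theorem zp_four {B : ℝ ≃o ℝ} (B4 : ∀ t, B (t + 4) = B t + 4) (k : ℤ) (t : ℝ) :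
    zp B k (t + 4) = zp B k t + 4 := by
  refine zp_induct B (p := fun f => ∀ t, f (t + 4) = f t + 4) (fun t => rfl) (fun f hf t => ?_)
    (fun f hf t => ?_) k t
  · show B (f (t + 4)) = B (f t) + 4
    rw [hf, B4]
  · show B.symm (f (t + 4)) = B.symm (f t) + 4
    rw [OrderIso.symm_apply_eq, B4, OrderIso.apply_symm_apply, hf]

theorem zp_fix {B : ℝ ≃o ℝ} {c : ℝ} (hc : B c = c) (k : ℤ) : zp B k c = c := by
  refine zp_induct B (p := fun f => f c = c) rfl (fun f hf => ?_) (fun f hf => ?_) k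
  · show B (f c) = c
    rw [hf, hc]
  · show B.symm (f c) = c
    rw [hf, OrderIso.symm_apply_eq, hc]

/-- the neighbourhoods of the even integers -/
def Nb (η : ℝ) : Set ℝ := {t | ∃ m : ℤ, |t - 2 * m| < η}

section

variable {B : ℝ ≃o ℝ} {η : ℝ}

/-- the intervals are disjoint from their images -/
theorem nb_unique (Bfix : ∀ m : ℤ, B (2 * m + 1) = 2 * m + 1) (h1 : η ≤ 1)
    (hmv : ∀ m : ℤ, 2 * m + η < B (2 * m - η) ∨ B (2 * m + η) < 2 * m - η) {t : ℝ} {k : ℤ}
    (ht : t ∈ Nb η) (hk : zp B k t ∈ Nb η) : k = 0 := by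
  obtain ⟨m, hm⟩ := ht
  obtain ⟨m', hm'⟩ := hk
  rw [abs_lt] at hm hm'
  have e1 := zp_fix (Bfix m) k
  have e2 := zp_fix (Bfix (m - 1)) k
  push_cast at e2
  have b1 : zp B k t < 2 * m + 1 := by
    rw [← e1]
    exact zp_mono B k (by linarith [hm.2])
  have b2 : 2 * ((m : ℝ) - 1) + 1 < zp B k t := by
    rw [← e2]
    exact zp_mono B k (by linarith [hm.1])
  have hmm : m' = m := by
    have c1 : (m' : ℝ) < m + 1 := by linarith [hm'.1]
    have c2 : (m : ℝ) < m' + 1 := by linarith [hm'.2]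
    have d1 : m' < m + 1 := by exact_mod_cast c1
    have d2 : m < m' + 1 := by exact_mod_cast c2
    omega
  subst hmm
  -- iterates of a point of the interval leave the interval
  have up : ∀ n : ℕ, 2 * (m' : ℝ) + η < B (2 * m' - η) → ∀ s, 2 * (m' : ℝ) - η < s →
      2 * (m' : ℝ) + η < zp B (n + 1) s := by
    intro n hB
    induction n with
    | zero =>
      intro s hs
      rw [Nat.cast_zero, zero_add, zp_one]
      exact hB.trans (B.strictMono hs)
    | succ n ih =>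
      intro s hs
      rw [show (((n + 1 : ℕ) : ℤ) + 1) = 1 + ((n : ℤ) + 1) by push_cast; ring, zp_add, zp_one]
      refine hB.trans (B.strictMono ?_)
      have := ih s hs
      by_contra hcon
      have h0 : η ≤ 0 := by linarith [not_lt.1 hcon]
      linarith [hm.1, hm.2]
  have dn : ∀ n : ℕ, B (2 * m' + η) < 2 * (m' : ℝ) - η → ∀ s, s < 2 * (m' : ℝ) + η →
      zp B (n + 1) s < 2 * (m' : ℝ) - η := by
    intro n hB
    induction n with
    | zero =>
      intro s hs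
      rw [Nat.cast_zero, zero_add, zp_one]
      exact (B.strictMono hs).trans hB
    | succ n ih =>
      intro s hs
      rw [show (((n + 1 : ℕ) : ℤ) + 1) = 1 + ((n : ℤ) + 1) by push_cast; ring, zp_add, zp_one]
      refine (B.strictMono ?_).trans hB
      have := ih s hs
      by_contra hcon
      have h0 : η ≤ 0 := by linarith [not_lt.1 hcon]
      linarith [hm.1, hm.2]
  rcases lt_trichotomy k 0 with h | h | h
  · obtain ⟨n, hn⟩ : ∃ n : ℕ, -k = n + 1 := ⟨(-k - 1).toNat, by omega⟩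
    have e3 : zp B (n + 1) (zp B k t) = t := by
      rw [← hn, zp_neg]
    rcases hmv m' with hB | hB
    · have := up n hB (zp B k t) (by linarith [hm'.1])
      rw [e3] at this
      linarith [hm.2]
    · have := dn n hB (zp B k t) (by linarith [hm'.2])
      rw [e3] at this
      linarith [hm.1]
  · exact h
  · obtain ⟨n, hn⟩ : ∃ n : ℕ, k = n + 1 := ⟨(k - 1).toNat, by omega⟩
    rw [hn] at hm'
    rcases hmv m' with hB | hB
    · have := up n hB t (by linarith [hm.1])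
      linarith [hm'.2]
    · have := dn n hB t (by linarith [hm.2])
      linarith [hm'.1]

theorem nb_unique' (Bfix : ∀ m : ℤ, B (2 * m + 1) = 2 * m + 1) (h1 : η ≤ 1)
    (hmv : ∀ m : ℤ, 2 * m + η < B (2 * m - η) ∨ B (2 * m + η) < 2 * m - η) {t : ℝ} {j k : ℤ}
    (hj : zp B j t ∈ Nb η) (hk : zp B k t ∈ Nb η) : j = k := by
  have h := nb_unique Bfix h1 hmv (k := k - j) hj (by
    rw [← zp_add, sub_add_cancel]
    exact hk)
  omega

open Classical in
/-- the extension of `a` -/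
noncomputable def ext (B : ℝ ≃o ℝ) (η : ℝ) (a : ℝ → ℝ) (t : ℝ) : ℝ :=
  if h : ∃ k : ℤ, zp B k t ∈ Nb η then zp B (-h.choose) (a (zp B h.choose t)) else t

theorem ext_in (Bfix : ∀ m : ℤ, B (2 * m + 1) = 2 * m + 1) (h1 : η ≤ 1)
    (hmv : ∀ m : ℤ, 2 * m + η < B (2 * m - η) ∨ B (2 * m + η) < 2 * m - η) (a : ℝ → ℝ) {t : ℝ}
    {k : ℤ} (hk : zp B k t ∈ Nb η) : ext B η a t = zp B (-k) (a (zp B k t)) := by
  have h : ∃ k : ℤ, zp B k t ∈ Nb η := ⟨k, hk⟩
  unfold ext
  rw [dif_pos h]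
  have e := nb_unique' Bfix h1 hmv h.choose_spec hk
  rw [e]

theorem ext_out (a : ℝ → ℝ) {t : ℝ} (h : ¬ ∃ k : ℤ, zp B k t ∈ Nb η) : ext B η a t = t := by
  unfold ext
  rw [dif_neg h]

/-- `a` preserves its support -/
theorem supp_in {a : ℝ ≃o ℝ} (hs : ∀ t, t ∉ Nb η → a t = t) {t : ℝ} (ht : t ∈ Nb η) :
    a t ∈ Nb η := by
  by_contra h
  have h1 := hs _ h
  have h2 := a.injective h1
  rw [h2] at h
  exact h ht

theorem comm_ext (B4 : ∀ t, B (t + 4) = B t + 4) (Bfix : ∀ m : ℤ, B (2 * m + 1) = 2 * m + 1)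
    (h1 : η ≤ 1) (hmv : ∀ m : ℤ, 2 * m + η < B (2 * m - η) ∨ B (2 * m + η) < 2 * m - η)
    (a : ℝ ≃o ℝ) (a4 : ∀ t, a (t + 4) = a t + 4) (hs : ∀ t, t ∉ Nb η → a t = t) :
    ∃ α : ℝ ≃o ℝ, (∀ t, α (B t) = B (α t)) ∧ (∀ t, α (t + 4) = α t + 4) ∧
      (∀ t ∈ Nb η, α t = a t) ∧ ∀ t, (∀ k : ℤ, zp B k t ∉ Nb η) → α t = t := by
  have hs' : ∀ t, t ∉ Nb η → a.symm t = t := fun t ht => by
    rw [OrderIso.symm_apply_eq, hs t ht]
  have inv : ∀ (b c : ℝ ≃o ℝ), (∀ t, t ∉ Nb η → b t = t) → (∀ t, c (b t) = t) →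
      ∀ t, ext B η c (ext B η b t) = t := by
    intro b c hb hcb t
    by_cases h : ∃ k : ℤ, zp B k t ∈ Nb η
    · obtain ⟨k, hk⟩ := h
      rw [ext_in Bfix h1 hmv b hk]
      have h2 : zp B k (zp B (-k) (b (zp B k t))) ∈ Nb η := by
        rw [zp_neg']
        exact supp_in hb hk
      rw [ext_in Bfix h1 hmv c h2, zp_neg', hcb, zp_neg]
    · rw [ext_out b h, ext_out c h]
  have key : ∀ (k : ℤ) (t : ℝ), (∃ j : ℤ, j ≠ k ∧ zp B j t ∈ Nb η) ∨ (¬ ∃ j : ℤ, zp B j t ∈ Nb η) →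
      zp B (-k) (a (zp B k t)) = t := by
    intro k t h
    have h2 : zp B k t ∉ Nb η := by
      intro hk
      rcases h with ⟨j, hj, hj2⟩ | h
      · exact hj (nb_unique' Bfix h1 hmv hj2 hk)
      · exact h ⟨k, hk⟩
    rw [hs _ h2, zp_neg]
  have mono : StrictMono (ext B η a) := by
    have mk : ∀ k : ℤ, StrictMono fun t => zp B (-k) (a (zp B k t)) := fun k =>
      (zp_mono B (-k)).comp (a.strictMono.comp (zp_mono B k))
    intro t t' htt
    by_cases h : ∃ k : ℤ, zp B k t ∈ Nb η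
    · obtain ⟨k, hk⟩ := h
      by_cases h' : ∃ k : ℤ, zp B k t' ∈ Nb η
      · obtain ⟨k', hk'⟩ := h'
        rw [ext_in Bfix h1 hmv a hk, ext_in Bfix h1 hmv a hk']
        by_cases hkk : k' = k
        · subst hkk
          exact mk _ htt
        · have e1 := mk k htt
          simp only at e1
          rw [key k t' (Or.inl ⟨k', hkk, hk'⟩)] at e1
          have e2 := mk k' e1
          simp only at e2
          rwa [key k' (zp B (-k) (a (zp B k t))) (Or.inl ⟨k, Ne.symm hkk, by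
            rw [zp_neg']
            exact supp_in hs hk⟩)] at e2
      · rw [ext_in Bfix h1 hmv a hk, ext_out _ h']
        have e1 := mk k htt
        simp only at e1
        rwa [key k t' (Or.inr h')] at e1
    · by_cases h' : ∃ k : ℤ, zp B k t' ∈ Nb η
      · obtain ⟨k', hk'⟩ := h'
        rw [ext_out _ h, ext_in Bfix h1 hmv a hk']
        have e1 := mk k' htt
        simp only at e1
        rwa [key k' t (Or.inr h)] at e1
      · rw [ext_out _ h, ext_out _ h']
        exact htt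
  have surj : Function.Surjective (ext B η a) := fun t =>
    ⟨ext B η a.symm t, inv a.symm a hs' (fun t => a.apply_symm_apply t) t⟩
  refine ⟨StrictMono.orderIsoOfSurjective _ mono surj, ?_, ?_, ?_, ?_⟩
  · intro t
    show ext B η a (B t) = B (ext B η a t)
    by_cases h : ∃ k : ℤ, zp B k t ∈ Nb η
    · obtain ⟨k, hk⟩ := h
      have e1 : zp B (k - 1) (B t) = zp B k t := by
        rw [← zp_one B t, ← zp_add, sub_add_cancel]
      rw [ext_in Bfix h1 hmv a (k := k - 1) (by rw [e1]; exact hk), ext_in Bfix h1 hmv a hk, e1,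
        ← zp_one B, ← zp_add]
      congr 1
      rw [neg_sub, sub_eq_add_neg]
    · have h' : ¬ ∃ k : ℤ, zp B k (B t) ∈ Nb η := by
        rintro ⟨k, hk⟩
        refine h ⟨k + 1, ?_⟩
        rw [zp_add, zp_one]
        exact hk
      rw [ext_out _ h, ext_out _ h']
  · intro t
    show ext B η a (t + 4) = ext B η a t + 4
    have hN : ∀ s : ℝ, s ∈ Nb η → s + 4 ∈ Nb η := by
      rintro s ⟨m, hm⟩
      refine ⟨m + 2, ?_⟩
      push_cast
      rw [show s + 4 - 2 * ((m : ℝ) + 2) = s - 2 * m by ring]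
      exact hm
    have hN' : ∀ s : ℝ, s + 4 ∈ Nb η → s ∈ Nb η := by
      rintro s ⟨m, hm⟩
      refine ⟨m - 2, ?_⟩
      push_cast
      rw [show s - 2 * ((m : ℝ) - 2) = s + 4 - 2 * m by ring]
      exact hm
    by_cases h : ∃ k : ℤ, zp B k t ∈ Nb η
    · obtain ⟨k, hk⟩ := h
      rw [ext_in Bfix h1 hmv a (k := k) (by rw [zp_four B4]; exact hN _ hk),
        ext_in Bfix h1 hmv a hk, zp_four B4, a4, zp_four B4]
    · have h' : ¬ ∃ k : ℤ, zp B k (t + 4) ∈ Nb η := by
        rintro ⟨k, hk⟩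
        rw [zp_four B4] at hk
        exact h ⟨k, hN' _ hk⟩
      rw [ext_out _ h, ext_out _ h']
  · intro t ht
    show ext B η a t = a t
    rw [ext_in Bfix h1 hmv a (k := 0) (by rw [zp_zero]; exact ht)]
    rfl
  · intro t ht
    exact ext_out _ fun ⟨k, hk⟩ => ht k hk

end

end Pool.Agent.H.MP_1611f1_gt.LG
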