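import Pool.Agent.H.MP_1611f1_gt.LG.OneF

/-!
The one-dimensional data with fixed points near the integers.
-/

namespace Pool.Agent.H.MP_1611f1_gt.LG

open Topology Set Filter
open Pool.Agent.H.MP_1611f1_gt.LS

/-- small intervals are moved off themselves -/
theorem exists_moved (B : ℝ ≃o ℝ) (c : ℝ) (h : B c ≠ c) :
    ∃ η > 0, ∀ η', 0 < η' → η' ≤ η → (c + η' < B (c - η') ∨ B (c + η') < c - η') := by
  rcases lt_or_gt_of_ne h with h1 | h1
  · have hc : Continuous fun t : ℝ => B (c + t) + t := by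
      have := B.continuous
      fun_prop
    have h2 : ∀ᶠ t : ℝ in 𝓝 0, B (c + t) + t < c :=
      hc.continuousAt.eventually_lt_const (by simpa using h1)
    obtain ⟨ε, hε, h3⟩ := Metric.eventually_nhds_iff.1 h2
    refine ⟨ε / 2, by linarith, fun η' h4 h5 => Or.inr ?_⟩
    have h6 := h3 (y := η') (by rw [Real.dist_eq, sub_zero, abs_of_pos h4]; linarith)
    linarith
  · have hc : Continuous fun t : ℝ => B (c - t) - t := by
      have := B.continuous
      fun_prop
    have h2 : ∀ᶠ t : ℝ in 𝓝 0, c < B (c - t) - t :=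
      hc.continuousAt.eventually_const_lt (by simpa using h1)
    obtain ⟨ε, hε, h3⟩ := Metric.eventually_nhds_iff.1 h2
    refine ⟨ε / 2, by linarith, fun η' h4 h5 => Or.inl ?_⟩
    have h6 := h3 (y := η') (by rw [Real.dist_eq, sub_zero, abs_of_pos h4]; linarith)
    linarith

theorem shift_even {B : ℝ ≃o ℝ} (B4 : ∀ t, B (t + 4) = B t + 4) (k : ℤ) (t : ℝ) :
    B (4 * k + t) = 4 * k + B t := by
  have h := OneC_shift (fun x => B x) 4 4 B4 k t
  rw [show (4 * (k : ℝ) + t) = t + k * 4 by ring, h]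
  ring

theorem hol_B_ne {σ : ℝ} (hσ : σ ≠ 0) (H : Hol σ) (m : ℤ) : H.B (2 * m) ≠ 2 * m := by
  intro h
  have h1 := H.rot (2 * m)
  rw [H.Afix, h] at h1
  have h2 : H.A.symm (2 * m) = 2 * m := by rw [OrderIso.symm_apply_eq, H.Afix]
  have h3 : H.B.symm (2 * m) = 2 * m := by rw [OrderIso.symm_apply_eq, h]
  rw [h2, h3] at h1
  exact hσ (by linarith)

theorem hol_A_ne {σ : ℝ} (hσ : σ ≠ 0) (H : Hol σ) (m : ℤ) :
    H.A (2 * m + 1) ≠ 2 * m + 1 := by
  intro h
  have h1 := H.rot (2 * m + 1)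
  rw [h, H.Bfix] at h1
  have h2 : H.A.symm (2 * m + 1) = 2 * m + 1 := by rw [OrderIso.symm_apply_eq, h]
  have h3 : H.B.symm (2 * m + 1) = 2 * m + 1 := by rw [OrderIso.symm_apply_eq, H.Bfix]
  rw [h2, h3] at h1
  exact hσ (by linarith)

/-- **Fixed points of `A` near the even integers**, with prescribed linear germs. -/
theorem germ_A {σ : ℝ} (H : Hol σ) (hB : ∀ m : ℤ, H.B (2 * m) ≠ 2 * m) :
    ∃ η₀ > 0, ∀ η, 0 < η → η < η₀ → ∀ l, 0 < l → ∃ H' : Hol σ, H'.B = H.B ∧
      ∀ m : ℤ, LinTwo H'.A (2 * m + η) l ∧ LinTwo H'.A (2 * m - η) l := by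
  obtain ⟨r0, hr0, m0⟩ := exists_moved H.B 0 (by have := hB 0; simpa using this)
  obtain ⟨r1, hr1, m1⟩ := exists_moved H.B 2 (by have := hB 1; simpa using this)
  obtain ⟨R, hR, hR0, hR1, hRh⟩ : ∃ R > 0, R ≤ r0 ∧ R ≤ r1 ∧ R ≤ 1 / 2 :=
    ⟨min (min r0 r1) (1 / 2), lt_min (lt_min hr0 hr1) (by norm_num),
      (min_le_left _ _).trans (min_le_left _ _), (min_le_left _ _).trans (min_le_right _ _),
      min_le_right _ _⟩
  have hmv : ∀ m : ℤ, 2 * m + R < H.B (2 * m - R) ∨ H.B (2 * m + R) < 2 * m - R := by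
    intro m
    rcases Int.even_or_odd' m with ⟨k, hk | hk⟩
    · have e : (2 * (m : ℝ)) = 4 * k := by rw [hk]; push_cast; ring
      have e1 := shift_even H.B4 k (0 - R)
      have e2 := shift_even H.B4 k (0 + R)
      rcases m0 R hR hR0 with h | h
      · left
        rw [e, show (4 * (k : ℝ) - R) = 4 * k + (0 - R) by ring, e1]
        linarith
      · right
        rw [e, show (4 * (k : ℝ) + R) = 4 * k + (0 + R) by ring, e2]
        linarith
    · have e : (2 * (m : ℝ)) = 4 * k + 2 := by rw [hk]; push_cast; ring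
      have e1 := shift_even H.B4 k (2 - R)
      have e2 := shift_even H.B4 k (2 + R)
      rcases m1 R hR hR1 with h | h
      · left
        rw [e, show (4 * (k : ℝ) + 2 - R) = 4 * k + (2 - R) by ring, e1]
        linarith
      · right
        rw [e, show (4 * (k : ℝ) + 2 + R) = 4 * k + (2 + R) by ring, e2]
        linarith
  have hA0 : H.A.symm 0 = 0 := by
    rw [OrderIso.symm_apply_eq]
    have := H.Afix 0
    simpa using this.symm
  have hA2 : H.A.symm 2 = 2 := by
    rw [OrderIso.symm_apply_eq]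
    have := H.Afix 1
    simpa using this.symm
  have hAs4 : ∀ t, H.A.symm (t + 4) = H.A.symm t + 4 := by
    intro t
    rw [OrderIso.symm_apply_eq, H.A4, OrderIso.apply_symm_apply]
  obtain ⟨δ0, hδ0, hδ0R, ψ0, a0, b0⟩ := exists_cut H.A.symm hA0 R hR
  obtain ⟨δ1, hδ1, hδ1R, ψ1, a1, b1⟩ := exists_cut (OneA_conj H.A.symm (-2))
    (by rw [OneA_conj_apply, show (0 - -2 : ℝ) = 2 by norm_num, hA2]; norm_num) R hR
  obtain ⟨δ, hδ, hδa, hδb⟩ : ∃ δ > 0, δ ≤ δ0 ∧ δ ≤ δ1 :=
    ⟨min δ0 δ1, lt_min hδ0 hδ1, min_le_left _ _, min_le_right _ _⟩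
  let ψ : ℤ → (ℝ ≃o ℝ) := fun m => if Even m then ψ0 else ψ1
  have ψ_in : ∀ m x, |x| ≤ δ → ψ m x = H.A.symm (2 * m + x) - 2 * m := by
    intro m x hx
    rcases Int.even_or_odd' m with ⟨k, hk | hk⟩
    · have hev : Even m := ⟨k, by omega⟩
      have e : (2 * (m : ℝ)) = 4 * k := by rw [hk]; push_cast; ring
      simp only [ψ, if_pos hev]
      rw [a0 x (hx.trans hδa), e, shift_even hAs4]
      ring
    · have hev : ¬ Even m := by rw [Int.not_even_iff_odd]; exact ⟨k, hk⟩
      have e : (2 * (m : ℝ)) = 4 * k + 2 := by rw [hk]; push_cast; ring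
      simp only [ψ, if_neg hev]
      rw [a1 x (hx.trans hδb), OneA_conj_apply, e,
        show (4 * (k : ℝ) + 2 + x) = 4 * k + (x - -2) by ring, shift_even hAs4]
      ring
  have ψ_out : ∀ m x, R ≤ |x| → ψ m x = x := by
    intro m x hx
    simp only [ψ]
    split_ifs
    · exact b0 x hx
    · exact b1 x hx
  refine ⟨δ / 2, by linarith, fun η hη hηδ l hl => ?_⟩
  obtain ⟨ρ, hρ0, hρ, hρ1, hρ2⟩ := exists_rho η l hη hl
  have hδR : δ < R := lt_of_le_of_lt hδa hδ0R
  have hone : ∀ m, (ρ.trans (ψ m)) 1 = 1 ∧ (ρ.trans (ψ m)) (-1) = -1 := by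
    intro m
    constructor
    · rw [OrderIso.trans_apply, hρ 1 (by rw [abs_one]; linarith),
        ψ_out m 1 (by rw [abs_one]; linarith)]
    · rw [OrderIso.trans_apply, hρ (-1) (by rw [abs_neg, abs_one]; linarith),
        ψ_out m (-1) (by rw [abs_neg, abs_one]; linarith)]
  obtain ⟨a, ha⟩ := exists_cblock (fun m => ρ.trans (ψ m)) hone
  have ha' : ∀ (m : ℤ) (x : ℝ), |x| ≤ 1 → a (2 * m + x) = 2 * m + ψ m (ρ x) := ha
  have a4 : ∀ t, a (t + 4) = a t + 4 := by
    intro t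
    obtain ⟨m, x, hx, rfl⟩ := exists_near t
    have e1 := ha' (m + 2) x hx
    have e2 : ψ (m + 2) = ψ m := by
      simp only [ψ]
      have : Even (m + 2) ↔ Even m := by
        rw [Int.even_add]
        simp
      simp only [this]
    rw [e2] at e1
    push_cast at e1
    rw [ha' m x hx, show (2 * (m : ℝ) + x + 4) = 2 * (m + 2) + x by ring, e1]
    ring
  have hs : ∀ t, t ∉ Nb R → a t = t := by
    intro t ht
    obtain ⟨m, x, hx, rfl⟩ := exists_near t
    have hxR : R ≤ |x| := by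
      by_contra hcon
      exact ht ⟨m, by rw [add_sub_cancel_left]; exact not_le.1 hcon⟩
    rw [ha' m x hx, hρ x (by linarith), ψ_out m x hxR]
  obtain ⟨α, c1, c2, c3, -⟩ := comm_ext H.B4 H.Bfix (by linarith) hmv a a4 hs
  have hα : ∀ (m : ℤ) (x : ℝ), |x| < R → α (2 * m + x) = 2 * m + ψ m (ρ x) := by
    intro m x hx
    rw [c3 _ ⟨m, by rw [add_sub_cancel_left]; exact hx⟩, ha' m x (by linarith)]
  have hα' : ∀ (m : ℤ) (x : ℝ), |x| ≤ 2 * η → H.A (α (2 * m + x)) = 2 * m + ρ x := by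
    intro m x hx
    have h1 : |ρ x| ≤ 2 * η := by
      refine iso_interval (hρ _ (le_abs_self _)) (hρ _ ?_) hx
      rw [abs_neg]
      exact le_abs_self _
    rw [hα m x (by linarith), ψ_in m _ (by linarith), add_sub_cancel, OrderIso.apply_symm_apply]
  have hcomm : ∀ t, α (H.B.symm (α.symm t)) = H.B.symm t := by
    intro t
    rw [eq_comm, OrderIso.symm_apply_eq, ← c1, OrderIso.apply_symm_apply,
      OrderIso.apply_symm_apply]
  refine ⟨⟨α.trans H.A, H.B, fun t => H.th (α t), H.mono.comp α.strictMono,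
    H.cont.comp α.continuous, ?_, H.B4, ?_, ?_, H.Bfix, ?_⟩, rfl, fun m => ⟨?_, ?_⟩⟩
  · intro t
    rw [OrderIso.trans_apply, OrderIso.trans_apply, c2, H.A4]
  · intro t
    rw [c2, H.th4]
  · intro m
    have h1 := hα' m 0 (by rw [abs_zero]; linarith)
    rw [add_zero, hρ0, add_zero] at h1
    rw [OrderIso.trans_apply, h1]
  · intro t
    show H.th (α (H.B.symm (α.symm (H.A.symm (H.B (H.A (α t))))))) = H.th (α t) + 4 * σ
    rw [hcomm]
    exact H.rot (α t)
  · obtain ⟨-, ε, hε, hlin⟩ := hρ1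
    refine ⟨hl, min ε η, lt_min hε hη, fun t ht => ?_⟩
    have g1 := min_le_left ε η
    have g2 := min_le_right ε η
    show H.A (α t) = _
    have e1 := hα' m (t - 2 * m) (by
      rw [abs_le]
      constructor <;> linarith [ht.1, ht.2])
    rw [add_sub_cancel] at e1
    rw [e1, hlin _ ⟨by linarith [ht.1], by linarith [ht.2]⟩]
    ring
  · obtain ⟨-, ε, hε, hlin⟩ := hρ2
    refine ⟨hl, min ε η, lt_min hε hη, fun t ht => ?_⟩
    have g1 := min_le_left ε η
    have g2 := min_le_right ε η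
    show H.A (α t) = _
    have e1 := hα' m (t - 2 * m) (by
      rw [abs_le]
      constructor <;> linarith [ht.1, ht.2])
    rw [add_sub_cancel] at e1
    rw [e1, hlin _ ⟨by linarith [ht.1], by linarith [ht.2]⟩]
    ring

end Pool.Agent.H.MP_1611f1_gt.LG
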