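import Pool.Agent.H.MP_1611f1_gt.LS.LvA

/-!
The one-dimensional data: all germs at the fixed points are linear and not trivial, with the same
slope on both sides.
-/

namespace Pool.Agent.H.MP_1611f1_gt.LS

open Topology Set Filter

/-- `f` is linear with the slope `l` near `i` -/
def LinTwo (f : ℝ ≃o ℝ) (i l : ℝ) : Prop :=
  0 < l ∧ ∃ ε > 0, ∀ t ∈ Icc (i - ε) (i + ε), f t = i + l * (t - i)

theorem Two_symm {f : ℝ ≃o ℝ} {i l : ℝ} (h : LinTwo f i l) : LinTwo f.symm i l⁻¹ := by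
  obtain ⟨hl, ε, hε, h⟩ := h
  refine ⟨inv_pos.mpr hl, ε * l, mul_pos hε hl, fun t ht => ?_⟩
  have h1 : l⁻¹ * (t - i) ≤ ε := by
    rw [inv_mul_le_iff₀ hl]
    linarith [ht.2]
  have h2 : -ε ≤ l⁻¹ * (t - i) := by
    rw [le_inv_mul_iff₀ hl]
    linarith [ht.1]
  rw [OrderIso.symm_apply_eq, h]
  · field_simp
    ring
  · constructor
    · linarith
    · linarith

theorem Two_shift {A B : ℝ ≃o ℝ} (hB : ∀ t, B t = A (t - 1) + 1) {i l : ℝ} (h : LinTwo A i l) :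
    LinTwo B (i + 1) l := by
  obtain ⟨hl, ε, hε, h⟩ := h
  refine ⟨hl, ε, hε, fun t ht => ?_⟩
  rw [hB, h (t - 1) ⟨by linarith [ht.1], by linarith [ht.2]⟩]
  ring

theorem Two_A {r : ℝ} (h0 : 0 < r) (h1 : r < 1) {e A : ℝ ≃o ℝ}
    (he : e 0 = 0 ∧ e 2 = 2 ∧ (∀ x ≤ r, e x = x / r) ∧
      (∀ x, r ≤ x → x ≤ 1 → e x = 1 + (x - r)) ∧
      (∀ x, 1 ≤ x → e x = 2 - r + r * (x - 1)))
    (hA4 : ∀ t, A (t + 4) = A t + 4) (hA1 : ∀ t ∈ Icc (0 : ℝ) 2, A t = e t)
    (hA2 : ∀ t ∈ Icc (2 : ℝ) 4, A t = e.symm (t - 2) + 2) (m : ℤ) :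
    ∃ l : ℝ, l ≠ 1 ∧ LinTwo A (2 * m) l := by
  have hs := (OneC_symm r h0 e he).2.2
  have hs0 := (OneC_symm r h0 e he).1
  have he1 := he.2.2.1
  have he3 := he.2.2.2.2
  have hAk : ∀ (k : ℤ) (t : ℝ), A (t + k * 4) = A t + k * 4 := fun k t =>
    OneC_shift (fun x => A x) 4 4 hA4 k t
  rcases Int.even_or_odd' m with ⟨k, hk | hk⟩
  · refine ⟨r⁻¹, fun h => h1.ne (inv_eq_one.mp h), inv_pos.mpr h0, r, h0, fun t ht => ?_⟩
    have hm : (2 * m : ℝ) = 4 * k := by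
      rw [hk]
      push_cast
      ring
    rw [hm] at ht ⊢
    rcases le_total t (4 * k) with h | h
    · have h2 := hAk (k - 1) (t - (k - 1) * 4)
      push_cast at h2
      rw [sub_add_cancel] at h2
      rw [h2, hA2 _ ⟨by linarith [ht.1], by linarith [ht.2]⟩, hs _ (by linarith [ht.1])]
      field_simp
      ring
    · have h2 := hAk k (t - k * 4)
      rw [sub_add_cancel] at h2
      rw [h2, hA1 _ ⟨by linarith [ht.1], by linarith [ht.2]⟩, he1 _ (by linarith [ht.2])]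
      field_simp
      ring
  · refine ⟨r, h1.ne, h0, 1, one_pos, fun t ht => ?_⟩
    have hm : (2 * m : ℝ) = 4 * k + 2 := by
      rw [hk]
      push_cast
      ring
    rw [hm] at ht ⊢
    have h2 := hAk k (t - k * 4)
    rw [sub_add_cancel] at h2
    rcases le_total t (4 * k + 2) with h | h
    · rw [h2, hA1 _ ⟨by linarith [ht.1], by linarith [ht.2]⟩, he3 _ (by linarith [ht.1])]
      ring
    · rw [h2, hA2 _ ⟨by linarith [ht.1], by linarith [ht.2]⟩, hs0 _ (by linarith [ht.2])]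
      ring

theorem Two_pos (σ : ℝ) (h0 : 0 < σ) (h1 : σ < 1) : ∃ H : Hol σ,
    (∀ m : ℤ, ∃ l : ℝ, l ≠ 1 ∧ LinTwo H.A (2 * m) l) ∧ (∀ t, H.B t = H.A (t - 1) + 1) := by
  obtain ⟨s, hs0, hs1, hs2⟩ : ∃ s : ℝ, 0 < s ∧ s < 1 ∧ s * s = σ := by
    refine ⟨Real.sqrt σ, Real.sqrt_pos.2 h0, ?_, Real.mul_self_sqrt h0.le⟩
    rw [Real.sqrt_lt' one_pos]
    simpa using h1
  obtain ⟨r, hr⟩ : ∃ r : ℝ, r = (1 - s) / (1 + s) := ⟨_, rfl⟩
  have hr0 : 0 < r := by
    rw [hr]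
    apply div_pos <;> linarith
  have hr1 : r < 1 := by
    rw [hr, div_lt_one (by linarith)]
    linarith
  have hrs : 1 - r = s * (1 + r) := by
    rw [hr]
    field_simp
    ring
  obtain ⟨e, A, he, hA4, hAf, hA1, hA2⟩ := exists_A r hr0 hr1
  obtain ⟨th0, hm, hc, ht4, ht⟩ := exists_th r hr0 hr1
  obtain ⟨R1, R2⟩ := crossing r hr0 hr1 e A th0 he hA4 hA1 hA2 ht4 ht
  let B : ℝ ≃o ℝ := ((OrderIso.addRight (-1 : ℝ)).trans A).trans (OrderIso.addRight (1 : ℝ))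
  have hB : ∀ t, B t = A (t - 1) + 1 := by
    intro t
    change A (t + -1) + 1 = A (t - 1) + 1
    rw [← sub_eq_add_neg]
  have hr2 : 0 < (1 + r) ^ 2 := by positivity
  refine ⟨⟨A, B, fun t => 4 / (1 + r) ^ 2 * th0 t, ?_, ?_, hA4, ?_, ?_, hAf, ?_, ?_⟩,
    Two_A hr0 hr1 he hA4 hA1 hA2, hB⟩
  · exact hm.const_mul (by positivity)
  · exact continuous_const.mul hc
  · intro t
    rw [hB, hB]
    have : t + 4 - 1 = (t - 1) + 4 := by ring
    rw [this, hA4]
    ring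
  · intro t
    rw [ht4]
    field_simp
  · intro m
    rw [hB]
    have : (2 * m + 1 - 1 : ℝ) = 2 * m := by ring
    rw [this, hAf]
  · intro t
    obtain ⟨x1, hx1⟩ : ∃ x, x = A t := ⟨_, rfl⟩
    obtain ⟨x2, hx2⟩ : ∃ x, x = B x1 := ⟨_, rfl⟩
    obtain ⟨x3, hx3⟩ : ∃ x, x = A.symm x2 := ⟨_, rfl⟩
    obtain ⟨x4, hx4⟩ : ∃ x, x = B.symm x3 := ⟨_, rfl⟩
    rw [← hx1, ← hx2, ← hx3, ← hx4]
    have e1 := R1 t
    rw [← hx1] at e1
    have e2 := R1 (x1 - 1)
    have g2 : A (x1 - 1) - 1 = x2 - 2 := by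
      rw [hx2, hB]
      ring
    rw [g2] at e2
    have e3 := R2 x3
    have g3 : A x3 = x2 := by rw [hx3, OrderIso.apply_symm_apply]
    rw [g3] at e3
    have e4 := R2 (x4 - 1)
    have g4 : B x4 = x3 := by rw [hx4, OrderIso.apply_symm_apply]
    rw [hB] at g4
    have g5 : A (x4 - 1) - 2 = x3 - 3 := by rw [← g4]; ring
    have g6 : x4 - 1 - 3 = x4 - 4 := by ring
    rw [g5, g6] at e4
    have e5 := ht4 (x4 - 4)
    rw [sub_add_cancel] at e5
    have e6 : th0 x4 = th0 t + (1 - r) ^ 2 := by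
      rw [e5]
      have : th0 (x4 - 4) = th0 t - 4 * r := by linarith
      rw [this]
      ring
    rw [e6, hrs, ← hs2]
    field_simp

/-! ### The case `σ = 0` -/

theorem Two_e1 : ∃ e : ℝ ≃o ℝ, (∀ x, 0 ≤ x → x ≤ 1 / 4 → e x = 3 / 2 * x) ∧
    (∀ x, 1 / 2 ≤ x → e x = x) := by
  let g : ℝ → ℝ := fun x => x + max 0 (min (x / 2) (1 / 4 - x / 2))
  have hg : ∀ x, g x = x + max 0 (min (x / 2) (1 / 4 - x / 2)) := fun x => rfl
  have g0 : ∀ x, x ≤ 0 → g x = x := by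
    intro x hx
    rw [hg, min_eq_left (by linarith), max_eq_left (by linarith), add_zero]
  have g1 : ∀ x, 0 ≤ x → x ≤ 1 / 4 → g x = 3 / 2 * x := by
    intro x hx hx1
    rw [hg, min_eq_left (by linarith), max_eq_right (by linarith)]
    ring
  have g2 : ∀ x, 1 / 4 ≤ x → x ≤ 1 / 2 → g x = x / 2 + 1 / 4 := by
    intro x hx hx1
    rw [hg, min_eq_right (by linarith), max_eq_right (by linarith)]
    ring
  have g3 : ∀ x, 1 / 2 ≤ x → g x = x := by
    intro x hx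
    rw [hg, min_eq_right (by linarith), max_eq_left (by linarith), add_zero]
  have hsm : StrictMono g := by
    intro s t hst
    rw [hg, hg]
    simp only [max_def, min_def]
    split_ifs <;> linarith
  have hsurj : Function.Surjective g := by
    intro y
    rcases le_or_gt y 0 with h | h
    · exact ⟨y, g0 y h⟩
    rcases le_or_gt y (3 / 8) with h1 | h1
    · exact ⟨2 / 3 * y, by rw [g1 _ (by linarith) (by linarith)]; ring⟩
    rcases le_or_gt y (1 / 2) with h2 | h2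
    · exact ⟨2 * y - 1 / 2, by rw [g2 _ (by linarith) (by linarith)]; ring⟩
    · exact ⟨y, g3 y h2.le⟩
  exact ⟨StrictMono.orderIsoOfSurjective g hsm hsurj, g1, g3⟩

theorem Two_e2 : ∃ e : ℝ ≃o ℝ, (∀ x, x ≤ 3 / 2 → e x = x) ∧
    (∀ x, 7 / 4 ≤ x → x ≤ 2 → e x = 3 / 2 * x - 1) := by
  let g : ℝ → ℝ := fun x => x - max 0 (min (x / 2 - 3 / 4) (1 - x / 2))
  have hg : ∀ x, g x = x - max 0 (min (x / 2 - 3 / 4) (1 - x / 2)) := fun x => rfl
  have g1 : ∀ x, x ≤ 3 / 2 → g x = x := by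
    intro x hx
    rw [hg, min_eq_left (by linarith), max_eq_left (by linarith), sub_zero]
  have g2 : ∀ x, 3 / 2 ≤ x → x ≤ 7 / 4 → g x = x / 2 + 3 / 4 := by
    intro x hx hx1
    rw [hg, min_eq_left (by linarith), max_eq_right (by linarith)]
    ring
  have g3 : ∀ x, 7 / 4 ≤ x → x ≤ 2 → g x = 3 / 2 * x - 1 := by
    intro x hx hx1
    rw [hg, min_eq_right (by linarith), max_eq_right (by linarith)]
    ring
  have g4 : ∀ x, 2 ≤ x → g x = x := by
    intro x hx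
    rw [hg, min_eq_right (by linarith), max_eq_left (by linarith), sub_zero]
  have hsm : StrictMono g := by
    intro s t hst
    rw [hg, hg]
    simp only [max_def, min_def]
    split_ifs <;> linarith
  have hsurj : Function.Surjective g := by
    intro y
    rcases le_or_gt y (3 / 2) with h | h
    · exact ⟨y, g1 y h⟩
    · rcases le_or_gt y (13 / 8) with h' | h'
      · exact ⟨2 * y - 3 / 2, by rw [g2 _ (by linarith) (by linarith)]; ring⟩
      · rcases le_or_gt y 2 with h'' | h''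
        · exact ⟨2 / 3 * (y + 1), by rw [g3 _ (by linarith) (by linarith)]; ring⟩
        · exact ⟨y, g4 y h''.le⟩
  exact ⟨StrictMono.orderIsoOfSurjective g hsm hsurj, g1, g3⟩

/-- the base map on `[0, 2]`: it moves only the points of `(0, 1/2)` and `(3/2, 2)` -/
theorem Two_e : ∃ e : ℝ ≃o ℝ, (∀ x, 0 ≤ x → x ≤ 1 / 4 → e x = 3 / 2 * x) ∧
    (∀ x, 1 / 2 ≤ x → x ≤ 3 / 2 → e x = x) ∧ (∀ x, 7 / 4 ≤ x → x ≤ 2 → e x = 3 / 2 * x - 1) := by
  obtain ⟨e1, a1, a2⟩ := Two_e1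
  obtain ⟨e2, b1, b2⟩ := Two_e2
  refine ⟨e2.trans e1, fun x h1 h2 => ?_, fun x h1 h2 => ?_, fun x h1 h2 => ?_⟩
  · rw [OrderIso.trans_apply, b1 x (by linarith), a1 x h1 h2]
  · rw [OrderIso.trans_apply, b1 x h2, a2 x h1]
  · rw [OrderIso.trans_apply, b2 x h1 h2, a2 _ (by linarith)]

theorem Two_A0 : ∃ A : ℝ ≃o ℝ, (∀ t, A (t + 2) = A t + 2) ∧
    (∀ t, 0 ≤ t → t ≤ 1 / 4 → A t = 3 / 2 * t) ∧
    (∀ t, 1 / 2 ≤ t → t ≤ 3 / 2 → A t = t) ∧ (∀ t, 7 / 4 ≤ t → t ≤ 2 → A t = 3 / 2 * t - 1) := by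
  obtain ⟨e, e1, e2, e3⟩ := Two_e
  have e0 : e 0 = 0 := by rw [e1 0 le_rfl (by norm_num)]; norm_num
  have e02 : e 2 = 2 := by rw [e3 2 (by norm_num) le_rfl]; norm_num
  let f : ℤ → (ℝ ≃o ℝ) := fun m => OneA_conj e (2 * m)
  have hf0 : ∀ m : ℤ, f m (2 * m) = 2 * m := by
    intro m
    simp only [f]
    rw [OneA_conj_apply, sub_self, e0, zero_add]
  have hf2 : ∀ m : ℤ, f m (2 * m + 2) = 2 * m + 2 := by
    intro m
    simp only [f]
    rw [OneA_conj_apply, add_sub_cancel_left, e02, add_comm]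
  obtain ⟨A, hA⟩ := exists_blockIso f hf0 hf2
  have hz : ∀ t, 0 ≤ t → t ≤ 2 → A t = e t := by
    intro t h1 h2
    have h3 := hA 0 t (by
      push_cast
      constructor <;> linarith)
    simp only [f] at h3
    rw [h3, OneA_conj_apply]
    push_cast
    rw [mul_zero, sub_zero, add_zero]
  refine ⟨A, ?_, ?_, ?_, ?_⟩
  · intro t
    have ht := OneA_floor' t
    set m : ℤ := ⌊t / 2⌋ with hm
    rw [hA m t ⟨ht.1, ht.2.le⟩, hA (m + 1) (t + 2) (by
      push_cast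
      constructor <;> linarith [ht.1, ht.2])]
    simp only [f]
    rw [OneA_conj_apply, OneA_conj_apply]
    have hsub : t + 2 - 2 * ((m + 1 : ℤ) : ℝ) = t - 2 * (m : ℝ) := by
      push_cast
      ring
    rw [hsub]
    push_cast
    ring
  · intro t h1 h2
    rw [hz t h1 (by linarith), e1 t h1 h2]
  · intro t h1 h2
    rw [hz t (by linarith) (by linarith), e2 t h1 h2]
  · intro t h1 h2
    rw [hz t (by linarith) h2, e3 t h1 h2]

/-- the data for `σ = 0` -/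
theorem Two_zero : ∃ H : Hol 0, (∀ m : ℤ, LinTwo H.A (2 * m) (3 / 2)) ∧
    (∀ t, H.B t = H.A (t - 1) + 1) := by
  obtain ⟨A, hA2, hA0, hAm, hA1⟩ := Two_A0
  have hAk : ∀ (k : ℤ) (t : ℝ), A (t + k * 2) = A t + k * 2 := fun k t =>
    OneC_shift (fun x => A x) 2 2 hA2 k t
  have hid : ∀ (k : ℤ) (t : ℝ), 2 * (k : ℝ) + 1 / 2 ≤ t → t ≤ 2 * k + 3 / 2 → A t = t := by
    intro k t h1 h2
    have h3 := hAk k (t - k * 2)
    rw [sub_add_cancel, hAm (t - k * 2) (by linarith) (by linarith)] at h3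
    linarith
  have hfix : ∀ k : ℤ, A (2 * k) = 2 * k := by
    intro k
    have h3 := hAk k 0
    rw [zero_add, hA0 0 le_rfl (by norm_num)] at h3
    rw [show (2 * k : ℝ) = k * 2 by ring, h3]
    ring
  have hmem : ∀ (k : ℤ) (t : ℝ), 2 * (k : ℝ) - 1 / 2 ≤ t → t ≤ 2 * k + 1 / 2 →
      2 * (k : ℝ) - 1 / 2 ≤ A t ∧ A t ≤ 2 * k + 1 / 2 := by
    intro k t h1 h2
    constructor
    · have := A.monotone h1
      have h3 := hid (k - 1) (2 * (k : ℝ) - 1 / 2) (by push_cast; linarith) (by push_cast; linarith)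
      rwa [h3] at this
    · have := A.monotone h2
      rwa [hid k _ le_rfl (by linarith)] at this
  let B : ℝ ≃o ℝ := ((OrderIso.addRight (-1 : ℝ)).trans A).trans (OrderIso.addRight (1 : ℝ))
  have hB : ∀ t, B t = A (t - 1) + 1 := by
    intro t
    change A (t + -1) + 1 = A (t - 1) + 1
    rw [← sub_eq_add_neg]
  have hcomm : ∀ t, B (A t) = A (B t) := by
    intro t
    obtain ⟨m, hm⟩ : ∃ m : ℤ, m = ⌊(t + 1 / 2) / 2⌋ := ⟨_, rfl⟩
    have k1 : (m : ℝ) ≤ (t + 1 / 2) / 2 := by rw [hm]; exact Int.floor_le _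
    have k2 : (t + 1 / 2) / 2 < (m : ℝ) + 1 := by rw [hm]; exact Int.lt_floor_add_one _
    rw [hB, hB]
    rcases le_or_gt t (2 * m + 1 / 2) with h | h
    · -- `t` near `2 m`: only `A` moves
      obtain ⟨m1, m2⟩ := hmem m t (by linarith) h
      have e1 : A (t - 1) = t - 1 := hid (m - 1) _ (by push_cast; linarith) (by push_cast; linarith)
      have e2 : A (A t - 1) = A t - 1 :=
        hid (m - 1) _ (by push_cast; linarith) (by push_cast; linarith)
      rw [e1, e2, sub_add_cancel, sub_add_cancel]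
    · -- `t` near `2 m + 1`: only `B` moves
      obtain ⟨m1, m2⟩ := hmem m (t - 1) (by linarith) (by linarith)
      have e1 : A t = t := hid m _ (by linarith) (by linarith)
      rw [e1, hid m (A (t - 1) + 1) (by linarith) (by linarith)]
  refine ⟨⟨A, B, fun t => t, strictMono_id, continuous_id, ?_, ?_, fun t => rfl, hfix, ?_, ?_⟩,
    ?_, hB⟩
  · intro t
    have h1 := hA2 (t + 2)
    have h2 := hA2 t
    have h3 : t + 2 + 2 = t + 4 := by ring
    rw [h3, h2] at h1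
    linarith
  · intro t
    rw [hB, hB]
    have h1 := hA2 (t - 1 + 2)
    have h2 := hA2 (t - 1)
    have h3 : t - 1 + 2 + 2 = t + 4 - 1 := by ring
    rw [h3, h2] at h1
    linarith
  · intro m
    rw [hB]
    have : (2 * m + 1 - 1 : ℝ) = 2 * m := by ring
    rw [this, hfix]
  · intro t
    show B.symm (A.symm (B (A t))) = t + 4 * 0
    rw [hcomm, OrderIso.symm_apply_apply, OrderIso.symm_apply_apply]
    ring
  · intro m
    refine ⟨by norm_num, 1 / 4, by norm_num, fun t ht => ?_⟩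
    show A t = _
    rcases le_total t (2 * m) with h | h
    · have h1 := hAk (m - 1) (t - ((m - 1 : ℤ) : ℝ) * 2)
      rw [sub_add_cancel, hA1 (t - ((m - 1 : ℤ) : ℝ) * 2) (by push_cast; linarith [ht.1])
        (by push_cast; linarith [ht.2])] at h1
      rw [h1]
      push_cast
      ring
    · have h1 := hAk m (t - (m : ℝ) * 2)
      rw [sub_add_cancel, hA0 (t - (m : ℝ) * 2) (by linarith) (by linarith [ht.2])] at h1
      rw [h1]
      ring

theorem exists_hol_two (σ : ℝ) (hσ : |σ| < 1) : ∃ H : Hol σ,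
    (∀ m : ℤ, ∃ l : ℝ, l ≠ 1 ∧ LinTwo H.A (2 * m) l) ∧
    (∀ m : ℤ, ∃ l : ℝ, l ≠ 1 ∧ LinTwo H.B (2 * m + 1) l) := by
  rcases lt_trichotomy σ 0 with h | h | h
  · rw [abs_of_neg h] at hσ
    obtain ⟨D, hD1, hD2⟩ := Two_pos (-σ) (by linarith) hσ
    have hA4 : ∀ t, D.A.symm (t + 4) = D.A.symm t + 4 := by
      intro t
      apply D.A.injective
      rw [D.A4, OrderIso.apply_symm_apply, OrderIso.apply_symm_apply]
    refine ⟨⟨D.A.symm, D.B, fun t => D.th (D.A.symm t), ?_, ?_, hA4, D.B4, ?_, ?_, D.Bfix, ?_⟩,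
      ?_, ?_⟩
    · exact D.mono.comp D.A.symm.strictMono
    · exact D.cont.comp D.A.symm.continuous
    · intro t
      rw [hA4, D.th4]
    · intro m
      apply D.A.injective
      rw [D.Afix, OrderIso.apply_symm_apply]
    · intro t
      simp only [OrderIso.symm_symm]
      have h1 := D.rot (D.A.symm (D.B.symm (D.A (D.B (D.A.symm t)))))
      rw [OrderIso.apply_symm_apply, OrderIso.apply_symm_apply, OrderIso.symm_apply_apply,
        OrderIso.symm_apply_apply] at h1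
      linarith
    · intro m
      obtain ⟨l, hl, hlin⟩ := hD1 m
      exact ⟨l⁻¹, fun h => hl (inv_eq_one.mp h), Two_symm hlin⟩
    · intro m
      obtain ⟨l, hl, hlin⟩ := hD1 m
      exact ⟨l, hl, Two_shift hD2 hlin⟩
  · rw [h]
    obtain ⟨H, h1, h2⟩ := Two_zero
    exact ⟨H, fun m => ⟨3 / 2, by norm_num, h1 m⟩,
      fun m => ⟨3 / 2, by norm_num, Two_shift h2 (h1 m)⟩⟩
  · rw [abs_of_pos h] at hσ
    obtain ⟨D, hD1, hD2⟩ := Two_pos σ h hσ
    refine ⟨D, hD1, fun m => ?_⟩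
    obtain ⟨l, hl, hlin⟩ := hD1 m
    exact ⟨l, hl, Two_shift hD2 hlin⟩

/-- the data for all colours -/
theorem exists_hols_two {K : Type*} (σ : K → ℝ) (hσ : ∀ k, |σ k| < 1) :
    ∃ H : ∀ k, Hol (σ k), ∀ (i : ℤ) (e : Bool × K), ina i e →
      ∃ l : ℝ, l ≠ 1 ∧ LinTwo (iso H e) i l := by
  choose H hH using fun k => exists_hol_two (σ k) (hσ k)
  refine ⟨H, ?_⟩
  rintro i ⟨b, k⟩ hi
  rcases hi with ⟨⟨m, hm⟩, hb⟩ | ⟨⟨m, hm⟩, hb⟩
  · simp only at hb
    subst hb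
    obtain ⟨l, hl, hlin⟩ := (hH k).1 m
    refine ⟨l, hl, ?_⟩
    have h1 : (i : ℝ) = 2 * m := by
      rw [hm]
      push_cast
      ring
    have h2 : iso H (false, k) = (H k).A := by simp [iso]
    rw [h1, h2]
    exact hlin
  · simp only at hb
    subst hb
    obtain ⟨l, hl, hlin⟩ := (hH k).2 m
    refine ⟨l, hl, ?_⟩
    have h1 : (i : ℝ) = 2 * m + 1 := by
      rw [hm]
      push_cast
      ring
    have h2 : iso H (true, k) = (H k).B := by simp [iso]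
    rw [h1, h2]
    exact hlin

end Pool.Agent.H.MP_1611f1_gt.LS
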